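import Pool.Agent.H753Z.SG.Defs

/-! Project SG: basic lemmas. -/

set_option autoImplicit false

namespace Pool.Agent.H753Z.SG

open Finset Filter

theorem lam_mul (m n : ℕ) : lam (m * n) = lam m * lam n :=
  ArithmeticFunction.liouville_apply_mul m n

theorem lam_one : lam 1 = 1 := ArithmeticFunction.liouville_apply_one

theorem lam_zero : lam 0 = 0 := by simp [lam]

theorem lam_prime {r : ℕ} (hr : r.Prime) : lam r = -1 := by
  rw [lam, ArithmeticFunction.liouville_apply hr.ne_zero,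
    ArithmeticFunction.cardFactors_apply_prime hr]
  norm_num

theorem lam_pm {n : ℕ} (hn : n ≠ 0) : lam n = 1 ∨ lam n = -1 := by
  rw [lam, ArithmeticFunction.liouville_apply hn]
  exact neg_one_pow_eq_or ℤ _

theorem lam_two : lam 2 = -1 := lam_prime Nat.prime_two

theorem lam_sq {n : ℕ} (hn : n ≠ 0) : lam n * lam n = 1 := by
  rcases lam_pm hn with h | h <;> rw [h] <;> norm_num

section

variable {p : ℕ} [hp : Fact p.Prime]

theorem ff_pm {x : ZMod p} (hx : x ≠ 0) : ff p x = 1 ∨ ff p x = -1 :=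
  lam_pm (by rwa [Ne, ZMod.val_eq_zero])

theorem ff_cast {n : ℕ} (hn : n < p) : ff p (n : ZMod p) = lam n := by
  rw [ff, ZMod.val_cast_of_lt hn]

theorem cast_ne_zero {n : ℕ} (h0 : 1 ≤ n) (hn : n < p) : (n : ZMod p) ≠ 0 := by
  rw [Ne, ZMod.natCast_eq_zero_iff]
  exact Nat.not_dvd_of_pos_of_lt h0 hn

theorem mem_Bad {g x : ZMod p} {s : ℤ} :
    x ∈ Bad p g s ↔ x ≠ 0 ∧ ff p (g * x) ≠ s * ff p x := by
  simp [Bad]

theorem zero_notMem_Bad (g : ZMod p) (s : ℤ) : (0 : ZMod p) ∉ Bad p g s := by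
  simp [mem_Bad]

theorem good_of_notMem {g x : ZMod p} {s : ℤ} (hx : x ≠ 0) (h : x ∉ Bad p g s) :
    ff p (g * x) = s * ff p x := by
  by_contra hne
  exact h (mem_Bad.2 ⟨hx, hne⟩)

/-- preimage of a set under a multiplication -/
theorem card_pre (E : Finset (ZMod p)) {h : ZMod p} (hh : h ≠ 0) :
    (univ.filter fun x => h * x ∈ E).card = E.card := by
  refine card_bij (fun x _ => h * x) ?_ ?_ ?_
  · intro x hx
    simpa using hx
  · intro x _ y _ hxy
    exact mul_left_cancel₀ hh hxy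
  · intro y hy
    refine ⟨h⁻¹ * y, ?_, ?_⟩
    · simp only [mem_filter, mem_univ, true_and]
      rwa [mul_inv_cancel_left₀ hh]
    · exact mul_inv_cancel_left₀ hh y

theorem card_Bad_mul (g : ZMod p) {h : ZMod p} (hh : h ≠ 0) (s t : ℤ) :
    (Bad p (g * h) (s * t)).card ≤ (Bad p g s).card + (Bad p h t).card := by
  have hsub : Bad p (g * h) (s * t) ⊆
      (univ.filter fun x => h * x ∈ Bad p g s) ∪ Bad p h t := by
    intro x hx
    rw [mem_Bad] at hx
    by_contra hcon
    rw [mem_union, not_or] at hcon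
    have h1 := good_of_notMem hx.1 hcon.2
    have h2 : h * x ∉ Bad p g s := by simpa using hcon.1
    have h3 := good_of_notMem (mul_ne_zero hh hx.1) h2
    apply hx.2
    rw [mul_assoc, h3, h1, mul_assoc]
  calc _ ≤ _ := card_le_card hsub
    _ ≤ _ := card_union_le _ _
    _ = _ := by rw [card_pre _ hh]

theorem card_nonzero : (univ.filter fun x : ZMod p => x ≠ 0).card = p - 1 := by
  rw [filter_ne' univ (0 : ZMod p), card_erase_of_mem (mem_univ _), card_univ, ZMod.card]

theorem card_Bad_add (g : ZMod p) :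
    p - 1 ≤ (Bad p g 1).card + (Bad p g (-1)).card := by
  rw [← card_nonzero (p := p)]
  refine le_trans (card_le_card ?_) (card_union_le _ _)
  intro x hx
  have hx0 : x ≠ 0 := by simpa using hx
  by_contra hcon
  rw [mem_union, not_or] at hcon
  have h1 := good_of_notMem hx0 hcon.1
  have h2 := good_of_notMem hx0 hcon.2
  rcases ff_pm hx0 with h | h <;> rw [h] at h1 h2 <;> omega

theorem card_Bad_inv {g : ZMod p} (hg : g ≠ 0) {s : ℤ} (hs : s = 1 ∨ s = -1) :
    (Bad p g⁻¹ s).card ≤ (Bad p g s).card := by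
  rw [← card_pre (Bad p g s) (inv_ne_zero hg)]
  refine card_le_card ?_
  intro x hx
  rw [mem_Bad] at hx
  simp only [mem_filter, mem_univ, true_and, mem_Bad]
  refine ⟨mul_ne_zero (inv_ne_zero hg) hx.1, ?_⟩
  rw [mul_inv_cancel_left₀ hg]
  intro h
  apply hx.2
  rw [h]
  rcases hs with rfl | rfl <;> ring

theorem card_Bad_one : (Bad p 1 1).card = 0 := by
  rw [card_eq_zero]
  ext x
  simp [mem_Bad]

theorem bn_one : bn p 1 = 0 := by
  rw [bn, lam_one, Nat.cast_one, card_Bad_one]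

theorem bn_mul (m : ℕ) {n : ℕ} (hn : (n : ZMod p) ≠ 0) : bn p (m * n) ≤ bn p m + bn p n := by
  rw [bn, lam_mul, Nat.cast_mul]
  exact card_Bad_mul _ hn _ _

/-- a number all of whose prime factors are good is good -/
theorem bn_le_of_primes (F : ℝ) (hF : 0 ≤ F) : ∀ n : ℕ, 1 ≤ n → n < p →
    (∀ r : ℕ, r.Prime → r ∣ n → (bn p r : ℝ) ≤ F) → (bn p n : ℝ) ≤ Nat.log 2 n * F := by
  intro n
  induction n using Nat.strong_induction_on with
  | _ n ih =>
    intro h1 hn hr
    rcases eq_or_lt_of_le h1 with h | h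
    · rw [← h, bn_one]
      simp
    · obtain ⟨r, hrp, m, hm⟩ : ∃ r, r.Prime ∧ r ∣ n := Nat.exists_prime_and_dvd (by omega)
      have hm0 : 1 ≤ m := Nat.pos_of_ne_zero (by rintro rfl; omega)
      have h2 := hrp.two_le
      have hmn : m < n := by rw [hm]; nlinarith
      have h3 := ih m hmn hm0 (hmn.trans hn) fun r' hr' hd => hr r' hr' (hm ▸ hd.mul_left r)
      have h4 := hr r hrp ⟨m, hm⟩
      have h5 : bn p n ≤ bn p r + bn p m := by
        rw [hm]
        exact bn_mul r (cast_ne_zero hm0 (hmn.trans hn))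
      have h6 : Nat.log 2 m + 1 ≤ Nat.log 2 n := by
        rw [← Nat.log_mul_base (by norm_num) (by omega)]
        apply Nat.log_mono_right
        rw [hm]
        nlinarith
      have h7 : ((Nat.log 2 m : ℕ) : ℝ) + 1 ≤ (Nat.log 2 n : ℕ) := by exact_mod_cast h6
      have h8 : (bn p n : ℝ) ≤ bn p r + bn p m := by exact_mod_cast h5
      nlinarith

end

/-- the number of prime factors -/
theorem card_primeFactors_le (n : ℕ) : n.primeFactors.card ≤ Nat.log 2 n := by
  rcases Nat.eq_zero_or_pos n with rfl | hn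
  · simp
  apply Nat.le_log_of_pow_le (by norm_num)
  calc 2 ^ n.primeFactors.card = ∏ _r ∈ n.primeFactors, 2 := by simp
    _ ≤ ∏ r ∈ n.primeFactors, r :=
        prod_le_prod' fun r hr => (Nat.prime_of_mem_primeFactors hr).two_le
    _ ≤ n := Nat.le_of_dvd hn (Nat.prod_primeFactors_dvd n)

theorem nat_log_le (n : ℕ) : ((Nat.log 2 n : ℕ) : ℝ) ≤ 2 * Real.log n := by
  rcases Nat.eq_zero_or_pos n with rfl | hn
  · simp
  have h1 : (2 : ℝ) ^ Nat.log 2 n ≤ n := by exact_mod_cast Nat.pow_log_le_self 2 hn.ne'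
  have h2 := Real.log_le_log (by positivity) h1
  rw [Real.log_pow] at h2
  have h3 := Real.log_two_gt_d9
  have h4 : (0 : ℝ) ≤ Nat.log 2 n := Nat.cast_nonneg _
  nlinarith

/-- pairs (prime, cofactor) with the product in a given set of residues -/
theorem card_pairs_le {p : ℕ} [Fact p.Prime] (Q I : Finset ℕ) (hQ : ∀ q ∈ Q, q.Prime)
    (hI : ∀ m ∈ I, 1 ≤ m) (hlt : ∀ q ∈ Q, ∀ m ∈ I, q * m < p) (E : Finset (ZMod p)) :
    ((Q ×ˢ I).filter fun w => ((w.1 * w.2 : ℕ) : ZMod p) ∈ E).card ≤ Nat.log 2 p * E.card := by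
  classical
  rw [mul_comm]
  refine card_le_mul_card_image_of_maps_to (f := fun w : ℕ × ℕ => ((w.1 * w.2 : ℕ) : ZMod p))
    (fun w hw => (mem_filter.1 hw).2) _ ?_ |>.trans (le_of_eq (mul_comm _ _)) |>.trans le_rfl
  intro x _
  have hsub : ∀ w ∈ (((Q ×ˢ I).filter fun w => ((w.1 * w.2 : ℕ) : ZMod p) ∈ E).filter
      fun w => ((w.1 * w.2 : ℕ) : ZMod p) = x), w.1 * w.2 = x.val ∧ w.1 ∈ Q ∧ w.2 ∈ I := by
    intro w hw
    simp only [mem_filter, mem_product] at hw
    refine ⟨?_, hw.1.1.1, hw.1.1.2⟩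
    rw [← hw.2, ZMod.val_cast_of_lt (hlt _ hw.1.1.1 _ hw.1.1.2)]
  calc _ ≤ x.val.primeFactors.card := by
        refine card_le_card_of_injOn (fun w => w.1) ?_ ?_
        · intro w hw
          obtain ⟨h1, h2, h3⟩ := hsub w hw
          have h4 := (hQ _ h2).pos
          have h5 := hI _ h3
          simp only [coe_mem, mem_coe, Nat.mem_primeFactors]
          exact ⟨hQ _ h2, ⟨w.2, h1.symm⟩, by rw [← h1]; positivity⟩
        · intro w hw w' hw' h
          obtain ⟨h1, h2, _⟩ := hsub w hw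
          obtain ⟨h1', _, _⟩ := hsub w' hw'
          have h4 := (hQ _ h2).pos
          simp only at h
          refine Prod.ext h ?_
          rw [← h, ← h1] at h1'
          exact (Nat.eq_of_mul_eq_mul_left h4 h1').symm
    _ ≤ Nat.log 2 x.val := card_primeFactors_le _
    _ ≤ Nat.log 2 p := Nat.log_mono_right (ZMod.val_lt x).le

/-- Chebyshev lower bound, crude form -/
theorem card_primes_ge (y : ℕ) (hy : 2 ≤ y) :
    (y : ℝ) ≤ 16 * Real.log y * (((Icc 1 y).filter Nat.Prime).card : ℝ) := by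
  have hc : ((Icc 1 y).filter Nat.Prime).card = Nat.primeCounting y := by
    rw [← Nat.primesLE_card_eq_primeCounting]
    congr 1
    ext r
    simp only [mem_filter, mem_Icc, Nat.mem_primesLE]
    constructor
    · rintro ⟨⟨_, h⟩, h'⟩
      exact ⟨h, h'⟩
    · rintro ⟨h, h'⟩
      exact ⟨⟨h'.pos, h⟩, h'⟩
  rw [hc]
  have hy' : (2 : ℝ) ≤ y := by exact_mod_cast hy
  have hl2 := Real.log_two_gt_d9
  have hlog : Real.log 2 ≤ Real.log y := Real.log_le_log (by norm_num) hy'
  have hlp : 0 < Real.log y := by linarith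
  have hpi1 : (1 : ℝ) ≤ Nat.primeCounting y := by
    have : Nat.primeCounting 2 ≤ Nat.primeCounting y := Nat.monotone_primeCounting hy
    have h2 : Nat.primeCounting 2 = 1 := by decide
    exact_mod_cast h2 ▸ this
  by_cases h10 : y ≤ 10
  · have : (y : ℝ) ≤ 10 := by exact_mod_cast h10
    nlinarith
  · have h11 : (11 : ℝ) ≤ y := by exact_mod_cast (by omega : 11 ≤ y)
    have h := Chebyshev.pi_ge y
    rw [div_le_iff₀ hlp] at h
    have h3 : Real.log ((y : ℝ) + 1) ≤ ((y : ℝ) + 1) / 4 + 1 := by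
      have h4 := Real.log_le_sub_one_of_pos (x := ((y : ℝ) + 1) / 4) (by positivity)
      rw [Real.log_div (by positivity) (by norm_num)] at h4
      have h5 : Real.log 4 = 2 * Real.log 2 := by
        rw [show (4 : ℝ) = 2 ^ 2 by norm_num, Real.log_pow]; norm_num
      have h6 := Real.log_two_lt_d9
      linarith
    nlinarith

end Pool.Agent.H753Z.SG
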