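import Pool.Agent.H753Z.SG.Basic

/-! Project SG: the bootstrap. -/

set_option autoImplicit false

namespace Pool.Agent.H753Z.SG

open Finset Filter

section

variable {p : ℕ} [hp : Fact p.Prime]

theorem boot_pairs (Q I : Finset ℕ) (hQ : ∀ q ∈ Q, q.Prime)
    (hI : ∀ m ∈ I, 1 ≤ m) (hlt : ∀ q ∈ Q, ∀ m ∈ I, q * m < p) (E : Finset (ZMod p)) :
    ∑ q ∈ Q, ∑ m ∈ I, (if ((q * m : ℕ) : ZMod p) ∈ E then 1 else 0) ≤ Nat.log 2 p * E.card := by
  have h := card_pairs_le Q I hQ hI hlt E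
  rw [card_filter, sum_product] at h
  exact h

theorem boot_triples (R I : Finset ℕ) (hR : ∀ q ∈ R, q.Prime)
    (hI : ∀ m ∈ I, 1 ≤ m) (hlt : ∀ r ∈ R, ∀ s ∈ R, ∀ m ∈ I, r * (s * m) < p)
    (E : Finset (ZMod p)) :
    ∑ r ∈ R, ∑ s ∈ R, ∑ m ∈ I, (if ((r * (s * m) : ℕ) : ZMod p) ∈ E then 1 else 0) ≤
      Nat.log 2 p * (Nat.log 2 p * E.card) := by
  classical
  set J : Finset ℕ := (R ×ˢ I).image fun w => w.1 * w.2 with hJ
  have hJ1 : ∀ n ∈ J, 1 ≤ n := by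
    intro n hn
    obtain ⟨w, hw, rfl⟩ := mem_image.1 hn
    rw [mem_product] at hw
    exact Nat.mul_pos (hR _ hw.1).pos (hI _ hw.2)
  have hJ2 : ∀ r ∈ R, ∀ n ∈ J, r * n < p := by
    intro r hr n hn
    obtain ⟨w, hw, rfl⟩ := mem_image.1 hn
    rw [mem_product] at hw
    exact hlt r hr _ hw.1 _ hw.2
  have h1 : ∀ r ∈ R, ∑ s ∈ R, ∑ m ∈ I, (if ((r * (s * m) : ℕ) : ZMod p) ∈ E then 1 else 0) ≤
      Nat.log 2 p * ∑ n ∈ J, (if ((r * n : ℕ) : ZMod p) ∈ E then 1 else 0) := by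
    intro r hr
    have hr0 := (hR r hr).pos
    have h2 := boot_pairs (p := p) R I hR hI
      (fun s hs m hm => lt_of_le_of_lt (Nat.le_mul_of_pos_left _ hr0) (hlt r hr s hs m hm))
      ((J.filter fun n => ((r * n : ℕ) : ZMod p) ∈ E).image fun n : ℕ => (n : ZMod p))
    refine le_trans ?_ (h2.trans ?_)
    · refine sum_le_sum fun s hs => sum_le_sum fun m hm => ?_
      split_ifs with a b
      · exact le_rfl
      · exfalso
        apply b
        refine mem_image.2 ⟨s * m, mem_filter.2 ⟨?_, a⟩, rfl⟩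
        exact mem_image.2 ⟨(s, m), mem_product.2 ⟨hs, hm⟩, rfl⟩
      · exact Nat.zero_le _
      · exact le_rfl
    · rw [← card_filter]
      exact Nat.mul_le_mul_left _ card_image_le
  refine (sum_le_sum h1).trans ?_
  rw [← mul_sum]
  exact Nat.mul_le_mul_left _ (boot_pairs R J hR hJ1 hJ2 E)

theorem boot_key {q r s u m : ℕ} (hq : 1 ≤ q) (hr : 1 ≤ r) (hs : 1 ≤ s) (hm : 1 ≤ m)
    (h1 : q * m < p) (h2 : r * (s * m) < p)
    (h : ((r * s : ℕ) : ZMod p) * ((u * m : ℕ) : ZMod p) ∈ Bad p q (lam q)) :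
    ((q * m : ℕ) : ZMod p) ∈ Bad p ((r * s * u : ℕ) : ZMod p) (lam (r * s * u)) ∨
      ((r * (s * m) : ℕ) : ZMod p) ∈ Bad p u (lam u) := by
  by_contra hcon
  rw [not_or] at hcon
  have a1 := good_of_notMem (cast_ne_zero (Nat.mul_pos hq hm) h1) hcon.1
  have a2 := good_of_notMem (cast_ne_zero (Nat.mul_pos hr (Nat.mul_pos hs hm)) h2) hcon.2
  rw [ff_cast h1] at a1
  rw [ff_cast h2] at a2
  apply (mem_Bad.1 h).2
  rw [show (q : ZMod p) * (((r * s : ℕ) : ZMod p) * ((u * m : ℕ) : ZMod p)) =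
      ((r * s * u : ℕ) : ZMod p) * ((q * m : ℕ) : ZMod p) by push_cast; ring, a1,
    show ((r * s : ℕ) : ZMod p) * ((u * m : ℕ) : ZMod p) =
      (u : ZMod p) * ((r * (s * m) : ℕ) : ZMod p) by push_cast; ring, a2]
  simp only [lam_mul]
  ring

theorem boot_count (U : Finset ℕ) (hU : ∀ u ∈ U, 1 ≤ u ∧ u < p) (M Y y : ℕ) (hY : Y ≤ y * y)
    (hM : y * y * M < p) (hM1 : 1 ≤ M) :
    ∑ q ∈ (Icc 1 Y).filter Nat.Prime, ∑ r ∈ (Icc 1 y).filter Nat.Prime,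
      ∑ s ∈ (Icc 1 y).filter Nat.Prime, ((U ×ˢ Icc 1 M).filter fun w =>
        ((r * s : ℕ) : ZMod p) * ((w.1 * w.2 : ℕ) : ZMod p) ∈ Bad p q (lam q)).card ≤
      Nat.log 2 p * (2 * ((Icc 1 y).filter Nat.Prime).card * U.card * SB p y +
        ((Icc 1 y).filter Nat.Prime).card ^ 2 * ∑ u ∈ U, bn p u) +
      Y * (Nat.log 2 p * (Nat.log 2 p * ∑ u ∈ U, bn p u)) := by
  classical
  set Q := (Icc 1 Y).filter Nat.Prime with hQ
  set R := (Icc 1 y).filter Nat.Prime with hR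
  set w := Nat.log 2 p with hw
  have hQp : ∀ q ∈ Q, q.Prime := fun q hq => (mem_filter.1 hq).2
  have hRp : ∀ q ∈ R, q.Prime := fun q hq => (mem_filter.1 hq).2
  have hQY : ∀ q ∈ Q, q ≤ Y := fun q hq => (mem_Icc.1 (mem_filter.1 hq).1).2
  have hRy : ∀ q ∈ R, q ≤ y := fun q hq => (mem_Icc.1 (mem_filter.1 hq).1).2
  have hI : ∀ m ∈ Icc 1 M, 1 ≤ m := fun m hm => (mem_Icc.1 hm).1
  have hlt1 : ∀ q ∈ Q, ∀ m ∈ Icc 1 M, q * m < p := fun q hq m hm =>
    lt_of_le_of_lt (Nat.mul_le_mul ((hQY q hq).trans hY) (mem_Icc.1 hm).2) hM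
  have hlt2 : ∀ r ∈ R, ∀ s ∈ R, ∀ m ∈ Icc 1 M, r * (s * m) < p := fun r hr s hs m hm => by
    rw [← mul_assoc]
    exact lt_of_le_of_lt
      (Nat.mul_le_mul (Nat.mul_le_mul (hRy r hr) (hRy s hs)) (mem_Icc.1 hm).2) hM
  set A : ℕ → ℕ → ℕ → ℕ → ℕ → ℕ := fun q r s u m =>
    if ((q * m : ℕ) : ZMod p) ∈ Bad p ((r * s * u : ℕ) : ZMod p) (lam (r * s * u)) then 1 else 0
    with hA
  set B : ℕ → ℕ → ℕ → ℕ → ℕ := fun r s u m =>
    if ((r * (s * m) : ℕ) : ZMod p) ∈ Bad p u (lam u) then 1 else 0 with hB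
  have h1 : ∀ q ∈ Q, ∀ r ∈ R, ∀ s ∈ R, ((U ×ˢ Icc 1 M).filter fun w =>
        ((r * s : ℕ) : ZMod p) * ((w.1 * w.2 : ℕ) : ZMod p) ∈ Bad p q (lam q)).card ≤
      ∑ u ∈ U, ∑ m ∈ Icc 1 M, A q r s u m + ∑ u ∈ U, ∑ m ∈ Icc 1 M, B r s u m := by
    intro q hq r hr s hs
    rw [card_filter, sum_product, ← sum_add_distrib]
    refine sum_le_sum fun u _ => ?_
    rw [← sum_add_distrib]
    refine sum_le_sum fun m hm => ?_
    split_ifs with h
    · rcases boot_key (hQp q hq).pos (hRp r hr).pos (hRp s hs).pos (hI m hm) (hlt1 q hq m hm)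
        (hlt2 r hr s hs m hm) h with h' | h'
      · simp only [hA, hB, if_pos h']
        omega
      · simp only [hA, hB, if_pos h']
        omega
    · exact Nat.zero_le _
  have h2 : ∑ q ∈ Q, ∑ r ∈ R, ∑ s ∈ R, ∑ u ∈ U, ∑ m ∈ Icc 1 M, A q r s u m ≤
      w * (2 * R.card * U.card * SB p y + R.card ^ 2 * ∑ u ∈ U, bn p u) := by
    have e : ∑ q ∈ Q, ∑ r ∈ R, ∑ s ∈ R, ∑ u ∈ U, ∑ m ∈ Icc 1 M, A q r s u m =
        ∑ r ∈ R, ∑ s ∈ R, ∑ u ∈ U, ∑ q ∈ Q, ∑ m ∈ Icc 1 M, A q r s u m := by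
      rw [sum_comm]
      refine sum_congr rfl fun r _ => ?_
      rw [sum_comm]
      refine sum_congr rfl fun s _ => ?_
      rw [sum_comm]
    rw [e]
    have h3 : ∀ r ∈ R, ∀ s ∈ R, ∀ u ∈ U, ∑ q ∈ Q, ∑ m ∈ Icc 1 M, A q r s u m ≤
        w * (bn p r + bn p s + bn p u) := by
      intro r _ s hs u hu
      refine (boot_pairs Q (Icc 1 M) hQp hI hlt1 _).trans (Nat.mul_le_mul_left _ ?_)
      have hsp : s < p := by
        have := hlt2 s hs s hs M (mem_Icc.2 ⟨hM1, le_rfl⟩)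
        have h0 := (hRp s hs).pos
        exact lt_of_le_of_lt (Nat.le_mul_of_pos_right _ (Nat.mul_pos h0 hM1)) this
      have a1 := bn_mul (p := p) (r * s) (cast_ne_zero (hU u hu).1 (hU u hu).2)
      have a2 := bn_mul (p := p) r (cast_ne_zero (hRp s hs).pos hsp)
      unfold bn at a1 a2 ⊢
      omega
    refine (sum_le_sum fun r hr => sum_le_sum fun s hs => sum_le_sum (h3 r hr s hs)).trans
      (le_of_eq ?_)
    simp only [← mul_sum, sum_add_distrib, sum_const, smul_eq_mul]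
    rw [show ∑ r ∈ R, bn p r = SB p y from rfl]
    ring
  have h4 : ∑ _q ∈ Q, ∑ r ∈ R, ∑ s ∈ R, ∑ u ∈ U, ∑ m ∈ Icc 1 M, B r s u m ≤
      Y * (w * (w * ∑ u ∈ U, bn p u)) := by
    have e : ∑ r ∈ R, ∑ s ∈ R, ∑ u ∈ U, ∑ m ∈ Icc 1 M, B r s u m =
        ∑ u ∈ U, ∑ r ∈ R, ∑ s ∈ R, ∑ m ∈ Icc 1 M, B r s u m := by
      rw [sum_comm (s := U)]
      refine sum_congr rfl fun r _ => ?_
      rw [sum_comm]
    rw [sum_const, smul_eq_mul, e]
    refine Nat.mul_le_mul ?_ ?_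
    · calc Q.card ≤ (Icc 1 Y).card := card_filter_le _ _
        _ = Y := by simp
    · rw [mul_sum, mul_sum]
      exact sum_le_sum fun u _ => boot_triples R (Icc 1 M) hRp hI hlt2 _
  refine le_trans (sum_le_sum fun q hq => sum_le_sum fun r hr => sum_le_sum (h1 q hq r hr)) ?_
  simp only [sum_add_distrib]
  exact add_le_add h2 h4

end

theorem boot_num {p ρ M S Y y ε E L w : ℝ} (hp : 2 ≤ p) (hρ : 0 < ρ) (hM : 0 < M) (hS : 0 ≤ S)
    (hY : 0 ≤ Y) (hy : 0 ≤ y) (hε : 0 ≤ ε) (hεE : ε ≤ E) (hL : 1 ≤ L) (hw0 : 0 ≤ w)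
    (hw : w ≤ 2 * L) (h1 : p ≤ 8 * Y * M) (h2 : y ≤ 16 * L * ρ) (h3 : Y ≤ y * y)
    (h : ρ ^ 2 * M * (S / (p - 1) - Y * ε) ≤
      w * (2 * ρ * (E * p * y) + ρ ^ 2 * (ε * p)) + Y * (w * (w * (ε * p)))) :
    S ≤ 9000 * L ^ 4 * E * p * Y := by
  have hE : 0 ≤ E := hε.trans hεE
  have hp0 : 0 < p := by linarith
  have hSp : S / p ≤ S / (p - 1) := div_le_div_of_nonneg_left hS (by linarith) (by linarith)
  set T := ρ ^ 2 * M * (E * Y) with hT
  have hT0 : 0 ≤ T := by positivity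
  have b1 : ρ ^ 2 * M * (Y * ε) ≤ T := by
    rw [hT, mul_comm Y]
    gcongr
  have b2 : w * (2 * ρ * (E * p * y)) ≤ 512 * L ^ 2 * T := by
    calc w * (2 * ρ * (E * p * y)) ≤ (2 * L) * (2 * ρ * (E * (8 * Y * M) * (16 * L * ρ))) := by
          gcongr
      _ = _ := by rw [hT]; ring
  have b3 : w * (ρ ^ 2 * (ε * p)) ≤ 16 * L * T := by
    calc w * (ρ ^ 2 * (ε * p)) ≤ (2 * L) * (ρ ^ 2 * (E * (8 * Y * M))) := by gcongr
      _ = _ := by rw [hT]; ring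
  have b4 : Y * (w * (w * (ε * p))) ≤ 8192 * L ^ 4 * T := by
    have h4 : Y ≤ (16 * L * ρ) * (16 * L * ρ) := h3.trans (by gcongr)
    calc Y * (w * (w * (ε * p))) ≤
          ((16 * L * ρ) * (16 * L * ρ)) * ((2 * L) * ((2 * L) * (E * (8 * Y * M)))) := by gcongr
      _ = _ := by rw [hT]; ring
  have c1 : L ≤ L ^ 4 := le_self_pow₀ hL (by norm_num)
  have c2 : L ^ 2 ≤ L ^ 4 := pow_le_pow_right₀ hL (by norm_num)
  have c3 : 1 ≤ L ^ 4 := one_le_pow₀ hL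
  have h5 : ρ ^ 2 * M * (S / p) ≤ 9000 * L ^ 4 * T := by
    have d1 : ρ ^ 2 * M * (S / p) ≤ ρ ^ 2 * M * (S / (p - 1)) := by gcongr
    have d2 : L * T ≤ L ^ 4 * T := by gcongr
    have d3 : L ^ 2 * T ≤ L ^ 4 * T := by gcongr
    have d4 : T ≤ L ^ 4 * T := le_mul_of_one_le_left hT0 c3
    have d5 : 0 ≤ L ^ 4 * T := by positivity
    nlinarith
  have h6 : S / p ≤ 9000 * L ^ 4 * (E * Y) := by
    have hpos : 0 < ρ ^ 2 * M := by positivity
    refine le_of_mul_le_mul_left ?_ hpos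
    calc _ ≤ 9000 * L ^ 4 * T := h5
      _ = _ := by rw [hT]; ring
  rw [div_le_iff₀ hp0] at h6
  calc S ≤ _ := h6
    _ = _ := by ring

theorem boot_step {p : ℕ} [hp : Fact p.Prime] (h8 : (8 : ℝ) ≤ (p : ℝ) ^ (1 / 100 : ℝ))
    (hL : 1 ≤ Real.log p) (U : Finset ℕ) (hne : U.Nonempty) (hU : ∀ u ∈ U, 1 ≤ u ∧ u < p)
    (hE : Equi p U) {ε E : ℝ} (hε : (p : ℝ) ^ (-(1 / 100) : ℝ) ≤ ε) (hεE : ε ≤ E)
    (hb : ∀ u ∈ U, (bn p u : ℝ) ≤ ε * p) (Y y : ℕ) (hy2 : 2 ≤ y) (h3 : Y ≤ y * y)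
    (h4 : y * y ≤ 4 * Y) (hY : (Y : ℝ) ≤ (p : ℝ) ^ (45 / 100 : ℝ))
    (hS : (SB p y : ℝ) ≤ E * p * y) :
    (SB p Y : ℝ) ≤ 9000 * (Real.log p) ^ 4 * E * p * Y := by
  classical
  have hp2 : 2 ≤ p := hp.out.two_le
  have hp2' : (2 : ℝ) ≤ p := by exact_mod_cast hp2
  have hp0 : (0 : ℝ) < p := by linarith
  have hε0 : 0 ≤ ε := le_trans (by positivity) hε
  set M := (p - 1) / (y * y) with hM
  have hyy : 0 < y * y := by positivity
  have hM1 : y * y * M < p := lt_of_le_of_lt (Nat.mul_div_le _ _) (by omega)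
  have hM2 : p - 1 < y * y * (M + 1) := Nat.lt_mul_div_succ _ hyy
  have hyy' : ((y * y : ℕ) : ℝ) ≤ 4 * (p : ℝ) ^ (45 / 100 : ℝ) := by
    have : ((y * y : ℕ) : ℝ) ≤ 4 * (Y : ℝ) := by exact_mod_cast h4
    linarith
  have e46 : (p : ℝ) ^ (46 / 100 : ℝ) = (p : ℝ) ^ (45 / 100 : ℝ) * (p : ℝ) ^ (1 / 100 : ℝ) := by
    rw [← Real.rpow_add hp0]; norm_num
  have e1 : (p : ℝ) = (p : ℝ) ^ (46 / 100 : ℝ) * (p : ℝ) ^ (54 / 100 : ℝ) := by
    rw [← Real.rpow_add hp0]; norm_num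
  have h45 : 0 < (p : ℝ) ^ (45 / 100 : ℝ) := by positivity
  have h54 : 1 ≤ (p : ℝ) ^ (54 / 100 : ℝ) := Real.one_le_rpow (by linarith) (by norm_num)
  have h46 : 2 * ((y * y : ℕ) : ℝ) ≤ (p : ℝ) ^ (46 / 100 : ℝ) := by
    rw [e46]; nlinarith
  have h46' : 0 < (p : ℝ) ^ (46 / 100 : ℝ) := by positivity
  have hyp : 2 * (y * y) ≤ p := by
    have : 2 * ((y * y : ℕ) : ℝ) ≤ p := by nlinarith
    exact_mod_cast this
  have hpM : p ≤ 2 * (y * y * M) := by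
    have : y * y * (M + 1) = y * y * M + y * y := by ring
    omega
  have hMpos : 1 ≤ M := by
    rcases Nat.eq_zero_or_pos M with h | h
    · rw [h] at hpM; omega
    · exact h
  have hMp : M < p := lt_of_le_of_lt (Nat.le_mul_of_pos_left _ hyy) hM1
  have hpM' : (p : ℝ) ≤ 2 * (((y * y : ℕ) : ℝ) * M) := by exact_mod_cast hpM
  have hM0 : (0 : ℝ) < M := by exact_mod_cast hMpos
  have hM54 : (p : ℝ) ^ (54 / 100 : ℝ) ≤ M := by
    refine le_of_mul_le_mul_left ?_ h46'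
    rw [← e1]
    nlinarith
  clear e1 e46
  set Q := (Icc 1 Y).filter Nat.Prime with hQ
  set R := (Icc 1 y).filter Nat.Prime with hR
  have hcount := boot_count U hU M Y y h3 hM1 hMpos
  rw [← hQ, ← hR] at hcount
  have hUc : (0 : ℝ) < U.card := by exact_mod_cast hne.card_pos
  have hRc : (0 : ℝ) < R.card := by
    have : R.Nonempty := ⟨2, mem_filter.2 ⟨mem_Icc.2 ⟨by norm_num, hy2⟩, Nat.prime_two⟩⟩
    exact_mod_cast this.card_pos
  have hyp' : y < p := by nlinarith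
  have hlow : ∀ q ∈ Q, ∀ r ∈ R, ∀ s ∈ R,
      (U.card : ℝ) * M * ((bn p q : ℝ) / ((p : ℝ) - 1) - ε) ≤
      (((U ×ˢ Icc 1 M).filter fun w =>
        ((r * s : ℕ) : ZMod p) * ((w.1 * w.2 : ℕ) : ZMod p) ∈ Bad p q (lam q)).card : ℝ) := by
    intro q _ r hr s hs
    have hr' := mem_Icc.1 (mem_filter.1 hr).1
    have hs' := mem_Icc.1 (mem_filter.1 hs).1
    have h0 : ((r * s : ℕ) : ZMod p) ≠ 0 := by
      rw [Nat.cast_mul]
      exact mul_ne_zero (cast_ne_zero hr'.1 (by omega)) (cast_ne_zero hs'.1 (by omega))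
    have h5 := hE M hM54 hMp (univ.filter fun x => ((r * s : ℕ) : ZMod p) * x ∈ Bad p q (lam q))
      (by simp [zero_notMem_Bad])
    rw [card_pre _ h0] at h5
    simp only [mem_filter, mem_univ, true_and] at h5
    refine le_trans ?_ h5
    unfold bn
    gcongr
  have hsum : (R.card : ℝ) ^ 2 * (U.card * M) * ((SB p Y : ℝ) / ((p : ℝ) - 1) - Y * ε) ≤
      ∑ q ∈ Q, ∑ r ∈ R, ∑ s ∈ R, (U.card : ℝ) * M * ((bn p q : ℝ) / ((p : ℝ) - 1) - ε) := by
    simp only [sum_const, nsmul_eq_mul]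
    simp only [← mul_sum]
    rw [sum_sub_distrib, ← sum_div, sum_const, nsmul_eq_mul]
    have hQc : (Q.card : ℝ) ≤ Y := by
      have : Q.card ≤ Y := (card_filter_le _ _).trans (by simp)
      exact_mod_cast this
    have e : (SB p Y : ℝ) = ∑ q ∈ Q, (bn p q : ℝ) := by rw [SB]; push_cast; rfl
    rw [← e]
    calc _ ≤ (R.card : ℝ) ^ 2 * (U.card * M) * ((SB p Y : ℝ) / ((p : ℝ) - 1) - Q.card * ε) := by
          gcongr
      _ = _ := by ring
  have hbU : ((∑ u ∈ U, bn p u : ℕ) : ℝ) ≤ U.card * (ε * p) := by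
    push_cast
    calc ∑ u ∈ U, (bn p u : ℝ) ≤ ∑ _u ∈ U, ε * p := sum_le_sum hb
      _ = _ := by rw [sum_const, nsmul_eq_mul]
  have hmain : (R.card : ℝ) ^ 2 * (U.card * M) * ((SB p Y : ℝ) / ((p : ℝ) - 1) - Y * ε) ≤
      (Nat.log 2 p : ℝ) * (2 * R.card * U.card * (E * p * y) + R.card ^ 2 * (U.card * (ε * p))) +
      Y * ((Nat.log 2 p : ℝ) * ((Nat.log 2 p : ℝ) * (U.card * (ε * p)))) := by
    refine hsum.trans ((sum_le_sum fun q hq => sum_le_sum fun r hr =>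
      sum_le_sum (hlow q hq r hr)).trans ?_)
    have h6 : ((∑ q ∈ Q, ∑ r ∈ R, ∑ s ∈ R, ((U ×ˢ Icc 1 M).filter fun w =>
        ((r * s : ℕ) : ZMod p) * ((w.1 * w.2 : ℕ) : ZMod p) ∈ Bad p q (lam q)).card : ℕ) : ℝ) ≤
      ((Nat.log 2 p * (2 * R.card * U.card * SB p y + R.card ^ 2 * ∑ u ∈ U, bn p u) +
      Y * (Nat.log 2 p * (Nat.log 2 p * ∑ u ∈ U, bn p u)) : ℕ) : ℝ) := by exact_mod_cast hcount
    rw [Nat.cast_sum] at h6
    simp only [Nat.cast_sum (s := R)] at h6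
    refine h6.trans ?_
    rw [Nat.cast_add, Nat.cast_mul, Nat.cast_mul, Nat.cast_mul, Nat.cast_mul, Nat.cast_add,
      Nat.cast_mul, Nat.cast_mul, Nat.cast_mul, Nat.cast_mul, Nat.cast_pow, Nat.cast_ofNat]
    gcongr
  have hy16 : (y : ℝ) ≤ 16 * Real.log p * R.card := by
    refine (card_primes_ge y hy2).trans ?_
    have h7 : Real.log y ≤ Real.log p :=
      Real.log_le_log (by exact_mod_cast (by omega : 0 < y)) (by exact_mod_cast hyp'.le)
    gcongr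
  refine boot_num (M := M) (ρ := R.card) (y := y) (ε := ε) (w := Nat.log 2 p) hp2' hRc hM0
    (Nat.cast_nonneg _) (Nat.cast_nonneg _) (Nat.cast_nonneg _) hε0 hεE hL (Nat.cast_nonneg _)
    (nat_log_le p) ?_ hy16 (by exact_mod_cast h3) ?_
  · have : ((y * y : ℕ) : ℝ) ≤ 4 * (Y : ℝ) := by exact_mod_cast h4
    nlinarith
  · refine le_of_mul_le_mul_left ?_ hUc
    calc _ = (R.card : ℝ) ^ 2 * (U.card * M) * ((SB p Y : ℝ) / ((p : ℝ) - 1) - Y * ε) := by ring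
      _ ≤ _ := hmain
      _ = _ := by ring

theorem boot : BOOT := by
  refine ⟨20, ?_⟩
  have t1 : Tendsto (fun p : ℕ => (p : ℝ) ^ (1 / 100 : ℝ)) atTop atTop :=
    (tendsto_rpow_atTop (by norm_num)).comp tendsto_natCast_atTop_atTop
  have t2 : Tendsto (fun p : ℕ => Real.log p) atTop atTop :=
    Real.tendsto_log_atTop.comp tendsto_natCast_atTop_atTop
  have t3 : Tendsto (fun p : ℕ => Real.log (Real.log p)) atTop atTop :=
    Real.tendsto_log_atTop.comp t2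
  filter_upwards [t1.eventually_ge_atTop 8, t2.eventually_ge_atTop 9000,
    t3.eventually_ge_atTop 2] with p h8 hL hll
  intro hp U hne hU hE ε hε hb hb2
  have hp2 : 2 ≤ p := hp.out.two_le
  have hp2' : (2 : ℝ) ≤ p := by exact_mod_cast hp2
  have hp0 : (0 : ℝ) < p := by linarith
  have hε0 : 0 ≤ ε := le_trans (by positivity) hε
  set L := Real.log p with hLdef
  set K : ℝ := 9000 * L ^ 4 with hK
  have hL1 : 1 ≤ L := by linarith
  have hK1 : 1 ≤ K := by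
    have : 1 ≤ L ^ 4 := one_le_pow₀ hL1
    linarith
  have hsmall : ∀ Y : ℕ, Y ≤ 2 → (SB p Y : ℝ) ≤ ε * p * Y := by
    intro Y hY
    rcases eq_or_lt_of_le hY with h | h
    · subst h
      have : SB p 2 = bn p 2 := by
        rw [SB, show (Icc 1 2).filter Nat.Prime = {2} by decide, sum_singleton]
      rw [this]
      have : 0 ≤ ε * p := by positivity
      push_cast
      linarith
    · have : (Icc 1 Y).filter Nat.Prime = ∅ := by
        rw [filter_eq_empty_iff]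
        intro r hr hrp
        have := hrp.two_le
        have := (mem_Icc.1 hr).2
        omega
      rw [SB, this, sum_empty, Nat.cast_zero]
      positivity
  have hind : ∀ t : ℕ, ∀ Y : ℕ, Y ≤ 2 ^ 2 ^ t → (Y : ℝ) ≤ (p : ℝ) ^ (45 / 100 : ℝ) →
      (SB p Y : ℝ) ≤ (ε * K ^ t) * p * Y := by
    intro t
    induction t with
    | zero =>
      intro Y hY _
      simpa using hsmall Y (by simpa using hY)
    | succ t ih =>
      intro Y hY hY'
      have hKt : ∀ n : ℕ, ε ≤ ε * K ^ n := fun n =>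
        le_mul_of_one_le_right hε0 (one_le_pow₀ hK1)
      by_cases h2 : Y ≤ 2
      · refine (hsmall Y h2).trans ?_
        have := hKt (t + 1)
        gcongr
      set y := Nat.sqrt (Y - 1) + 1 with hy
      have s1 : Nat.sqrt (Y - 1) * Nat.sqrt (Y - 1) ≤ Y - 1 := Nat.sqrt_le _
      have s2 : Y - 1 < y * y := Nat.lt_succ_sqrt _
      have s3 : 1 ≤ Nat.sqrt (Y - 1) := Nat.le_sqrt.2 (by omega)
      have s4 : y * y ≤ 4 * Y := by
        have : y ≤ 2 * Nat.sqrt (Y - 1) := by omega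
        have h5 : y * y ≤ (2 * Nat.sqrt (Y - 1)) * (2 * Nat.sqrt (Y - 1)) := Nat.mul_le_mul this this
        have h6 : (2 * Nat.sqrt (Y - 1)) * (2 * Nat.sqrt (Y - 1)) =
            4 * (Nat.sqrt (Y - 1) * Nat.sqrt (Y - 1)) := by ring
        omega
      have s5 : y ≤ 2 ^ 2 ^ t := by
        have : Nat.sqrt (Y - 1) < 2 ^ 2 ^ t := by
          rw [Nat.sqrt_lt, ← pow_add, ← two_mul, ← pow_succ']
          omega
        omega
      have s6 : y ≤ Y := by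
        have := Nat.sqrt_le_self (Y - 1)
        omega
      have h7 := ih y s5 (le_trans (by exact_mod_cast s6) hY')
      have h9 := boot_step h8 hL1 U hne hU hE hε (hKt t) hb Y y (by omega) (by omega) s4 hY' h7
      refine h9.trans (le_of_eq ?_)
      rw [hK, pow_succ]
      ring
  intro Y hY
  set t := Nat.log 2 (Nat.log 2 p + 1) + 1 with ht
  have hYp : Y ≤ p := by
    have : (p : ℝ) ^ (45 / 100 : ℝ) ≤ (p : ℝ) ^ (1 : ℝ) :=
      Real.rpow_le_rpow_of_exponent_le (by linarith) (by norm_num)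
    rw [Real.rpow_one] at this
    exact_mod_cast hY.trans this
  have h1 : Y ≤ 2 ^ 2 ^ t := by
    have a1 : p < 2 ^ (Nat.log 2 p + 1) := Nat.lt_pow_succ_log_self (by norm_num) p
    have a2 : Nat.log 2 p + 1 < 2 ^ t := Nat.lt_pow_succ_log_self (by norm_num) _
    have a3 : 2 ^ (Nat.log 2 p + 1) ≤ 2 ^ 2 ^ t := Nat.pow_le_pow_right (by norm_num) a2.le
    omega
  refine (hind t Y h1 hY).trans ?_
  have ht4 : (t : ℝ) ≤ 4 * Real.log L := by
    have a1 := nat_log_le (Nat.log 2 p + 1)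
    have a2 := nat_log_le p
    have a3 : Real.log ((Nat.log 2 p + 1 : ℕ) : ℝ) ≤ Real.log (3 * L) := by
      apply Real.log_le_log (by positivity)
      push_cast
      linarith
    rw [Real.log_mul (by norm_num) (by linarith)] at a3
    have a4 : Real.log 3 ≤ 3 / 2 := by
      rw [Real.log_le_iff_le_exp (by norm_num)]
      have b1 := Real.add_one_le_exp (1 / 2 : ℝ)
      have b2 := Real.exp_one_gt_d9
      rw [show (3 / 2 : ℝ) = 1 + 1 / 2 by norm_num, Real.exp_add]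
      nlinarith
    rw [ht]
    push_cast at a1 a3 ⊢
    linarith
  have hKe : K ≤ Real.exp (5 * Real.log L) := by
    rw [show (5 : ℝ) * Real.log L = (5 : ℕ) * Real.log L by norm_num, Real.exp_nat_mul,
      Real.exp_log (by linarith), hK, pow_succ L 4, mul_comm (L ^ 4)]
    gcongr
  have hKt : K ^ t ≤ Real.exp (((20 : ℕ) : ℝ) * (Real.log L) ^ 2) := by
    calc K ^ t ≤ (Real.exp (5 * Real.log L)) ^ t := by gcongr
      _ = Real.exp (t * (5 * Real.log L)) := by rw [Real.exp_nat_mul]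
      _ ≤ _ := by
          apply Real.exp_le_exp.2
          push_cast
          nlinarith
  gcongr

end Pool.Agent.H753Z.SG
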