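import Pool.Agent.H753Z.SG.Defs
import Pool.Agent.H471R4.BW.BFM
import Pool.Agent.H471R4.BW.BIN
import Pool.Agent.H471R4.BW.MOM
import Pool.Agent.H471R4.BW.TUP
import Pool.Agent.H471R4.BW.NU1
import Pool.Agent.H471R4.BW.NU2b
import Pool.Agent.H471R4.BW.SHF
import Pool.Agent.H471R4.BW.HOL
import Pool.Agent.H471R4.BW.CS0
import Pool.Agent.H471R4.BW.CS1
import Pool.Agent.H379R2.W.JChar

/-! Task BUR: the Burgess bound with a power saving. -/

set_option autoImplicit false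

namespace Pool.Agent.H753Z.SG

open Finset Filter Pool.Agent.H471R4.BW

theorem bur_core (h : BIN) (δ η κ : ℝ) (K : ℕ → ℝ) (hδ : 0 < δ) (hδ1 : δ ≤ 1)
    (hη : 0 < η) (hK : ∀ r, 0 ≤ K r) (r : ℕ) (hr : 1 ≤ r) (hrη : 1 / (2 * (r : ℝ)) ≤ η)
    (N : ℕ) (hN3 : (3 : ℝ) ≤ N)
    (ha : 2 * (N : ℝ) ^ (1 / (2 * (r : ℝ))) ≤ (N : ℝ) ^ κ)
    (hb : 200 ≤ δ * (N : ℝ) ^ (1 / 4 : ℝ) / 32)
    (hc : 8 * (Real.log N) ^ 2 ≤ δ * (N : ℝ) ^ (1 / 4 : ℝ) / 32)
    (hd : 3 * ((r : ℝ) ^ (2 * r) + K r) * 128 * Real.log N ≤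
      ((δ / 2) ^ (2 * r) * δ) * (N : ℝ) ^ η)
    [NeZero N] (χ : DirichletCharacter ℂ N) (hF : Fam κ K N χ) (X : ℕ)
    (hX1 : (N : ℝ) ^ (1 / 4 + η) ≤ X) (hX2 : (X : ℝ) * X ≤ N * (N : ℝ) ^ (1 / (2 * (r : ℝ)))) :
    ‖shortSum N χ X‖ ≤ δ * X := by
  have hNpos : (0 : ℝ) < N := by linarith
  have hN1 : (1 : ℝ) ≤ N := by linarith
  have hr' : (1 : ℝ) ≤ r := by exact_mod_cast hr
  set s : ℝ := 1 / (2 * (r : ℝ)) with hs
  have hs0 : 0 < s := by positivity
  have hNs1 : 1 ≤ (N : ℝ) ^ s := Real.one_le_rpow hN1 hs0.le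
  set B : ℕ := ⌈(N : ℝ) ^ s⌉₊ with hB
  have hB1 : (N : ℝ) ^ s ≤ B := Nat.le_ceil _
  have hB2 : (B : ℝ) ≤ 2 * (N : ℝ) ^ s := by
    have := (Nat.ceil_lt_add_one (by linarith : (0 : ℝ) ≤ (N : ℝ) ^ s)).le
    linarith
  have hBone : (1 : ℝ) ≤ B := hNs1.trans hB1
  have hBpos : (0 : ℝ) < B := by linarith
  have hX0 : (1 : ℝ) ≤ X := by
    refine le_trans ?_ hX1
    exact Real.one_le_rpow hN1 (by linarith)
  have hXpos : (0 : ℝ) < X := by linarith
  set M : ℕ := ⌊δ * X / (8 * B)⌋₊ with hM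
  have hM1 : (M : ℝ) ≤ δ * X / (8 * B) := Nat.floor_le (by positivity)
  have hM2 : δ * X / (8 * B) - 1 < M := Nat.sub_one_lt_floor _
  -- lower bound for `X / B`
  have hq : (N : ℝ) ^ (1 / 4 : ℝ) * B ≤ 2 * X := by
    have e1 : (N : ℝ) ^ (1 / 4 : ℝ) * (N : ℝ) ^ s ≤ (N : ℝ) ^ (1 / 4 + η) := by
      rw [← Real.rpow_add hNpos]
      exact Real.rpow_le_rpow_of_exponent_le hN1 (by linarith)
    have e2 : 0 ≤ (N : ℝ) ^ (1 / 4 : ℝ) := Real.rpow_nonneg hNpos.le _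
    nlinarith
  have hM3 : δ * (N : ℝ) ^ (1 / 4 : ℝ) / 16 ≤ δ * X / (8 * B) := by
    rw [div_le_div_iff₀ (by norm_num) (by positivity)]
    nlinarith
  have hM4 : δ * (N : ℝ) ^ (1 / 4 : ℝ) / 32 ≤ M := by linarith
  have hM200 : 200 ≤ M := by exact_mod_cast hb.trans hM4
  have hXX : (X : ℝ) * X ≤ N * B := hX2.trans (mul_le_mul_of_nonneg_left hB1 hNpos.le)
  have hMX : (M : ℝ) * (8 * B) ≤ δ * X := by
    rwa [le_div_iff₀ (by positivity)] at hM1
  have hMXN : M * X < N := by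
    have e1 : (M : ℝ) * (8 * B) ≤ X := hMX.trans (by nlinarith)
    have e2 : (M : ℝ) * (8 * B) * X ≤ X * X := mul_le_mul_of_nonneg_right e1 hXpos.le
    have e3 : (8 * ((M : ℝ) * X)) * B ≤ N * B := by nlinarith
    have e4 : 8 * ((M : ℝ) * X) ≤ N := le_of_mul_le_mul_right e3 hBpos
    have : (M : ℝ) * X < N := by linarith
    exact_mod_cast this
  have hMN : M ≤ N := by
    have h1 : M ≤ M * X := Nat.le_mul_of_pos_right M (by exact_mod_cast hXpos)
    omega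
  have hcard := bfm_count M N hM200 hMN (hc.trans hM4)
  have hL : 0 < Real.log N := Real.log_pos (by linarith)
  have hMpos : (0 : ℝ) < M := by
    have : (200 : ℝ) ≤ M := by exact_mod_cast hM200
    linarith
  have hcardpos : (0 : ℝ) < (bfmA M N).card := lt_of_lt_of_le (by positivity) hcard
  have hne : (bfmA M N).Nonempty := by
    rw [← card_pos]
    exact_mod_cast hcardpos
  have hBr : Real.sqrt N ≤ (B : ℝ) ^ r := by
    have e1 : ((N : ℝ) ^ s) ^ r = Real.sqrt N := by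
      rw [Real.sqrt_eq_rpow, ← Real.rpow_natCast, ← Real.rpow_mul hNpos.le, hs]
      congr 1
      field_simp
    rw [← e1]
    exact pow_le_pow_left₀ (by linarith) hB1 r
  have hmain := h N χ (bfmA M N) X M B r (K r) hr (hK r) (by exact_mod_cast hBone)
    (by exact_mod_cast hX0) hne (fun a ha => (mem_filter.1 ha).2.1)
    (fun a ha => (mem_filter.1 ha).2.2)
    (fun a ha => Nat.lt_succ_iff.1 (mem_range.1 (mem_filter.1 ha).1)) hMXN hBr
    (hF r B hr (hB2.trans ha))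
  -- the second term
  have hAX : δ * ((N : ℝ) ^ η * Real.sqrt N) / (128 * Real.log N) ≤ (bfmA M N).card * X := by
    have e1 : (N : ℝ) ^ (1 / 4 : ℝ) * (N : ℝ) ^ (1 / 4 + η) = (N : ℝ) ^ η * Real.sqrt N := by
      rw [Real.sqrt_eq_rpow, ← Real.rpow_add hNpos, ← Real.rpow_add hNpos]
      congr 1
      ring
    rw [← e1]
    have e2 : δ * (N : ℝ) ^ (1 / 4 : ℝ) / (128 * Real.log N) ≤ (bfmA M N).card := by
      refine le_trans ?_ hcard
      rw [div_le_div_iff₀ (by positivity) (by positivity)]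
      nlinarith
    have e3 : 0 ≤ (N : ℝ) ^ (1 / 4 + η) := Real.rpow_nonneg hNpos.le _
    calc δ * ((N : ℝ) ^ (1 / 4 : ℝ) * (N : ℝ) ^ (1 / 4 + η)) / (128 * Real.log N)
        = (δ * (N : ℝ) ^ (1 / 4 : ℝ) / (128 * Real.log N)) * (N : ℝ) ^ (1 / 4 + η) := by ring
      _ ≤ (bfmA M N).card * X := mul_le_mul e2 hX1 e3 hcardpos.le
  have hsq : 0 < Real.sqrt N := Real.sqrt_pos.2 hNpos
  have hNη : 0 < (N : ℝ) ^ η := Real.rpow_pos_of_pos hNpos _
  have hKr := hK r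
  have hQ : 3 * ((r : ℝ) ^ (2 * r) + K r) * Real.sqrt N / ((bfmA M N).card * X) ≤
      (δ / 2) ^ (2 * r) := by
    rw [div_le_iff₀ (by positivity)]
    have e1 : 3 * ((r : ℝ) ^ (2 * r) + K r) * Real.sqrt N ≤
        (δ / 2) ^ (2 * r) * (δ * ((N : ℝ) ^ η * Real.sqrt N) / (128 * Real.log N)) := by
      rw [mul_div_assoc', le_div_iff₀ (by positivity)]
      have := mul_le_mul_of_nonneg_right hd hsq.le
      nlinarith
    exact e1.trans (mul_le_mul_of_nonneg_left hAX (by positivity))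
  have hQ0 : 0 ≤ 3 * ((r : ℝ) ^ (2 * r) + K r) * Real.sqrt N / ((bfmA M N).card * X) := by
    positivity
  have hroot : (3 * ((r : ℝ) ^ (2 * r) + K r) * Real.sqrt N / ((bfmA M N).card * X)) ^
      (1 / (2 * r : ℝ)) ≤ δ / 2 := by
    calc (3 * ((r : ℝ) ^ (2 * r) + K r) * Real.sqrt N / ((bfmA M N).card * X)) ^
      (1 / (2 * r : ℝ)) ≤ ((δ / 2) ^ (2 * r)) ^ (1 / (2 * r : ℝ)) :=
          Real.rpow_le_rpow hQ0 hQ (by positivity)
      _ = δ / 2 := by
          rw [← Real.rpow_natCast, ← Real.rpow_mul (by positivity)]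
          have : ((2 * r : ℕ) : ℝ) * (1 / (2 * r : ℝ)) = 1 := by
            push_cast
            field_simp
          rw [this, Real.rpow_one]
  have hfirst : 2 * (M : ℝ) * B ≤ δ * X / 4 := by linarith
  calc ‖shortSum N χ X‖ ≤ _ := hmain
    _ ≤ δ * X / 4 + X * (δ / 2) := add_le_add hfirst (mul_le_mul_of_nonneg_left hroot hXpos.le)
    _ ≤ δ * X := by nlinarith

theorem bur_log (C a : ℝ) (ha : 0 < a) : ∀ᶠ x : ℝ in atTop, C * Real.log x ^ 2 ≤ x ^ a := by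
  have h1 := isLittleO_log_rpow_rpow_atTop (s := a) 2 ha
  have h2 := h1.def (c := 1 / (|C| + 1)) (by positivity)
  filter_upwards [h2, eventually_ge_atTop 1] with x h3 h4
  have h5 : 0 ≤ Real.log x := Real.log_nonneg h4
  rw [Real.norm_of_nonneg (by positivity), Real.norm_of_nonneg (by positivity)] at h3
  have h6 : Real.log x ^ (2 : ℝ) = Real.log x ^ 2 := by norm_cast
  rw [h6, div_mul_eq_mul_div, one_mul, le_div_iff₀ (by positivity)] at h3
  have h7 := le_abs_self C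
  nlinarith [sq_nonneg (Real.log x)]

theorem bur : BUR := by
  refine ⟨1 / 1000, by norm_num, ?_⟩
  have hbin : BIN := bin (mom tup) nu1 nu2b shf hol
  have hK : ∀ r, 0 ≤ KR r := fun r => by unfold KR; positivity
  filter_upwards [tendsto_natCast_atTop_atTop.eventually (eventually_ge_atTop (3 : ℝ)),
    tendsto_natCast_atTop_atTop.eventually (bur_log 6400 (249 / 1000) (by norm_num)),
    tendsto_natCast_atTop_atTop.eventually (bur_log 2 (19 / 20) (by norm_num)),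
    tendsto_natCast_atTop_atTop.eventually
      (bur_log (3 * ((10 : ℝ) ^ 20 + KR 10) * 128 * 2 ^ 20) (29 / 1000) (by norm_num)),
    tendsto_natCast_atTop_atTop.eventually (bur_log 8 (24 / 1000) (by norm_num))]
    with p h3 h4 h5 h6 h7 hp X hX
  have hpos : (0 : ℝ) < p := by linarith
  have hp1 : (1 : ℝ) ≤ p := by linarith
  have hL : 1 ≤ Real.log p := by
    rw [Real.le_log_iff_exp_le hpos]
    linarith [Real.exp_one_lt_d9]
  have hL2 : Real.log p ≤ Real.log p ^ 2 := by nlinarith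
  have hp2 : p ≠ 2 := by
    rintro rfl
    norm_num at h3
  have : NeZero p := ⟨hp.ne_zero⟩
  by_cases hc : (X : ℝ) * X ≤ p * (p : ℝ) ^ (1 / (2 * ((10 : ℕ) : ℝ)))
  · have e1 : (p : ℝ) ^ (-(1 / 1000) : ℝ) * (p : ℝ) ^ (1 / 4 : ℝ) = (p : ℝ) ^ (249 / 1000 : ℝ) := by
      rw [← Real.rpow_add hpos]
      norm_num
    have := bur_core hbin ((p : ℝ) ^ (-(1 / 1000) : ℝ)) (1 / 20) 1 KR (by positivity)
      (Real.rpow_le_one_of_one_le_of_nonpos hp1 (by norm_num)) (by norm_num) hK 10 (by norm_num)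
      (by norm_num) p h3 ?_ ?_ ?_ ?_ (jchar p) (cs1 cs0 1 p hp hp2 le_rfl) X ?_ hc
    · have h8 : shortSum p (jchar p) X = ((∑ n ∈ Icc 1 X, chi p n : ℤ) : ℂ) := by
        unfold shortSum chi
        push_cast
        exact sum_congr rfl fun n _ => jchar_apply p n
      rw [h8, Complex.norm_intCast, mul_comm] at this
      exact this
    · have e2 : (p : ℝ) ^ (1 : ℝ) =
          (p : ℝ) ^ (19 / 20 : ℝ) * (p : ℝ) ^ (1 / (2 * ((10 : ℕ) : ℝ))) := by
        rw [← Real.rpow_add hpos]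
        norm_num
      rw [e2]
      exact mul_le_mul_of_nonneg_right (by linarith) (by positivity)
    · rw [e1]
      linarith
    · rw [e1]
      linarith
    · have e2 : ((p : ℝ) ^ (-(1 / 1000) : ℝ) / 2) ^ (2 * 10) * (p : ℝ) ^ (-(1 / 1000) : ℝ) *
          (p : ℝ) ^ (1 / 20 : ℝ) = (p : ℝ) ^ (29 / 1000 : ℝ) / 2 ^ 20 := by
        rw [div_pow, ← Real.rpow_natCast, ← Real.rpow_mul hpos.le, div_mul_eq_mul_div,
          div_mul_eq_mul_div, ← Real.rpow_add hpos, ← Real.rpow_add hpos]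
        norm_num
      rw [e2, le_div_iff₀ (by positivity)]
      refine le_trans ?_ h6
      have := hK 10
      have e3 : 0 ≤ 3 * ((10 : ℝ) ^ 20 + KR 10) * 128 * 2 ^ 20 := by positivity
      have := mul_le_mul_of_nonneg_left hL2 e3
      push_cast
      linarith
    · convert hX using 2
      norm_num
  · have : Fact p.Prime := ⟨hp⟩
    have hne : ∃ a : ℕ, jacobiSym (a : ℤ) p = -1 := by
      obtain ⟨a, ha⟩ := quadraticChar_exists_neg_one (F := ZMod p) (by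
        rw [ZMod.ringChar_zmod_n]; exact hp2)
      refine ⟨a.val, ?_⟩
      rw [← jacobiSym.legendreSym.to_jacobiSym, legendreSym]
      simpa using ha
    have h8 := H379R2.W.jacobi_sum_le p hp.one_le hne X
    rw [hp.divisors, card_pair hp.one_lt.ne] at h8
    refine h8.trans ?_
    have h9 : (p : ℝ) ^ (21 / 40 : ℝ) ≤ X := by
      refine le_of_sq_le_sq ?_ (Nat.cast_nonneg _) |>.trans le_rfl
      have e1 : ((p : ℝ) ^ (21 / 40 : ℝ)) ^ 2 = p * (p : ℝ) ^ (1 / (2 * ((10 : ℕ) : ℝ))) := by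
        rw [← Real.rpow_natCast, ← Real.rpow_mul hpos.le, ← Real.rpow_one_add' hpos.le (by norm_num)]
        norm_num
      rw [e1, sq]
      exact (not_le.1 hc).le
    have e2 : (p : ℝ) ^ (21 / 40 : ℝ) * (p : ℝ) ^ (-(1 / 1000) : ℝ) =
        Real.sqrt p * (p : ℝ) ^ (24 / 1000 : ℝ) := by
      rw [Real.sqrt_eq_rpow, ← Real.rpow_add hpos, ← Real.rpow_add hpos]
      norm_num
    refine le_trans ?_ (mul_le_mul_of_nonneg_right h9 (by positivity))
    rw [e2]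
    have h10 : 4 * (1 + Real.log p) ≤ (p : ℝ) ^ (24 / 1000 : ℝ) := by linarith
    have := mul_le_mul_of_nonneg_left h10 (Real.sqrt_nonneg p)
    push_cast
    linarith

end Pool.Agent.H753Z.SG
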