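import Mathlib

/-!
Project SG: every large even integer is a sum of two integers with an odd number of prime factors.
Definitions and the statements of the tasks.
-/

set_option autoImplicit false

namespace Pool.Agent.H753Z.SG

open Finset Filter

/-- the Liouville function -/
abbrev lam (n : ℕ) : ℤ := ArithmeticFunction.liouville n

/-- the Jacobi symbol of `n` modulo `p` -/
def chi (p n : ℕ) : ℤ := jacobiSym (n : ℤ) p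

/-- the Liouville function of the least residue -/
def ff (p : ℕ) (x : ZMod p) : ℤ := lam x.val

/-- the nonzero `x` with `ff (g x) ≠ s * ff x` -/
def Bad (p : ℕ) [NeZero p] (g : ZMod p) (s : ℤ) : Finset (ZMod p) :=
  univ.filter fun x => x ≠ 0 ∧ ff p (g * x) ≠ s * ff p x

/-- the number of nonzero `x` with `ff (n x) ≠ lam n * ff x` -/
def bn (p : ℕ) [NeZero p] (n : ℕ) : ℕ := (Bad p (n : ZMod p) (lam n)).card

/-- the failures of periodicity -/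
def Dset (p : ℕ) : Finset ℕ := (Ico 1 p).filter fun n => lam (n + p) ≠ lam n

/-- the sum of `bn` over the primes up to `Y` -/
def SB (p : ℕ) [NeZero p] (Y : ℕ) : ℕ := ∑ r ∈ (Icc 1 Y).filter Nat.Prime, bn p r

/-- the products `u * m` with `u ∈ U`, `1 ≤ m ≤ M` hit every set of nonzero residues -/
def Equi (p : ℕ) [NeZero p] (U : Finset ℕ) : Prop :=
  ∀ M : ℕ, (p : ℝ) ^ (54 / 100 : ℝ) ≤ M → M < p → ∀ E : Finset (ZMod p), (0 : ZMod p) ∉ E →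
    (U.card : ℝ) * M * ((E.card : ℝ) / ((p : ℝ) - 1) - (p : ℝ) ^ (-(1 / 100) : ℝ)) ≤
      (((U ×ˢ Icc 1 M).filter fun w => ((w.1 * w.2 : ℕ) : ZMod p) ∈ E).card : ℝ)

/-- the Liouville function pretends to be the Legendre symbol modulo `p` -/
def Pret (p : ℕ) : Prop :=
  p % 4 = 3 ∧
  ((((Ico 1 (2 * p)).filter fun n => n ≠ p ∧ lam n ≠ chi p n).card : ℝ) ≤
    p / (Real.log p) ^ 8) ∧
  ∀ Y : ℕ, (Y : ℝ) ≤ (p : ℝ) ^ (1 / 3 : ℝ) →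
    ((((Icc 1 Y).filter fun r => r.Prime ∧ chi p r ≠ -1).card : ℝ) ≤ Y / (Real.log p) ^ 8)

/-- a small prime which is a quadratic residue -/
def Split (p : ℕ) : Prop := ∃ q : ℕ, q.Prime ∧ (q : ℝ) ≤ (p : ℝ) ^ (32 / 100 : ℝ) ∧ chi p q = 1

/-- `N` is a sum of two positive integers with Liouville value `s` -/
def Pat (N : ℕ) (s : ℤ) : Prop := ∃ a b : ℕ, 0 < a ∧ 0 < b ∧ a + b = N ∧ lam a = s ∧ lam b = s

/-- task INVZ: bound for `1 / ζ` in the classical zero-free region -/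
def INVZ : Prop := ∃ c C : ℝ, 0 < c ∧ c ≤ 1 / 4 ∧ 0 < C ∧ ∀ s : ℂ,
  1 - c / Real.log (|s.im| + 3) ≤ s.re → s.re ≤ 2 →
    riemannZeta₁ s ≠ 0 ∧ ‖(s - 1) / riemannZeta₁ s‖ ≤ C * Real.log (|s.im| + 3)

/-- task MERT: the prime number theorem for the Moebius function with the classical error term -/
def MERT : Prop := ∃ c : ℝ, 0 < c ∧ ∀ᶠ x : ℕ in atTop,
  |((∑ n ∈ Icc 1 x, ArithmeticFunction.moebius n : ℤ) : ℝ)| ≤
    x * Real.exp (-(c * Real.sqrt (Real.log x)))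

/-- task PNTL: the form used for the Liouville function -/
def PNTL : Prop := ∀ C : ℕ, ∀ᶠ x : ℕ in atTop, ∀ y : ℕ, y ≤ 2 * x →
  |((∑ n ∈ Icc 1 y, lam n : ℤ) : ℝ)| ≤ x * Real.exp (-(C * (Real.log (Real.log x)) ^ 2))

/-- task SMO: many very smooth numbers -/
def SMO : Prop := ∃ C : ℕ, ∀ᶠ x : ℕ in atTop, ∃ U : Finset ℕ,
  (∀ u ∈ U, 1 ≤ u ∧ u < x ∧ ∀ r : ℕ, r.Prime → r ∣ u → (r : ℝ) ≤ (Real.log x) ^ C) ∧
    (x : ℝ) ^ (99 / 100 : ℝ) ≤ U.card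

/-- task SEC: second moment of short character sums -/
def SEC : Prop := ∀ (p : ℕ) [Fact p.Prime] (ψ : DirichletCharacter ℂ p), ψ ≠ 1 →
  ∀ c : ZMod p, c ≠ 0 → ∀ V : ℕ, V ≤ p →
    ∑ x : ZMod p, ‖∑ v ∈ range V, ψ (x + c * (v : ZMod p))‖ ^ 2 ≤ (p : ℝ) * V

/-- task EQA: equidistribution -/
def EQA : Prop := ∀ᶠ p : ℕ in atTop, ∀ [Fact p.Prime], ∀ U : Finset ℕ,
  (∀ u ∈ U, 1 ≤ u ∧ u < p) → (p : ℝ) ^ (99 / 100 : ℝ) ≤ U.card → Equi p U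

/-- task BUR: Burgess bound with a power saving -/
def BUR : Prop := ∃ δ : ℝ, 0 < δ ∧ ∀ᶠ p : ℕ in atTop, p.Prime → ∀ X : ℕ,
  (p : ℝ) ^ (3 / 10 : ℝ) ≤ X → |((∑ n ∈ Icc 1 X, chi p n : ℤ) : ℝ)| ≤ X * (p : ℝ) ^ (-δ)

/-- task SPL: a small prime quadratic residue -/
def SPL : Prop := ∀ᶠ p : ℕ in atTop, p.Prime → Split p

/-- task ENDG: the end game -/
def ENDG : Prop := ∀ᶠ p : ℕ in atTop, p.Prime → Pret p → Split p → Pat (2 * p) 1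

/-- task ST1: small multipliers -/
def ST1 : Prop := ∀ (p : ℕ) [Fact p.Prime] (β : ℕ), (Bad p (-1) (-1)).card ≤ β →
  (Dset p).card ≤ β → ∀ t r : ℕ, 1 ≤ r → r ≤ 2 ^ t → r < p → bn p r ≤ β * 2 ^ ((t + 1) ^ 2)

/-- task BOOT: the bootstrap -/
def BOOT : Prop := ∃ C : ℕ, ∀ᶠ p : ℕ in atTop, ∀ [Fact p.Prime], ∀ U : Finset ℕ, U.Nonempty →
  (∀ u ∈ U, 1 ≤ u ∧ u < p) → Equi p U → ∀ ε : ℝ, (p : ℝ) ^ (-(1 / 100) : ℝ) ≤ ε →
  (∀ u ∈ U, (bn p u : ℝ) ≤ ε * p) → (bn p 2 : ℝ) ≤ ε * p →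
  ∀ Y : ℕ, (Y : ℝ) ≤ (p : ℝ) ^ (45 / 100 : ℝ) →
    (SB p Y : ℝ) ≤ ε * Real.exp (C * (Real.log (Real.log p)) ^ 2) * p * Y

/-- task LIN: linearity -/
def LIN : Prop := ∀ᶠ p : ℕ in atTop, ∀ [Fact p.Prime], ∀ U : Finset ℕ, U.Nonempty →
  (∀ u ∈ U, 1 ≤ u ∧ u < p) → Equi p U →
  (∀ u ∈ U, (bn p u : ℝ) ≤ p / (Real.log p) ^ 30) →
  ((Bad p (-1) (-1)).card : ℝ) ≤ p / (Real.log p) ^ 30 →
  ((Dset p).card : ℝ) ≤ p / (Real.log p) ^ 30 →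
  (∀ Y : ℕ, (Y : ℝ) ≤ (p : ℝ) ^ (45 / 100 : ℝ) → (SB p Y : ℝ) ≤ p / (Real.log p) ^ 30 * Y) →
  Pret p

/-- the main step: twice a large prime -/
def TWOP : Prop := ∀ᶠ p : ℕ in atTop, p.Prime → Pat (2 * p) 1

/-- the final statement -/
def FINAL : Prop := ∃ N₀ : ℕ, ∀ N : ℕ, N₀ ≤ N → Even N → Pat N (-1)

end Pool.Agent.H753Z.SG
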