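import Pool.Agent.H753Z.SG.Endg2

/-! The end game. -/

set_option autoImplicit false

namespace Pool.Agent.H753Z.SG

open Finset Filter

theorem endg_num (p L x q B K V N Q M W a a1 a2 s : ℝ) (hL : 100 ≤ L) (hx : 12800 * L ^ 2 ≤ x)
    (hp : 0 < p) (hq : 0 < q) (hB : 0 < B) (hK : 0 < K) (hV : 0 < V) (hM : 0 ≤ M) (hW : 0 ≤ W)
    (ha : 0 ≤ a) (ha1 : 0 ≤ a1) (ha2 : 0 ≤ a2) (hs : 0 ≤ s)
    (haL : a * L ^ 8 ≤ p) (hWL : W ≤ 2 * L) (hMq : M * q ≤ 2 * B) (hQ : q ≤ 4 * L * Q)
    (hN : B ≤ 8 * L * N) (hP : p ≤ 2 * (B * (q * K))) (hVB : x * B ≤ V) (hVK : 10 * V ≤ K)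
    (hss : s ^ 2 = q * K * (p * V)) (h1 : a1 * N ≤ W * a) (h2 : a2 * Q ≤ W * a) :
    2 * V * (M * a1 + W * a2) + M * s + 2 * V ^ 2 * N < V * (N * K) := by
  have hL0 : 0 < L := by linarith
  have hN0 : 0 < N := by
    by_contra hc
    push Not at hc
    nlinarith
  have hL4 : 10000 ≤ L ^ 4 := by
    have : (10 : ℝ) ^ 4 ≤ L ^ 4 := pow_le_pow_left₀ (by norm_num) (by linarith) 4
    linarith
  have haL4 : 10000 * (a * L ^ 4) ≤ p := by
    have : a * L ^ 8 = (a * L ^ 4) * L ^ 4 := by ring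
    have h0 : 0 ≤ a * L ^ 4 := by positivity
    nlinarith
  have hNK : p ≤ 16 * L * (N * (q * K)) := by
    have := mul_le_mul_of_nonneg_right hN (show 0 ≤ q * K by positivity)
    nlinarith
  have t1 : 10 * (M * a1) ≤ N * K := by
    have e1 : M * q * (a1 * N) ≤ 2 * B * (2 * L * a) :=
      mul_le_mul hMq (le_trans h1 (mul_le_mul_of_nonneg_right hWL ha)) (by positivity)
        (by positivity)
    have e2 : 2 * B * (2 * L * a) ≤ 2 * (8 * L * N) * (2 * L * a) :=
      mul_le_mul_of_nonneg_right (by linarith) (by positivity)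
    have e3 : M * q * a1 ≤ 32 * L ^ 2 * a := by
      apply le_of_mul_le_mul_right _ hN0
      nlinarith
    have e4 : 16 * L * (10 * (M * q * a1)) ≤ 16 * L * (N * (q * K)) := by
      have : 16 * L * (10 * (M * q * a1)) ≤ 16 * L * (10 * (32 * L ^ 2 * a)) := by gcongr
      have e5 : a * L ^ 3 ≤ a * L ^ 4 :=
        mul_le_mul_of_nonneg_left (pow_le_pow_right₀ (by linarith) (by norm_num)) ha
      have h0 : 0 ≤ a * L ^ 4 := by positivity
      nlinarith
    have e6 := le_of_mul_le_mul_left e4 (by positivity)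
    apply le_of_mul_le_mul_left _ hq
    nlinarith
  have t2 : 10 * (W * a2) ≤ N * K := by
    have e1 : a2 * q ≤ 8 * L ^ 2 * a := by
      have f1 : a2 * q ≤ a2 * (4 * L * Q) := mul_le_mul_of_nonneg_left hQ ha2
      have f2 : 4 * L * (a2 * Q) ≤ 4 * L * (2 * L * a) :=
        mul_le_mul_of_nonneg_left (le_trans h2 (mul_le_mul_of_nonneg_right hWL ha))
          (by positivity)
      nlinarith
    have e2 : W * (a2 * q) ≤ 2 * L * (8 * L ^ 2 * a) :=
      mul_le_mul hWL e1 (by positivity) (by positivity)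
    have e4 : 16 * L * (10 * (W * (a2 * q))) ≤ 16 * L * (N * (q * K)) := by
      have : 16 * L * (10 * (W * (a2 * q))) ≤ 16 * L * (10 * (2 * L * (8 * L ^ 2 * a))) := by
        gcongr
      have h0 : 0 ≤ a * L ^ 4 := by positivity
      nlinarith
    have e6 := le_of_mul_le_mul_left e4 (by positivity)
    apply le_of_mul_le_mul_left _ hq
    nlinarith
  have t3 : 5 * (M * s) ≤ V * (N * K) := by
    have e1 : 6400 * L ^ 2 * p ≤ V * (q * K) := by
      have f1 : x * B * (q * K) ≤ V * (q * K) := mul_le_mul_of_nonneg_right hVB (by positivity)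
      have f2 : 12800 * L ^ 2 * (B * (q * K)) ≤ x * (B * (q * K)) :=
        mul_le_mul_of_nonneg_right hx (by positivity)
      have f3 : 6400 * L ^ 2 * p ≤ 6400 * L ^ 2 * (2 * (B * (q * K))) := by gcongr
      nlinarith
    have e2 : 80 * L * s ≤ V * (q * K) := by
      apply le_of_sq_le_sq _ (by positivity)
      have : (80 * L * s) ^ 2 = 6400 * L ^ 2 * p * (V * (q * K)) := by
        rw [mul_pow, hss]; ring
      rw [this, sq (V * (q * K))]
      exact mul_le_mul_of_nonneg_right e1 (by positivity)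
    have e3 : M * q * s ≤ 16 * L * N * s :=
      mul_le_mul_of_nonneg_right (by linarith) hs
    have e4 : N * (80 * L * s) ≤ N * (V * (q * K)) := mul_le_mul_of_nonneg_left e2 hN0.le
    apply le_of_mul_le_mul_left _ hq
    nlinarith
  have t4 : V * N * (10 * V) ≤ V * N * K := mul_le_mul_of_nonneg_left hVK (by positivity)
  have u1 := mul_le_mul_of_nonneg_left t1 hV.le
  have u2 := mul_le_mul_of_nonneg_left t2 hV.le
  have hpos : 0 < V * (N * K) := by positivity
  nlinarith

theorem endg_ev : ∀ᶠ p : ℕ in atTop, 100 ≤ Real.log p ∧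
    12800 * Real.log p ^ 2 ≤ (p : ℝ) ^ (1 / 100 : ℝ) := by
  have h1 : ∀ᶠ y : ℝ in atTop, 100 ≤ Real.log y := Real.tendsto_log_atTop.eventually_ge_atTop _
  have h2 := (isLittleO_log_rpow_rpow_atTop (s := 1 / 100) 2 (by norm_num)).bound
    (c := 1 / 12800) (by norm_num)
  have h3 : ∀ᶠ y : ℝ in atTop, 100 ≤ Real.log y ∧ 12800 * Real.log y ^ 2 ≤ y ^ (1 / 100 : ℝ) := by
    filter_upwards [h1, h2, eventually_ge_atTop (0 : ℝ)] with y a b c
    refine ⟨a, ?_⟩
    rw [Real.norm_eq_abs, Real.norm_eq_abs, abs_of_nonneg (by positivity),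
      abs_of_nonneg (by positivity), Real.rpow_two] at b
    linarith
  exact tendsto_natCast_atTop_atTop.eventually h3

theorem endg (h : SEC) : ENDG := by
  filter_upwards [endg_ev] with p ⟨hL, hx⟩ hp ⟨hp4, hA, hY⟩ hsplit
  classical
  have := Fact.mk hp
  by_contra hno
  set L := Real.log p with hLdef
  set x : ℝ := (p : ℝ) ^ (1 / 100 : ℝ) with hxdef
  have hp0 : (0 : ℝ) < p := by exact_mod_cast hp.pos
  have hp1 : (1 : ℝ) ≤ p := by exact_mod_cast hp.pos
  have hpow : ∀ k : ℕ, x ^ k = (p : ℝ) ^ ((k : ℝ) / 100) := by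
    intro k
    rw [hxdef, ← Real.rpow_natCast, ← Real.rpow_mul hp0.le]
    congr 1
    ring
  have hx100 : x ^ 100 = p := by rw [hpow]; norm_num
  have hx40 : 40 ≤ x := by nlinarith
  have hx1 : 1 ≤ x := by linarith
  have hx3 : x ^ 33 ≤ (p : ℝ) ^ (1 / 3 : ℝ) := by
    rw [hpow]
    exact Real.rpow_le_rpow_of_exponent_le hp1 (by norm_num)
  have hL8 : 100 ≤ L ^ 8 := le_trans hL (le_self_pow₀ (by linarith) (by norm_num))
  -- the least split prime
  have hex : ∃ q : ℕ, q.Prime ∧ chi p q = 1 := by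
    obtain ⟨q, h1, -, h3⟩ := hsplit
    exact ⟨q, h1, h3⟩
  let q := Nat.find hex
  obtain ⟨hq, hq1⟩ : q.Prime ∧ chi p q = 1 := Nat.find_spec hex
  have hqx : (q : ℝ) ≤ x ^ 32 := by
    obtain ⟨q', h1, h2, h3⟩ := hsplit
    have : q ≤ q' := Nat.find_min' hex ⟨h1, h3⟩
    have h4 : (q : ℝ) ≤ q' := by exact_mod_cast this
    rw [hpow]
    exact le_trans h4 (by simpa using h2)
  have hx32 : x ^ 32 ≤ x ^ 33 := pow_le_pow_right₀ hx1 (by norm_num)
  have hlt : ∀ k : ℕ, k < 100 → 40 * x ^ k ≤ p := by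
    intro k hk
    have h1 : x ^ (k + 1) ≤ x ^ 100 := pow_le_pow_right₀ hx1 hk
    have h2 : 0 ≤ x ^ k := by positivity
    rw [pow_succ] at h1
    nlinarith
  have hqp : q < p := by
    have := hlt 32 (by norm_num)
    have h2 : 0 < x ^ 32 := by positivity
    have : (q : ℝ) < p := by linarith
    exact_mod_cast this
  have hqmin : ∀ r, r < q → r.Prime → chi p r = -1 := by
    intro r hr hr'
    rcases endg_chi_pm hp hr'.pos (by omega : r < p) with e | e
    · exact absurd ⟨hr', e⟩ (Nat.find_min hex hr)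
    · exact e
  have hq100 : 100 ≤ q := by
    have h1 := hY q (by linarith)
    have h2 : 1 ≤ ((Icc 1 q).filter fun r => r.Prime ∧ chi p r ≠ -1).card := by
      apply Finset.card_pos.mpr
      exact ⟨q, by simp [hq, hq1, Nat.one_le_iff_ne_zero, hq.ne_zero]⟩
    have h3 : (1 : ℝ) ≤ q / L ^ 8 := le_trans (by exact_mod_cast h2) h1
    rw [le_div_iff₀ (by positivity)] at h3
    have : (100 : ℝ) ≤ q := by linarith
    exact_mod_cast this
  let B := ⌊x ^ 33⌋₊
  have hBx : (B : ℝ) ≤ x ^ 33 := Nat.floor_le (by positivity)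
  have hqB : q ≤ B := Nat.le_floor (by linarith)
  have hBp : B < p := by
    have := hlt 33 (by norm_num)
    have h2 : 0 < x ^ 33 := by positivity
    have : (B : ℝ) < p := by linarith
    exact_mod_cast this
  let V := ⌈x ^ 34⌉₊
  have hV1 : x ^ 34 ≤ V := Nat.le_ceil _
  have hV2 : (V : ℝ) ≤ 2 * x ^ 34 := by
    have h1 := (Nat.ceil_lt_add_one (show 0 ≤ x ^ 34 by positivity)).le
    have h2 : 1 ≤ x ^ 34 := one_le_pow₀ hx1
    simp only [V]
    linarith
  have hVp : V ≤ p := by
    have := hlt 34 (by norm_num)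
    have h2 : 0 < x ^ 34 := by positivity
    have : (V : ℝ) ≤ p := by linarith
    exact_mod_cast this
  let K := p / B / q
  have hK1 : B * (q * K) ≤ p :=
    le_trans (Nat.mul_le_mul_left _ (Nat.mul_div_le _ _)) (Nat.mul_div_le _ _)
  have hK2 : p ≤ B * (q * K) + B * q + B := by
    have a1 := Nat.div_add_mod p B
    have a2 := Nat.div_add_mod (p / B) q
    have a3 : p % B < B := Nat.mod_lt _ (by omega)
    have a4 : p / B % q < q := Nat.mod_lt _ (by omega)
    have a5 : B * (p / B) ≤ B * (q * K + q) := Nat.mul_le_mul_left _ (by simp only [K]; omega)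
    nlinarith
  have hq0 : (0 : ℝ) < q := by exact_mod_cast hq.pos
  have hB0 : (0 : ℝ) < B := by exact_mod_cast (by omega : 0 < B)
  have hBq : (B : ℝ) * q ≤ x ^ 65 := by
    have := mul_le_mul hBx hqx hq0.le (by positivity)
    calc (B : ℝ) * q ≤ x ^ 33 * x ^ 32 := this
      _ = x ^ 65 := by ring
  have hP : (p : ℝ) ≤ 2 * (B * (q * K)) := by
    have h1 : (p : ℝ) ≤ B * (q * K) + B * q + B := by exact_mod_cast hK2
    have h2 := hlt 65 (by norm_num)
    have h3 := hlt 33 (by norm_num)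
    linarith
  have hVK : 10 * (V : ℝ) ≤ K := by
    have h1 : (B : ℝ) * (q * K) ≤ x ^ 65 * K := by
      have := mul_le_mul_of_nonneg_right hBq (show (0 : ℝ) ≤ K by positivity)
      linarith
    have h2 := hlt 99 (by norm_num)
    have h3 : x ^ 65 * (20 * x ^ 34) ≤ x ^ 65 * K := by
      have : x ^ 65 * (20 * x ^ 34) = 20 * x ^ 99 := by ring
      linarith
    have h4 := le_of_mul_le_mul_left h3 (by positivity)
    linarith
  have hV0 : (0 : ℝ) < V := lt_of_lt_of_le (by positivity) hV1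
  let PB := (Icc 1 B).filter fun r => r.Prime ∧ chi p r = -1
  have hPB : ∀ b ∈ PB, b.Prime ∧ b ≤ B ∧ chi p b = -1 := by
    intro b hb
    simp only [PB, mem_filter, mem_Icc] at hb
    exact ⟨hb.2.1, hb.1.2, hb.2.2⟩
  have hN : (B : ℝ) ≤ 8 * L * PB.card := by
    have h1 := hY B (by linarith)
    have h2 : Nat.primeCounting B ≤
        PB.card + ((Icc 1 B).filter fun r => r.Prime ∧ chi p r ≠ -1).card := by
      rw [← Nat.primesLE_card_eq_primeCounting]
      refine le_trans (Finset.card_le_card ?_) (Finset.card_union_le _ _)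
      intro r hr
      rw [Nat.mem_primesLE] at hr
      simp only [PB, mem_union, mem_filter, mem_Icc]
      by_cases c : chi p r = -1
      · exact Or.inl ⟨⟨hr.2.pos, hr.1⟩, hr.2, c⟩
      · exact Or.inr ⟨⟨hr.2.pos, hr.1⟩, hr.2, c⟩
    have h3 : (Nat.primeCounting B : ℝ) ≤ PB.card + B / L ^ 8 := by
      have : (Nat.primeCounting B : ℝ) ≤
        PB.card + ((Icc 1 B).filter fun r => r.Prime ∧ chi p r ≠ -1).card := by exact_mod_cast h2
      linarith
    have h4 := endg_pi (n := B) (by omega) (L := L)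
      (Real.log_le_log hB0 (by exact_mod_cast hBp.le))
    have h5 : 8 * L * (B / L ^ 8) ≤ B := by
      rw [← mul_div_assoc, div_le_iff₀ (by positivity)]
      have h6 : 8 ≤ L ^ 7 := le_trans (by linarith) (le_self_pow₀ (by linarith) (by norm_num))
      have h7 : L ^ 8 = L * L ^ 7 := by ring
      have h8 : 0 ≤ (B : ℝ) * L := by positivity
      rw [h7]
      nlinarith
    have h6 := mul_le_mul_of_nonneg_left h3 (show 0 ≤ 8 * L by positivity)
    nlinarith
  have hQ : (q : ℝ) ≤ 4 * L * (q.primesBelow).card := by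
    have h1 := endg_pi (n := q) hq100 (L := L) (Real.log_le_log hq0 (by exact_mod_cast hqp.le))
    have h2 : Nat.primeCounting q ≤ (q.primesBelow).card + 1 := by
      rw [← Nat.primesLE_card_eq_primeCounting]
      refine le_trans (Finset.card_le_card ?_) (Finset.card_insert_le q _)
      intro r hr
      rw [Nat.mem_primesLE] at hr
      rw [mem_insert, Nat.mem_primesBelow]
      rcases hr.1.lt_or_eq with c | c
      · exact Or.inr ⟨c, hr.2⟩
      · exact Or.inl c
    have h3 : (Nat.primeCounting q : ℝ) ≤ (q.primesBelow).card + 1 := by exact_mod_cast h2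
    have h4 := mul_le_mul_of_nonneg_left h3 (show 0 ≤ 4 * L by positivity)
    linarith
  obtain ⟨a1, a2, c1, c2, c3⟩ := endg_core h p q B K V hp4 hq hq1 hqmin (by omega) hqp PB hPB
    (by omega) hBp hK1 hVp hno
  have hMq : ((B / q + 1 : ℕ) : ℝ) * q ≤ 2 * B := by
    have : (B / q + 1) * q ≤ 2 * B := by
      have := Nat.div_mul_le_self B q
      nlinarith
    exact_mod_cast this
  have haL : ((endgA p).card : ℝ) * L ^ 8 ≤ p := by
    rw [← le_div_iff₀ (by positivity)]
    exact hA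
  have hVB : x * B ≤ V := by
    have := mul_le_mul_of_nonneg_left hBx (show 0 ≤ x by positivity)
    have e : x * x ^ 33 = x ^ 34 := by ring
    linarith
  have := endg_num p L x q B K V PB.card (q.primesBelow).card ((B / q + 1 : ℕ) : ℝ)
    (Nat.log 2 (2 * p)) (endgA p).card a1 a2 (Real.sqrt ((q * K : ℕ) * (p * V))) hL hx hp0 hq0
    hB0 (by linarith) hV0 (by positivity) (by positivity) (by positivity) (by positivity)
    (by positivity) (by positivity) haL (endg_log2 hp.pos (by linarith)) hMq hQ hN hP hVB hVK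
    (by rw [Real.sq_sqrt (by positivity)]; push_cast; ring) (by exact_mod_cast c1)
    (by exact_mod_cast c2)
  linarith

end Pool.Agent.H753Z.SG
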