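import Pool.Agent.H753Z.SG.Defs

/-! Auxiliary lemmas for the end game. -/

set_option autoImplicit false

namespace Pool.Agent.H753Z.SG

open Finset Filter

theorem endg_omega {n N : ℕ} (hn : n ≠ 0) (hN : n ≤ N) : n.primeFactors.card ≤ Nat.log 2 N := by
  apply Nat.le_log_of_pow_le (by norm_num)
  have h1 : 2 ^ n.primeFactors.card ≤ ∏ r ∈ n.primeFactors, r := by
    apply Finset.pow_card_le_prod
    intro r hr
    exact (Nat.prime_of_mem_primeFactors hr).two_le
  have h2 : ∏ r ∈ n.primeFactors, r ≤ n :=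
    Nat.le_of_dvd (Nat.pos_of_ne_zero hn) (Nat.prod_primeFactors_dvd n)
  omega

theorem endg_log2 {p : ℕ} (hp : 0 < p) (hL : 2 ≤ Real.log p) :
    (Nat.log 2 (2 * p) : ℝ) ≤ 2 * Real.log p := by
  have h1 : 2 ^ Nat.log 2 (2 * p) ≤ 2 * p := Nat.pow_log_le_self 2 (by omega)
  have h2 : ((2 : ℝ)) ^ Nat.log 2 (2 * p) ≤ 2 * p := by exact_mod_cast h1
  have hp' : (0 : ℝ) < p := by exact_mod_cast hp
  have h3 := Real.log_le_log (by positivity) h2
  rw [Real.log_pow, Real.log_mul (by norm_num) hp'.ne'] at h3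
  have h4 := Real.log_two_gt_d9
  have h5 := Real.log_two_lt_d9
  have h6 : (0 : ℝ) ≤ (Nat.log 2 (2 * p) : ℝ) := by positivity
  nlinarith

theorem endg_pi {n : ℕ} (hn : 100 ≤ n) {L : ℝ} (hL : Real.log n ≤ L) :
    (n : ℝ) ≤ 4 * L * ((Nat.primeCounting n : ℝ) - 1) := by
  have hn' : (100 : ℝ) ≤ n := by exact_mod_cast hn
  have hlog : 0 < Real.log n := Real.log_pos (by linarith)
  have h1 := Chebyshev.pi_ge n
  rw [div_le_iff₀ hlog] at h1
  have h2 : Real.log n ≤ Real.log (n + 1) := Real.log_le_log (by linarith) (by linarith)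
  have hs : Real.sqrt (n + 1) ^ 2 = n + 1 := Real.sq_sqrt (by linarith)
  have hs0 : 10 ≤ Real.sqrt (n + 1) := Real.le_sqrt_of_sq_le (by linarith)
  have h3 : Real.log (n + 1) ≤ 2 * (Real.sqrt (n + 1) - 1) := by
    have := Real.log_le_sub_one_of_pos (show 0 < Real.sqrt (n + 1) by linarith)
    rw [Real.log_sqrt (by linarith)] at this
    linarith
  have h4 := Real.log_two_gt_d9
  have h5 : (n : ℝ) ≤ 4 * Real.log n * ((Nat.primeCounting n : ℝ) - 1) := by nlinarith
  have h6 : 0 ≤ (Nat.primeCounting n : ℝ) - 1 := by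
    by_contra hc
    push Not at hc
    nlinarith
  nlinarith

theorem endg_chi_mul (p m n : ℕ) : chi p (m * n) = chi p m * chi p n := by
  unfold chi
  push_cast
  exact jacobiSym.mul_left _ _ _

theorem endg_chi_abs (p n : ℕ) : |chi p n| ≤ 1 := by
  unfold chi
  rcases jacobiSym.trichotomy (n : ℤ) p with h | h | h <;> simp [h]

theorem endg_chi_pm {p n : ℕ} (hp : p.Prime) (h1 : 1 ≤ n) (h2 : n < p) :
    chi p n = 1 ∨ chi p n = -1 := by
  unfold chi
  apply jacobiSym.eq_one_or_neg_one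
  rw [Int.gcd_natCast_natCast]
  exact (Nat.coprime_of_lt_prime (by omega) h2 hp).symm

theorem endg_chi_compl {p m n : ℕ} (hp : p % 4 = 3) (h : m + n = 2 * p) :
    chi p m = - chi p n := by
  unfold chi
  have hodd : Odd p := by rw [Nat.odd_iff]; omega
  have h1 : (m : ℤ) % p = (-(n : ℤ)) % p := by
    have : (m : ℤ) = -(n : ℤ) + p * 2 := by
      have : (m : ℤ) + n = 2 * p := by exact_mod_cast h
      linarith
    rw [this, Int.add_mul_emod_self_left]
  rw [jacobiSym.mod_left' h1, jacobiSym.neg _ hodd, ZMod.χ₄_nat_three_mod_four hp]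
  ring

theorem endg_lam_prime {r : ℕ} (hr : r.Prime) : lam r = -1 := by
  simp [lam, ArithmeticFunction.liouville_apply hr.ne_zero,
    ArithmeticFunction.cardFactors_apply_prime hr]

theorem endg_lam_mul (m n : ℕ) : lam (m * n) = lam m * lam n :=
  ArithmeticFunction.liouville_apply_mul m n

theorem endg_mult (A' Q A : Finset ℕ) (W : ℕ) (h1 : ∀ a ∈ A', ∀ t ∈ Q, a * t ∈ A)
    (h2 : ∀ t ∈ Q, t.Prime) (h3 : ∀ n ∈ A, n ≠ 0 ∧ n.primeFactors.card ≤ W) :
    A'.card * Q.card ≤ W * A.card := by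
  rw [← Finset.card_product]
  apply Finset.card_le_mul_card_image_of_maps_to (f := fun w : ℕ × ℕ => w.1 * w.2)
  · intro w hw
    rw [Finset.mem_product] at hw
    exact h1 _ hw.1 _ hw.2
  · intro n hn
    refine le_trans ?_ (h3 n hn).2
    apply Finset.card_le_card_of_injOn (fun w => w.2)
    · intro w hw
      simp only [coe_filter, mem_product, Set.mem_ofPred_eq] at hw
      simp only [Finset.mem_coe, Nat.mem_primeFactors]
      exact ⟨h2 _ hw.1.2, ⟨w.1, by rw [← hw.2]; ring⟩, (h3 n hn).1⟩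
    · intro w hw w' hw' e
      simp only [coe_filter, mem_product, Set.mem_ofPred_eq] at hw hw'
      simp only at e
      have hpos := (h2 _ hw.1.2).pos
      have : w.1 = w'.1 := by
        have h := hw.2.trans hw'.2.symm
        rw [← e] at h
        exact Nat.eq_of_mul_eq_mul_right hpos h
      exact Prod.ext this e

/-- shifting a sum along a progression -/
theorem endg_shift (f : ℕ → ℝ) (hf : ∀ n, |f n| ≤ 1) (K v : ℕ) :
    |∑ k ∈ range K, f k - ∑ k ∈ range K, f (k + v)| ≤ 2 * v := by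
  induction v with
  | zero => simp
  | succ v ih =>
    have h1 : ∑ k ∈ range K, f (k + (v + 1)) - ∑ k ∈ range K, f (k + v) = f (K + v) - f v := by
      rw [← Finset.sum_sub_distrib]
      have := Finset.sum_range_sub (fun k => f (k + v)) K
      simp only [zero_add] at this
      rw [← this]
      apply Finset.sum_congr rfl
      intro k _
      congr 2
      ring
    have h2 := abs_le.mp (hf (K + v))
    have h3 := abs_le.mp (hf v)
    have h4 := abs_le.mp ih
    rw [abs_le]
    push_cast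
    constructor <;> linarith

theorem endg_shift2 (f : ℕ → ℝ) (hf : ∀ n, |f n| ≤ 1) (K V : ℕ) :
    (V : ℝ) * ∑ k ∈ range K, f k ≤
      ∑ k ∈ range K, |∑ v ∈ range V, f (k + v)| + 2 * (V : ℝ) ^ 2 := by
  have h1 : (V : ℝ) * ∑ k ∈ range K, f k ≤
      ∑ v ∈ range V, (∑ k ∈ range K, f (k + v) + 2 * V) := by
    have : (V : ℝ) * ∑ k ∈ range K, f k = ∑ v ∈ range V, ∑ k ∈ range K, f k := by
      rw [Finset.sum_const, card_range, nsmul_eq_mul]
    rw [this]
    apply Finset.sum_le_sum
    intro v hv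
    have h2 := abs_le.mp (endg_shift f hf K v)
    have h3 : (v : ℝ) ≤ V := by exact_mod_cast (mem_range.mp hv).le
    linarith
  rw [Finset.sum_add_distrib, Finset.sum_comm, Finset.sum_const, card_range, nsmul_eq_mul] at h1
  have h2 : ∑ k ∈ range K, ∑ v ∈ range V, f (k + v) ≤
      ∑ k ∈ range K, |∑ v ∈ range V, f (k + v)| :=
    Finset.sum_le_sum fun k _ => le_abs_self _
  nlinarith

/-- the second moment bound for the Legendre symbol -/
theorem endg_sec (h : SEC) (p : ℕ) [hp : Fact p.Prime] (hp4 : p % 4 = 3) (q D V : ℕ)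
    (hq : ¬ p ∣ q) (hD : D < p) (hV : V ≤ p) :
    ∑ d ∈ Icc 1 D, |∑ v ∈ range V, (chi p (d + q * v) : ℝ)| ≤ Real.sqrt (D * (p * V)) := by
  let ψ : DirichletCharacter ℂ p := (quadraticChar (ZMod p)).ringHomComp (Int.castRingHom ℂ)
  have hψ : ∀ n : ℕ, ψ (n : ZMod p) = (chi p n : ℂ) := by
    intro n
    simp only [ψ, MulChar.ringHomComp_apply, chi]
    rw [← jacobiSym.legendreSym.to_jacobiSym, legendreSym]
    simp
  have hne : ψ ≠ 1 := by
    intro e
    have h1 := hψ (p - 1)
    have h2 := hψ (p + 1)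
    have hp2 := hp.out.two_le
    have h3 : chi p (p - 1) = - chi p (p + 1) := endg_chi_compl hp4 (by omega)
    have h4 : ((p + 1 : ℕ) : ZMod p) = 1 := by simp
    have h5 : ((p - 1 : ℕ) : ZMod p) = -1 := by
      rw [Nat.cast_sub (by omega)]; simp
    rw [h4, e, MulChar.one_apply isUnit_one] at h2
    rw [h5, e, MulChar.one_apply (isUnit_one.neg), h3] at h1
    push_cast at h1
    rw [← h2] at h1
    norm_num at h1
  have hc : (q : ZMod p) ≠ 0 := by rwa [Ne, ZMod.natCast_eq_zero_iff]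
  have hs := h p ψ hne q hc V hV
  have h1 : ∑ d ∈ Icc 1 D, |∑ v ∈ range V, (chi p (d + q * v) : ℝ)| ^ 2 ≤ (p : ℝ) * V := by
    refine le_trans ?_ hs
    have hinj : Set.InjOn (fun d : ℕ => (d : ZMod p)) (Icc 1 D : Finset ℕ) := by
      intro a ha b hb e
      simp only [coe_Icc, Set.mem_Icc] at ha hb
      have := (ZMod.natCast_eq_natCast_iff' a b p).mp e
      rwa [Nat.mod_eq_of_lt (by omega), Nat.mod_eq_of_lt (by omega)] at this
    calc ∑ d ∈ Icc 1 D, |∑ v ∈ range V, (chi p (d + q * v) : ℝ)| ^ 2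
        = ∑ d ∈ Icc 1 D, ‖∑ v ∈ range V, ψ ((d : ZMod p) + q * (v : ZMod p))‖ ^ 2 := by
          apply Finset.sum_congr rfl
          intro d _
          congr 1
          have : ∑ v ∈ range V, ψ ((d : ZMod p) + q * (v : ZMod p)) =
              ((∑ v ∈ range V, (chi p (d + q * v) : ℝ) : ℝ) : ℂ) := by
            push_cast
            apply Finset.sum_congr rfl
            intro v _
            rw [← hψ]
            push_cast
            rfl
          rw [this, Complex.norm_real, Real.norm_eq_abs]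
      _ = ∑ x ∈ (Icc 1 D).image (fun d : ℕ => (d : ZMod p)),
            ‖∑ v ∈ range V, ψ (x + q * (v : ZMod p))‖ ^ 2 := by
          rw [Finset.sum_image hinj]
      _ ≤ _ := Finset.sum_le_sum_of_subset_of_nonneg (subset_univ _) fun _ _ _ => by positivity
  apply Real.le_sqrt_of_sq_le
  have h2 := sq_sum_le_card_mul_sum_sq (s := Icc 1 D)
    (f := fun d => |∑ v ∈ range V, (chi p (d + q * v) : ℝ)|)
  simp only [Nat.card_Icc, Nat.add_sub_cancel] at h2
  refine le_trans h2 ?_
  exact mul_le_mul_of_nonneg_left h1 (by positivity)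

end Pool.Agent.H753Z.SG
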