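import Pool.Agent.H753Z.SG.Endg1

/-! The counting core of the end game. -/

set_option autoImplicit false

namespace Pool.Agent.H753Z.SG

open Finset Filter

theorem endg_d0 {q b N : ℕ} (hq : q.Prime) (hb : ¬ q ∣ b) (hN : ¬ q ∣ N) :
    ∃ d : ℕ, 1 ≤ d ∧ d ≤ q ∧ b * d ≡ N [MOD q] := by
  have := Fact.mk hq
  have hb' : (b : ZMod q) ≠ 0 := by rwa [Ne, ZMod.natCast_eq_zero_iff]
  have hN' : (N : ZMod q) ≠ 0 := by rwa [Ne, ZMod.natCast_eq_zero_iff]
  refine ⟨((N : ZMod q) * (b : ZMod q)⁻¹).val, ?_, (ZMod.val_lt _).le, ?_⟩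
  · rw [Nat.one_le_iff_ne_zero, Ne, ZMod.val_eq_zero]
    exact mul_ne_zero hN' (inv_ne_zero hb')
  · rw [← ZMod.natCast_eq_natCast_iff]
    push_cast
    rw [ZMod.natCast_zmod_val]
    field_simp

/-- each `d` is hit by few pairs -/
theorem endg_fibre {q N B K : ℕ} (hq : q.Prime) (hN : ¬ q ∣ N) (PB : Finset ℕ)
    (hB : ∀ b ∈ PB, b ≤ B) (d0 : ℕ → ℕ)
    (hd : ∀ b ∈ PB, 1 ≤ d0 b ∧ d0 b ≤ q ∧ b * d0 b ≡ N [MOD q]) (g : ℕ → ℝ) (hg : ∀ n, 0 ≤ g n) :
    ∑ w ∈ PB ×ˢ range K, g (d0 w.1 + q * w.2) ≤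
      ((B / q + 1 : ℕ) : ℝ) * ∑ d ∈ Icc 1 (q * K), g d := by
  have hmap : ∀ w ∈ PB ×ˢ range K, d0 w.1 + q * w.2 ∈ Icc 1 (q * K) := by
    intro w hw
    rw [mem_product, mem_range] at hw
    obtain ⟨h1, h2, -⟩ := hd _ hw.1
    rw [mem_Icc]
    have : q * (w.2 + 1) ≤ q * K := Nat.mul_le_mul_left _ hw.2
    constructor
    · omega
    · nlinarith
  rw [← Finset.sum_fiberwise_of_maps_to hmap, Finset.mul_sum]
  apply Finset.sum_le_sum
  intro d _
  rw [Finset.sum_congr rfl (g := fun _ => g d) (fun w hw => by rw [(mem_filter.mp hw).2]),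
    Finset.sum_const, nsmul_eq_mul]
  apply mul_le_mul_of_nonneg_right _ (hg d)
  have : ((PB ×ˢ range K).filter fun w => d0 w.1 + q * w.2 = d).card ≤ (range (B / q + 1)).card := by
    have key : ∀ w ∈ (PB ×ˢ range K).filter fun w => d0 w.1 + q * w.2 = d,
        w.1 * d ≡ N [MOD q] := by
      intro w hw
      rw [mem_filter, mem_product] at hw
      obtain ⟨-, -, h3⟩ := hd _ hw.1.1
      rw [← hw.2, mul_add]
      have : w.1 * (q * w.2) ≡ 0 [MOD q] :=
        (Nat.modEq_zero_iff_dvd).mpr ⟨w.1 * w.2, by ring⟩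
      simpa using h3.add this
    apply Finset.card_le_card_of_injOn (fun w => w.1 / q)
    · intro w hw
      have hw' := mem_filter.mp hw
      rw [mem_product] at hw'
      simp only [coe_range, Set.mem_Iio]
      exact Nat.lt_succ_of_le (Nat.div_le_div_right (hB _ hw'.1.1))
    · intro w hw w' hw' e
      have k1 := key w hw
      have k2 := key w' hw'
      have hcop : Nat.gcd q d = 1 := by
        apply (Nat.Prime.coprime_iff_not_dvd hq).mpr
        intro hdv
        apply hN
        exact (Nat.modEq_zero_iff_dvd).mp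
          (k1.symm.trans ((Nat.modEq_zero_iff_dvd).mpr (Dvd.dvd.mul_left hdv _)))
      have k3 : w.1 ≡ w'.1 [MOD q] := Nat.ModEq.cancel_right_of_coprime hcop (k1.trans k2.symm)
      have e1 : w.1 = w'.1 := by
        have a1 := Nat.div_add_mod w.1 q
        have a2 := Nat.div_add_mod w'.1 q
        simp only at e
        unfold Nat.ModEq at k3
        rw [← a1, ← a2, e, k3]
      have f1 := (mem_filter.mp hw).2
      have f2 := (mem_filter.mp hw').2
      rw [e1] at f1
      have e2 : q * w.2 = q * w'.2 := by omega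
      exact Prod.ext e1 (Nat.eq_of_mul_eq_mul_left hq.pos e2)
  rw [card_range] at this
  exact_mod_cast this

/-- the atypical integers -/
def endgA (p : ℕ) : Finset ℕ := (Ico 1 (2 * p)).filter fun n => n ≠ p ∧ lam n ≠ chi p n

theorem endg_mul_mem {p a t : ℕ} (hp : p.Prime) (ha : a ∈ endgA p) (ht : t.Prime) (htp : t < p)
    (hc : chi p t = -1) (hlt : a * t < 2 * p) : a * t ∈ endgA p := by
  simp only [endgA, mem_filter, mem_Ico] at ha ⊢
  refine ⟨⟨Nat.mul_pos ha.1.1 ht.pos, hlt⟩, ?_, ?_⟩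
  · intro e
    have : t ∣ p := ⟨a, by rw [← e]; ring⟩
    have := (Nat.prime_dvd_prime_iff_eq ht hp).mp this
    omega
  · rw [endg_lam_mul, endg_chi_mul, endg_lam_prime ht, hc]
    intro e
    apply ha.2.2
    linarith

theorem endg_core (h : SEC) (p q B K V : ℕ) [hp : Fact p.Prime] (hp4 : p % 4 = 3) (hq : q.Prime)
    (hq1 : chi p q = 1) (hqmin : ∀ r, r < q → r.Prime → chi p r = -1) (hq2 : q ≠ 2) (hqp : q < p)
    (PB : Finset ℕ) (hPB : ∀ b ∈ PB, b.Prime ∧ b ≤ B ∧ chi p b = -1) (hB2 : 2 ≤ B) (hBp : B < p)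
    (hK : B * (q * K) ≤ p) (hV : V ≤ p) (hno : ¬ Pat (2 * p) 1) :
    ∃ a1 a2 : ℕ, a1 * PB.card ≤ Nat.log 2 (2 * p) * (endgA p).card ∧
      a2 * (q.primesBelow).card ≤ Nat.log 2 (2 * p) * (endgA p).card ∧
      (V : ℝ) * (PB.card * K) ≤
        2 * V * (((B / q + 1 : ℕ) : ℝ) * a1 + Nat.log 2 (2 * p) * a2) +
        ((B / q + 1 : ℕ) : ℝ) * Real.sqrt ((q * K : ℕ) * (p * V)) + 2 * (V : ℝ) ^ 2 * PB.card := by
  classical
  have hpp := hp.out
  have hN : ¬ q ∣ 2 * p := by
    intro hdv
    rcases (Nat.Prime.dvd_mul hq).mp hdv with h2 | h2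
    · exact hq2 ((Nat.prime_dvd_prime_iff_eq hq Nat.prime_two).mp h2)
    · have := (Nat.prime_dvd_prime_iff_eq hq hpp).mp h2
      omega
  have hex : ∀ b : ℕ, ∃ d : ℕ, b ∈ PB → 1 ≤ d ∧ d ≤ q ∧ b * d ≡ 2 * p [MOD q] := by
    intro b
    by_cases hb : b ∈ PB
    · have hqb : ¬ q ∣ b := by
        intro hdv
        have e := (Nat.prime_dvd_prime_iff_eq hq (hPB b hb).1).mp hdv
        have := (hPB b hb).2.2
        rw [← e, hq1] at this
        norm_num at this
      obtain ⟨d, hd⟩ := endg_d0 hq hqb hN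
      exact ⟨d, fun _ => hd⟩
    · exact ⟨0, fun h => absurd h hb⟩
  choose d0 hd using hex
  set W := Nat.log 2 (2 * p) with hW
  set A := endgA p with hA
  have hAW : ∀ n ∈ A, n ≠ 0 ∧ n.primeFactors.card ≤ W := by
    intro n hn
    simp only [hA, endgA, mem_filter, mem_Ico] at hn
    exact ⟨by omega, endg_omega (by omega) hn.1.2.le⟩
  have hDp : q * K < p := by nlinarith [hpp.pos]
  let A1 := (Icc 1 (q * K)).filter fun d => d ∈ A
  let A2 := A.filter fun m => q * m < 2 * p
  refine ⟨A1.card, A2.card, ?_, ?_, ?_⟩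
  · apply endg_mult A1 PB A W _ (fun t ht => (hPB t ht).1) hAW
    intro a ha t ht
    simp only [A1, mem_filter, mem_Icc] at ha
    obtain ⟨h1, h2, h3⟩ := hPB t ht
    apply endg_mul_mem hpp ha.2 h1 (by omega) h3
    have : a * t ≤ (q * K) * B := Nat.mul_le_mul ha.1.2 h2
    nlinarith [hpp.pos]
  · apply endg_mult A2 _ A W _ (fun t ht => (Nat.mem_primesBelow.mp ht).2) hAW
    intro a ha t ht
    simp only [A2, mem_filter] at ha
    obtain ⟨h1, h2⟩ := Nat.mem_primesBelow.mp ht
    apply endg_mul_mem hpp ha.1 h2 (by omega) (hqmin t h1 h2)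
    have : a * t ≤ a * q := Nat.mul_le_mul_left _ h1.le
    nlinarith
  -- the main count
  let T := PB ×ˢ range K
  let dd : ℕ × ℕ → ℕ := fun w => d0 w.1 + q * w.2
  let mm : ℕ × ℕ → ℕ := fun w => (2 * p - w.1 * dd w) / q
  have hdd : ∀ w ∈ T, 1 ≤ dd w ∧ dd w ≤ q * K := by
    intro w hw
    rw [mem_product, mem_range] at hw
    obtain ⟨h1, h2, -⟩ := hd _ hw.1
    have : q * (w.2 + 1) ≤ q * K := Nat.mul_le_mul_left _ hw.2
    constructor
    · simp only [dd]; omega
    · simp only [dd]; nlinarith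
  have hle : ∀ w ∈ T, w.1 * dd w ≤ p := by
    intro w hw
    have h1 := (hdd w hw).2
    have h2 := (hPB _ (mem_product.mp hw).1).2.1
    exact le_trans (Nat.mul_le_mul h2 h1) hK
  have hmm : ∀ w ∈ T, q * mm w + w.1 * dd w = 2 * p := by
    intro w hw
    have h1 := hle w hw
    obtain ⟨-, -, h3⟩ := hd _ (mem_product.mp hw).1
    have h4 : w.1 * dd w ≡ 2 * p [MOD q] := by
      simp only [dd]
      rw [mul_add]
      have : w.1 * (q * w.2) ≡ 0 [MOD q] :=
        (Nat.modEq_zero_iff_dvd).mpr ⟨w.1 * w.2, by ring⟩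
      simpa using h3.add this
    have h5 : q ∣ 2 * p - w.1 * dd w := (Nat.modEq_iff_dvd' (by omega)).mp h4
    simp only [mm]
    rw [Nat.mul_div_cancel' h5]
    omega
  -- every pair with a negative sign is atypical
  have hbad : ∀ w ∈ T, (1 : ℝ) ≤ (chi p (dd w) : ℝ) +
      2 * ((if dd w ∈ A then 1 else 0) + (if mm w ∈ A2 then 1 else 0)) := by
    intro w hw
    obtain ⟨hd1, hd2⟩ := hdd w hw
    have hm := hmm w hw
    have hl := hle w hw
    obtain ⟨hb1, hb2, hb3⟩ := hPB _ (mem_product.mp hw).1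
    rcases endg_chi_pm hpp hd1 (lt_of_le_of_lt hd2 hDp) with hc | hc
    · rw [hc]
      push_cast
      split_ifs <;> norm_num
    · rw [hc]
      by_cases c1 : dd w ∈ A
      · rw [if_pos c1]
        push_cast
        split_ifs <;> norm_num
      by_cases c2 : mm w ∈ A2
      · rw [if_neg c1, if_pos c2]
        norm_num
      exfalso
      apply hno
      have hpos : 0 < w.1 * dd w := Nat.mul_pos hb1.pos hd1
      have hm0 : 0 < mm w := by
        rcases Nat.eq_zero_or_pos (mm w) with e | e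
        · rw [e] at hm
          have := hpp.pos
          omega
        · exact e
      have hq3 := hq.two_le
      have hmp : mm w < p := by nlinarith
      have l1 : lam (dd w) = chi p (dd w) := by
        by_contra hne
        apply c1
        simp only [hA, endgA, mem_filter, mem_Ico]
        exact ⟨⟨hd1, by omega⟩, by omega, hne⟩
      have l2 : lam (mm w) = chi p (mm w) := by
        by_contra hne
        apply c2
        simp only [A2, hA, endgA, mem_filter, mem_Ico]
        exact ⟨⟨⟨hm0, by omega⟩, by omega, hne⟩, by omega⟩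
      refine ⟨q * mm w, w.1 * dd w, Nat.mul_pos hq.pos hm0, hpos, hm, ?_, ?_⟩
      · have e1 := endg_chi_compl hp4 hm
        rw [endg_chi_mul, endg_chi_mul, hq1, hb3, hc] at e1
        rw [endg_lam_mul, endg_lam_prime hq, l2]
        linarith
      · rw [endg_lam_mul, endg_lam_prime hb1, l1, hc]
        norm_num
  have hsum := Finset.sum_le_sum hbad
  rw [Finset.sum_const, nsmul_eq_mul, mul_one, Finset.sum_add_distrib, ← Finset.mul_sum,
    Finset.sum_add_distrib] at hsum
  have hT : (T.card : ℝ) = PB.card * K := by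
    simp only [T, card_product, card_range]; push_cast; rfl
  have b1 : ∑ w ∈ T, (if dd w ∈ A then (1 : ℝ) else 0) ≤ ((B / q + 1 : ℕ) : ℝ) * A1.card := by
    have := endg_fibre (K := K) hq hN PB (fun b hb => (hPB b hb).2.1) d0 hd
      (fun d => if d ∈ A then (1 : ℝ) else 0) (fun n => by split_ifs <;> norm_num)
    refine le_trans this (le_of_eq ?_)
    rw [Finset.sum_boole]
  have b2 : ∑ w ∈ T, (if mm w ∈ A2 then (1 : ℝ) else 0) ≤ W * A2.card := by
    rw [Finset.sum_boole]
    have : (T.filter fun w => mm w ∈ A2).card ≤ W * A2.card := by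
      apply Finset.card_le_mul_card_image_of_maps_to (f := mm)
      · intro w hw
        exact (mem_filter.mp hw).2
      · intro m hm
        have hm' : q * m < 2 * p := (mem_filter.mp hm).2
        refine le_trans ?_ (endg_omega (n := 2 * p - q * m) (N := 2 * p) (by omega) (by omega))
        apply Finset.card_le_card_of_injOn (fun w => w.1)
        · intro w hw
          have hw1 := mem_filter.mp hw
          have hw2 := (mem_filter.mp hw1.1).1
          have e := hmm w hw2
          rw [hw1.2] at e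
          simp only [Finset.mem_coe, Nat.mem_primeFactors]
          exact ⟨(hPB _ (mem_product.mp hw2).1).1, ⟨dd w, by omega⟩, by omega⟩
        · intro w hw w' hw' e
          have hw1 := mem_filter.mp hw
          have hw2 := (mem_filter.mp hw1.1).1
          have hw1' := mem_filter.mp hw'
          have hw2' := (mem_filter.mp hw1'.1).1
          have e1 := hmm w hw2
          have e2 := hmm w' hw2'
          rw [hw1.2] at e1
          rw [hw1'.2] at e2
          simp only at e
          have hpos := (hPB _ (mem_product.mp hw2).1).1.pos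
          have e3 : w.1 * dd w = w.1 * dd w' := by rw [← e] at e2; omega
          have e4 := Nat.eq_of_mul_eq_mul_left hpos e3
          simp only [dd] at e4
          rw [← e] at e4
          have e5 : q * w.2 = q * w'.2 := by omega
          exact Prod.ext e (Nat.eq_of_mul_eq_mul_left hq.pos e5)
    exact_mod_cast this
  have b3 : (V : ℝ) * ∑ w ∈ T, (chi p (dd w) : ℝ) ≤
      ((B / q + 1 : ℕ) : ℝ) * Real.sqrt ((q * K : ℕ) * (p * V)) + 2 * (V : ℝ) ^ 2 * PB.card := by
    have s1 := endg_sec h p hp4 q (q * K) V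
      (fun hdv => absurd (Nat.le_of_dvd hq.pos hdv) (by omega)) hDp hV
    have s2 := endg_fibre (K := K) hq hN PB (fun b hb => (hPB b hb).2.1) d0 hd
      (fun d => |∑ v ∈ range V, (chi p (d + q * v) : ℝ)|) (fun n => abs_nonneg _)
    have s3 : (V : ℝ) * ∑ w ∈ T, (chi p (dd w) : ℝ) ≤
        ∑ w ∈ PB ×ˢ range K, |∑ v ∈ range V, (chi p (d0 w.1 + q * w.2 + q * v) : ℝ)| +
          2 * (V : ℝ) ^ 2 * PB.card := by
      simp only [T, dd]
      rw [Finset.sum_product, Finset.sum_product, Finset.mul_sum, mul_comm _ (PB.card : ℝ),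
        ← nsmul_eq_mul, ← Finset.sum_const, ← Finset.sum_add_distrib]
      apply Finset.sum_le_sum
      intro b _
      have := endg_shift2 (fun k => (chi p (d0 b + q * k) : ℝ))
        (fun n => by exact_mod_cast endg_chi_abs p _) K V
      simpa only [mul_add, add_assoc] using this
    have s4 := mul_le_mul_of_nonneg_left s1 (show (0 : ℝ) ≤ ((B / q + 1 : ℕ) : ℝ) by positivity)
    linarith
  have hV0 : (0 : ℝ) ≤ V := by positivity
  rw [hT] at hsum
  have := mul_le_mul_of_nonneg_left hsum hV0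
  have c1 := mul_le_mul_of_nonneg_left b1 hV0
  have c2 := mul_le_mul_of_nonneg_left b2 hV0
  nlinarith

end Pool.Agent.H753Z.SG
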