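import Pool.Agent.H753Z.SG.Eqa1

/-!
Task EQA: equidistribution of the products `u * m` modulo a prime.
-/

set_option autoImplicit false

namespace Pool.Agent.H753Z.SG

open Finset Filter

theorem eqa_ne_zero (p : ℕ) [Fact p.Prime] (u : ℕ) (h1 : 1 ≤ u) (h2 : u < p) :
    (u : ZMod p) ≠ 0 := by
  intro h
  rw [ZMod.natCast_eq_zero_iff] at h
  exact absurd (Nat.le_of_dvd h1 h) (not_le.mpr h2)

theorem eqa_count (p : ℕ) [Fact p.Prime] (U : Finset ℕ) (M : ℕ) (E : Finset (ZMod p))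
    (hE : (0 : ZMod p) ∉ E) :
    ((p : ℂ) - 1) *
      (((U ×ˢ Icc 1 M).filter fun w => ((w.1 * w.2 : ℕ) : ZMod p) ∈ E).card : ℂ) =
    ∑ ψ : DirichletCharacter ℂ p, (∑ e ∈ E, ψ e⁻¹) *
      ((∑ u ∈ U, ψ (u : ZMod p)) * ∑ m ∈ Icc 1 M, ψ (m : ZMod p)) := by
  have h1 : ∀ ψ : DirichletCharacter ℂ p, (∑ e ∈ E, ψ e⁻¹) *
      ((∑ u ∈ U, ψ (u : ZMod p)) * ∑ m ∈ Icc 1 M, ψ (m : ZMod p)) =
      ∑ w ∈ U ×ˢ Icc 1 M, ∑ e ∈ E, ψ e⁻¹ * ψ ((w.1 * w.2 : ℕ) : ZMod p) := by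
    intro ψ
    rw [Finset.sum_mul_sum U, ← Finset.sum_product', Finset.mul_sum]
    refine Finset.sum_congr rfl fun w _ => ?_
    rw [Finset.sum_mul]
    refine Finset.sum_congr rfl fun e _ => ?_
    rw [Nat.cast_mul, map_mul]
  rw [Finset.sum_congr rfl fun ψ _ => h1 ψ, Finset.sum_comm, Finset.card_filter]
  push_cast
  rw [Finset.mul_sum]
  refine Finset.sum_congr rfl fun w _ => ?_
  rw [Finset.sum_comm]
  have h2 : ∀ e ∈ E, ∑ ψ : DirichletCharacter ℂ p, ψ e⁻¹ * ψ ((w.1 : ZMod p) * (w.2 : ZMod p)) =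
      if e = (w.1 : ZMod p) * (w.2 : ZMod p) then ((p : ℂ) - 1) else 0 := fun e he =>
    eqa_orth p e _ fun h => hE (h ▸ he)
  rw [Finset.sum_congr rfl h2, Finset.sum_ite_eq']
  split_ifs <;> simp

theorem eqa_main (p : ℕ) [Fact p.Prime] (U : Finset ℕ) (hU : ∀ u ∈ U, 1 ≤ u ∧ u < p) (M : ℕ)
    (hM : M < p) (E : Finset (ZMod p)) (hE : (0 : ZMod p) ∉ E) (P : ℝ) (hP0 : 0 ≤ P)
    (hP : ∀ ψ : DirichletCharacter ℂ p, ψ ≠ 1 → ‖∑ m ∈ Icc 1 M, ψ (m : ZMod p)‖ ≤ P) :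
    (U.card : ℝ) * M * ((E.card : ℝ) / ((p : ℝ) - 1)) - P * Real.sqrt (E.card * U.card) ≤
      (((U ×ˢ Icc 1 M).filter fun w => ((w.1 * w.2 : ℕ) : ZMod p) ∈ E).card : ℝ) := by
  classical
  have hp : p.Prime := Fact.out
  have hp1 : (0 : ℝ) < (p : ℝ) - 1 := by
    have : (1 : ℝ) < p := by exact_mod_cast hp.one_lt
    linarith
  set N : ℕ := ((U ×ˢ Icc 1 M).filter fun w => ((w.1 * w.2 : ℕ) : ZMod p) ∈ E).card with hN
  set a : DirichletCharacter ℂ p → ℂ := fun ψ => ∑ e ∈ E, ψ e⁻¹ with ha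
  set b : DirichletCharacter ℂ p → ℂ := fun ψ => ∑ u ∈ U, ψ (u : ZMod p) with hb
  set c : DirichletCharacter ℂ p → ℂ := fun ψ => ∑ m ∈ Icc 1 M, ψ (m : ZMod p) with hc
  have h0 : ((p : ℂ) - 1) * (N : ℂ) = ∑ ψ, a ψ * (b ψ * c ψ) := eqa_count p U M E hE
  have hone : ∀ x : ZMod p, x ≠ 0 → (1 : DirichletCharacter ℂ p) x = 1 := fun x hx =>
    MulChar.one_apply (isUnit_iff_ne_zero.mpr hx)
  have ha1 : a 1 = E.card := by
    simp only [ha]
    rw [Finset.sum_congr rfl fun e he => hone e⁻¹ (inv_ne_zero fun h => hE (h ▸ he))]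
    simp
  have hb1 : b 1 = U.card := by
    simp only [hb]
    rw [Finset.sum_congr rfl fun u hu => hone _ (eqa_ne_zero p u (hU u hu).1 (hU u hu).2)]
    simp
  have hc1 : c 1 = M := by
    simp only [hc]
    rw [Finset.sum_congr rfl fun m hm => hone _ (eqa_ne_zero p m (Finset.mem_Icc.mp hm).1
      (lt_of_le_of_lt (Finset.mem_Icc.mp hm).2 hM))]
    simp
  have hpa : ∑ ψ, ‖a ψ‖ ^ 2 = ((p : ℝ) - 1) * E.card :=
    eqa_parseval p E (fun e => e⁻¹) (fun e he => inv_ne_zero fun h => hE (h ▸ he))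
      fun x _ y _ h => inv_injective h
  have hpb : ∑ ψ, ‖b ψ‖ ^ 2 = ((p : ℝ) - 1) * U.card :=
    eqa_parseval p U (fun u => (u : ZMod p))
      (fun u hu => eqa_ne_zero p u (hU u hu).1 (hU u hu).2) fun x hx y hy h => by
        have h' : (x : ZMod p) = (y : ZMod p) := h
        rwa [ZMod.natCast_eq_natCast_iff', Nat.mod_eq_of_lt (hU x hx).2,
          Nat.mod_eq_of_lt (hU y hy).2] at h'
  rw [← Finset.add_sum_erase _ _ (Finset.mem_univ (1 : DirichletCharacter ℂ p)), ha1, hb1,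
    hc1] at h0
  set R := ∑ ψ ∈ (univ : Finset (DirichletCharacter ℂ p)).erase 1, a ψ * (b ψ * c ψ) with hR
  have hR1 : ‖R‖ ≤ P * (((p : ℝ) - 1) * Real.sqrt (E.card * U.card)) := by
    have h1 : ‖R‖ ≤ ∑ ψ ∈ (univ : Finset (DirichletCharacter ℂ p)).erase 1,
        P * (‖a ψ‖ * ‖b ψ‖) := by
      refine (norm_sum_le _ _).trans (Finset.sum_le_sum fun ψ hψ => ?_)
      rw [norm_mul, norm_mul]
      have h2 : ‖c ψ‖ ≤ P := hP ψ (Finset.mem_erase.mp hψ).1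
      have h3 : 0 ≤ ‖a ψ‖ * ‖b ψ‖ := by positivity
      nlinarith
    have h4 : ∑ ψ ∈ (univ : Finset (DirichletCharacter ℂ p)).erase 1, P * (‖a ψ‖ * ‖b ψ‖) ≤
        ∑ ψ, P * (‖a ψ‖ * ‖b ψ‖) :=
      Finset.sum_le_sum_of_subset_of_nonneg (Finset.subset_univ _) fun _ _ _ => by positivity
    have h5 := Real.sum_mul_le_sqrt_mul_sqrt univ (fun ψ => ‖a ψ‖) (fun ψ => ‖b ψ‖)
    rw [hpa, hpb, ← Real.sqrt_mul (by positivity),
      show ((p : ℝ) - 1) * E.card * (((p : ℝ) - 1) * U.card) =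
        ((p : ℝ) - 1) ^ 2 * (E.card * U.card) by ring,
      Real.sqrt_mul (sq_nonneg _), Real.sqrt_sq hp1.le] at h5
    rw [← Finset.mul_sum univ] at h4
    exact h1.trans (h4.trans (mul_le_mul_of_nonneg_left h5 hP0))
  have h6 : ((p : ℝ) - 1) * (N : ℝ) = E.card * (U.card * M) + R.re := by
    have := congrArg Complex.re h0
    simpa using this
  have h7 : -‖R‖ ≤ R.re := by
    have := Complex.abs_re_le_norm R
    exact (abs_le.mp this).1
  have h8 : (U.card : ℝ) * M * ((E.card : ℝ) / ((p : ℝ) - 1)) - P * Real.sqrt (E.card * U.card) =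
      (E.card * (U.card * M) - P * (((p : ℝ) - 1) * Real.sqrt (E.card * U.card))) /
        ((p : ℝ) - 1) := by
    field_simp
  rw [h8, div_le_iff₀ hp1]
  linarith

theorem eqa : EQA := by
  have hev : ∀ᶠ p : ℕ in atTop, (5 : ℝ) ≤ (p : ℝ) ^ (5 / 1000 : ℝ) :=
    ((tendsto_rpow_atTop (by norm_num : (0 : ℝ) < 5 / 1000)).comp
      tendsto_natCast_atTop_atTop).eventually_ge_atTop 5
  filter_upwards [hev] with p h5 _ U hU hcard M hM1 hM2 E hE
  have hp : p.Prime := Fact.out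
  have hp1 : (1 : ℝ) ≤ p := by exact_mod_cast hp.one_le
  have hp0 : (0 : ℝ) < p := by linarith
  set t : ℝ := (p : ℝ) ^ (5 / 1000 : ℝ) with ht
  have ht0 : 0 < t := by linarith
  have hpow : ∀ k : ℕ, t ^ k = (p : ℝ) ^ ((5 / 1000 : ℝ) * k) := fun k => by
    rw [ht, ← Real.rpow_natCast, ← Real.rpow_mul hp0.le]
  have e200 : t ^ 200 = p := by rw [hpow]; norm_num
  have e108 : t ^ 108 = (p : ℝ) ^ (54 / 100 : ℝ) := by rw [hpow]; norm_num
  have e198 : t ^ 198 = (p : ℝ) ^ (99 / 100 : ℝ) := by rw [hpow]; norm_num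
  have e2 : (t ^ 2)⁻¹ = (p : ℝ) ^ (-(1 / 100) : ℝ) := by
    rw [hpow, Real.rpow_neg hp0.le]; norm_num
  rw [← e108] at hM1
  rw [← e198] at hcard
  rw [← e2]
  have ht1 : (1 : ℝ) ≤ t := by linarith
  set V : ℕ := ⌈t ^ 104⌉₊ with hV
  have hV1 : t ^ 104 ≤ V := Nat.le_ceil _
  have h104 : (1 : ℝ) ≤ t ^ 104 := one_le_pow₀ ht1
  have hV2 : (V : ℝ) ≤ 2 * t ^ 104 := by
    have := Nat.ceil_lt_add_one (a := t ^ 104) (by positivity)
    linarith
  have hV0 : 0 < V := by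
    have : (0 : ℝ) < V := by linarith
    exact_mod_cast this
  have hVp : V ≤ p := by
    rw [hV, Nat.ceil_le, ← e200]
    exact pow_le_pow_right₀ ht1 (by norm_num)
  have hM0 : (0 : ℝ) < M := lt_of_lt_of_le (by positivity) hM1
  have hU0 : (0 : ℝ) < U.card := lt_of_lt_of_le (by positivity) hcard
  have key := eqa_main p U hU M hM2 E hE (Real.sqrt (M * p / V) + 2 * V) (by positivity)
    fun ψ hψ => eqa_short p ψ hψ M V hM2.le hVp hV0
  have hA : Real.sqrt (M * p / V) ≤ M / t ^ 4 := by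
    refine Real.sqrt_le_iff.mpr ⟨by positivity, ?_⟩
    have hVr : (0 : ℝ) < V := by linarith
    rw [div_pow, div_le_div_iff₀ hVr (by positivity), ← e200]
    have h1 : t ^ 200 * (t ^ 4) ^ 2 ≤ t ^ 108 * t ^ 104 := by
      rw [← pow_mul, ← pow_add, ← pow_add]
      exact pow_le_pow_right₀ ht1 (by norm_num)
    have h2 : t ^ 108 * t ^ 104 ≤ M * V := mul_le_mul hM1 hV1 (by positivity) hM0.le
    calc (M : ℝ) * t ^ 200 * (t ^ 4) ^ 2 = (M : ℝ) * (t ^ 200 * (t ^ 4) ^ 2) := by ring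
      _ ≤ (M : ℝ) * ((M : ℝ) * V) := mul_le_mul_of_nonneg_left (h1.trans h2) hM0.le
      _ = (M : ℝ) ^ 2 * V := by ring
  have hB : 2 * (V : ℝ) ≤ 4 * (M / t ^ 4) := by
    have h1 : t ^ 104 ≤ M / t ^ 4 := by
      rw [le_div_iff₀ (by positivity), ← pow_add]
      exact hM1
    linarith
  have hC : Real.sqrt (E.card * U.card) ≤ U.card * t := by
    refine Real.sqrt_le_iff.mpr ⟨by positivity, ?_⟩
    have h1 : (E.card : ℝ) ≤ p := by
      have := Finset.card_le_univ E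
      rw [ZMod.card] at this
      exact_mod_cast this
    have h2 : (p : ℝ) ≤ U.card * t ^ 2 := by
      rw [← e200, show t ^ 200 = t ^ 198 * t ^ 2 by ring]
      exact mul_le_mul_of_nonneg_right hcard (by positivity)
    calc (E.card : ℝ) * U.card ≤ (U.card * t ^ 2) * U.card :=
          mul_le_mul_of_nonneg_right (h1.trans h2) hU0.le
      _ = (U.card * t) ^ 2 := by ring
  have hD : (Real.sqrt (M * p / V) + 2 * V) * Real.sqrt (E.card * U.card) ≤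
      (U.card : ℝ) * M * (t ^ 2)⁻¹ := by
    calc (Real.sqrt (M * p / V) + 2 * V) * Real.sqrt (E.card * U.card)
        ≤ (5 * (M / t ^ 4)) * (U.card * t) :=
          mul_le_mul (by linarith) hC (Real.sqrt_nonneg _) (by positivity)
      _ ≤ (t * (M / t ^ 4)) * (U.card * t) := by gcongr
      _ = (U.card : ℝ) * M * (t ^ 2)⁻¹ := by field_simp
  rw [mul_sub]
  linarith

end Pool.Agent.H753Z.SG
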