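import Pool.Agent.H753Z.SG.Sec

/-!
Task EQA, part 1: short character sums by the shift trick, and orthogonality.
-/

set_option autoImplicit false

namespace Pool.Agent.H753Z.SG

open Finset

theorem eqa_shift (g : ℕ → ℂ) (hg : ∀ n, ‖g n‖ ≤ 1) (M v : ℕ) :
    ‖∑ m ∈ range M, g (m + v) - ∑ m ∈ range M, g m‖ ≤ 2 * v := by
  induction v with
  | zero => simp
  | succ v ih =>
    have h1 : ∑ m ∈ range M, g (m + (v + 1)) =
        ∑ m ∈ range M, g (m + v) + (g (M + v) - g (0 + v)) := by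
      have h2 := Finset.sum_range_succ (fun m => g (m + v)) M
      have h3 := Finset.sum_range_succ' (fun m => g (m + v)) M
      have h4 : ∑ m ∈ range M, g (m + (v + 1)) = ∑ m ∈ range M, g (m + 1 + v) :=
        Finset.sum_congr rfl fun m _ => by rw [add_assoc, add_comm 1 v]
      rw [h4]
      linear_combination h2 - h3
    rw [h1]
    have h5 : ‖g (M + v) - g (0 + v)‖ ≤ 2 := by
      have := norm_sub_le (g (M + v)) (g (0 + v))
      have := hg (M + v)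
      have := hg (0 + v)
      linarith
    calc ‖∑ m ∈ range M, g (m + v) + (g (M + v) - g (0 + v)) - ∑ m ∈ range M, g m‖
        = ‖(∑ m ∈ range M, g (m + v) - ∑ m ∈ range M, g m) + (g (M + v) - g (0 + v))‖ := by
          congr 1; ring
      _ ≤ ‖∑ m ∈ range M, g (m + v) - ∑ m ∈ range M, g m‖ + ‖g (M + v) - g (0 + v)‖ :=
          norm_add_le _ _
      _ ≤ 2 * ((v + 1 : ℕ) : ℝ) := by push_cast; linarith

theorem eqa_Icc (g : ℕ → ℂ) (M : ℕ) : ∑ m ∈ Icc 1 M, g m = ∑ m ∈ range M, g (m + 1) := by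
  rw [Finset.range_eq_Ico, Finset.sum_Ico_add' g 0 M 1]
  rfl

theorem eqa_short (p : ℕ) [Fact p.Prime] (ψ : DirichletCharacter ℂ p) (hψ : ψ ≠ 1)
    (M V : ℕ) (hM : M ≤ p) (hV : V ≤ p) (hV0 : 0 < V) :
    ‖∑ m ∈ Icc 1 M, ψ (m : ZMod p)‖ ≤ Real.sqrt (M * p / V) + 2 * V := by
  have hVr : (0 : ℝ) < V := by exact_mod_cast hV0
  rw [eqa_Icc (fun m => ψ (m : ZMod p))]
  set g : ℕ → ℂ := fun m => ψ (((m + 1 : ℕ) : ZMod p)) with hg
  have hg1 : ∀ n, ‖g n‖ ≤ 1 := fun n => eqa_norm_le p ψ _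
  set S := ∑ m ∈ range M, g m with hS
  set T := ∑ m ∈ range M, ∑ v ∈ range V, g (m + v) with hT
  have h1 : ‖T - V * S‖ ≤ V * (2 * V) := by
    have h2 : T - V * S = ∑ v ∈ range V, (∑ m ∈ range M, g (m + v) - S) := by
      rw [Finset.sum_sub_distrib, hT, Finset.sum_comm]
      simp
    rw [h2]
    calc ‖∑ v ∈ range V, (∑ m ∈ range M, g (m + v) - S)‖
        ≤ ∑ v ∈ range V, ‖∑ m ∈ range M, g (m + v) - S‖ := norm_sum_le _ _
      _ ≤ ∑ _v ∈ range V, (2 * V : ℝ) := by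
          refine Finset.sum_le_sum fun v hv => ?_
          have h3 := eqa_shift g hg1 M v
          have h4 : (v : ℝ) ≤ V := by exact_mod_cast (Finset.mem_range.mp hv).le
          linarith
      _ = V * (2 * V) := by simp
  set F : ZMod p → ℝ := fun x => ‖∑ v ∈ range V, ψ (x + 1 * (v : ZMod p))‖ with hF
  have h5 : ∀ m : ℕ, ‖∑ v ∈ range V, g (m + v)‖ = F ((m + 1 : ℕ) : ZMod p) := by
    intro m
    simp only [hF, hg]
    congr 1
    refine Finset.sum_congr rfl fun v _ => ?_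
    congr 1
    push_cast
    ring
  have h6 : ∑ m ∈ range M, F ((m + 1 : ℕ) : ZMod p) ^ 2 ≤ (p : ℝ) * V := by
    have hinj : Set.InjOn (fun m : ℕ => ((m + 1 : ℕ) : ZMod p)) (range M : Finset ℕ) := by
      intro a ha b hb hab
      have ha' : a < p := lt_of_lt_of_le (Finset.mem_range.mp (Finset.mem_coe.mp ha)) hM
      have hb' : b < p := lt_of_lt_of_le (Finset.mem_range.mp (Finset.mem_coe.mp hb)) hM
      have h7 : (a : ZMod p) = (b : ZMod p) := by
        have : ((a : ZMod p) + 1) = (b : ZMod p) + 1 := by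
          simpa using hab
        exact add_right_cancel this
      rw [ZMod.natCast_eq_natCast_iff', Nat.mod_eq_of_lt ha', Nat.mod_eq_of_lt hb'] at h7
      exact h7
    calc ∑ m ∈ range M, F ((m + 1 : ℕ) : ZMod p) ^ 2
        = ∑ x ∈ (range M).image (fun m : ℕ => ((m + 1 : ℕ) : ZMod p)), F x ^ 2 := by
          rw [Finset.sum_image hinj]
      _ ≤ ∑ x : ZMod p, F x ^ 2 :=
          Finset.sum_le_sum_of_subset_of_nonneg (Finset.subset_univ _) fun _ _ _ => sq_nonneg _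
      _ ≤ (p : ℝ) * V := sec p ψ hψ 1 one_ne_zero V hV
  have h8 : ‖T‖ ≤ Real.sqrt (M * (p * V)) := by
    have h9 : ‖T‖ ≤ ∑ m ∈ range M, F ((m + 1 : ℕ) : ZMod p) := by
      calc ‖T‖ ≤ ∑ m ∈ range M, ‖∑ v ∈ range V, g (m + v)‖ := norm_sum_le _ _
        _ = _ := Finset.sum_congr rfl fun m _ => h5 m
    have h10 : (∑ m ∈ range M, F ((m + 1 : ℕ) : ZMod p)) ^ 2 ≤ M * (p * V) := by
      have h11 := sq_sum_le_card_mul_sum_sq (s := range M)
        (f := fun m : ℕ => F ((m + 1 : ℕ) : ZMod p))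
      rw [Finset.card_range] at h11
      calc _ ≤ _ := h11
        _ ≤ (M : ℝ) * (p * V) := mul_le_mul_of_nonneg_left h6 (Nat.cast_nonneg _)
    exact h9.trans (Real.le_sqrt_of_sq_le h10)
  have h12 : Real.sqrt (M * (p * V)) = V * Real.sqrt (M * p / V) := by
    rw [show (M : ℝ) * (p * V) = (V : ℝ) ^ 2 * (M * p / V) by field_simp,
      Real.sqrt_mul (sq_nonneg _), Real.sqrt_sq hVr.le]
  have h13 : (V : ℝ) * ‖S‖ ≤ V * (Real.sqrt (M * p / V) + 2 * V) := by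
    have h14 : (V : ℝ) * ‖S‖ = ‖(V : ℂ) * S‖ := by simp
    have h15 : ‖(V : ℂ) * S‖ ≤ ‖T‖ + ‖T - V * S‖ := by
      have := norm_sub_le T (T - V * S)
      rwa [sub_sub_cancel] at this
    rw [h14]
    nlinarith
  exact le_of_mul_le_mul_left h13 hVr

theorem eqa_orth (p : ℕ) [Fact p.Prime] (a b : ZMod p) (ha : a ≠ 0) :
    ∑ ψ : DirichletCharacter ℂ p, ψ a⁻¹ * ψ b = if a = b then ((p : ℂ) - 1) else 0 := by
  have hp : p.Prime := Fact.out
  rw [DirichletCharacter.sum_char_inv_mul_char_eq ℂ (isUnit_iff_ne_zero.mpr ha) b,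
    Nat.totient_prime hp, Nat.cast_sub hp.one_le]
  simp

theorem eqa_parseval (p : ℕ) [Fact p.Prime] {ι : Type*} [DecidableEq ι] (s : Finset ι)
    (f : ι → ZMod p) (hf0 : ∀ a ∈ s, f a ≠ 0) (hinj : ∀ a ∈ s, ∀ b ∈ s, f a = f b → a = b) :
    ∑ ψ : DirichletCharacter ℂ p, ‖∑ a ∈ s, ψ (f a)‖ ^ 2 = ((p : ℝ) - 1) * s.card := by
  have h1 : ∑ ψ : DirichletCharacter ℂ p, ‖∑ a ∈ s, ψ (f a)‖ ^ 2 =
      (∑ a ∈ s, ∑ b ∈ s, ∑ ψ : DirichletCharacter ℂ p, ψ (f b)⁻¹ * ψ (f a)).re := by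
    simp_rw [eqa_normsq_sum]
    rw [← Complex.re_sum]
    congr 1
    rw [Finset.sum_comm]
    refine Finset.sum_congr rfl fun a _ => ?_
    rw [Finset.sum_comm]
    refine Finset.sum_congr rfl fun b _ => Finset.sum_congr rfl fun ψ _ => ?_
    rw [MulChar.star_apply', MulChar.inv_apply', mul_comm]
  have h2 : ∀ a ∈ s, ∑ b ∈ s, ∑ ψ : DirichletCharacter ℂ p, ψ (f b)⁻¹ * ψ (f a) =
      (p : ℂ) - 1 := by
    intro a ha
    rw [Finset.sum_eq_single a]
    · rw [eqa_orth p _ _ (hf0 a ha), if_pos rfl]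
    · intro b hb hba
      rw [eqa_orth p _ _ (hf0 b hb), if_neg fun h => hba (hinj b hb a ha h)]
    · intro h
      exact absurd ha h
  rw [h1, Finset.sum_congr rfl h2]
  simp
  ring

end Pool.Agent.H753Z.SG
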