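import Pool.Agent.H753Z.SG.Defs
import Pool.Agent.H216Z.ZFR

/-!
The bound for the reciprocal of the zeta function in the classical zero-free region.
-/

set_option autoImplicit false

namespace Pool.Agent.H753Z.SG

open Finset Complex

theorem invz_sum (σ : ℝ) (hσ : 1 < σ) (n : ℕ) :
    ∑ i ∈ range n, (if i = 0 then 0 else 1 / (i : ℝ) ^ σ) ≤ 1 + 1 / (σ - 1) := by
  have hpos : 0 < 1 / (σ - 1) := by
    have : 0 < σ - 1 := by linarith
    positivity
  rcases n with _ | _ | n
  · simp only [range_zero, sum_empty]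
    linarith
  · simp only [zero_add, range_one, sum_singleton, if_true]
    linarith
  rw [sum_range_succ', sum_range_succ']
  have anti : AntitoneOn (fun x : ℝ => x ^ (-σ)) (Set.Icc 1 (1 + n)) := by
    intro x hx y _ hxy
    exact Real.rpow_le_rpow_of_nonpos (by linarith [hx.1]) hxy (by linarith)
  have h1 := anti.sum_le_integral
  have hn : (0 : ℝ) ≤ n := Nat.cast_nonneg n
  rw [integral_rpow (Or.inr ⟨by linarith, by
    rw [Set.uIcc_of_le (by linarith)]
    intro h
    linarith [h.1]⟩)] at h1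
  have h2 : ((1 + n : ℝ) ^ (-σ + 1) - 1 ^ (-σ + 1)) / (-σ + 1) ≤ 1 / (σ - 1) := by
    have : 0 ≤ (1 + n : ℝ) ^ (-σ + 1) := by positivity
    rw [Real.one_rpow, show -σ + 1 = -(σ - 1) by ring, div_neg, ← neg_div]
    rw [show -σ + 1 = -(σ - 1) by ring] at this
    exact div_le_div_of_nonneg_right (by linarith) (by linarith)
  have h3 : ∑ i ∈ range n, (if i + 1 + 1 = 0 then 0 else 1 / ((i + 1 + 1 : ℕ) : ℝ) ^ σ) =
      ∑ i ∈ range n, (1 + ((i + 1 : ℕ) : ℝ)) ^ (-σ) := by
    refine sum_congr rfl fun i _ => ?_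
    rw [if_neg (by omega), Real.rpow_neg (by positivity), one_div]
    congr 2
    push_cast
    ring
  rw [h3]
  simp only [zero_add, one_ne_zero, if_false, Nat.cast_one, Real.one_rpow, if_true]
  linarith

theorem invz_right (s : ℂ) (hs : 1 < s.re) :
    ‖(s - 1) / riemannZeta₁ s‖ ≤ 1 + 1 / (s.re - 1) := by
  have hs1 : s ≠ 1 := by
    rintro rfl
    simp at hs
  have h1 := LSeries_one_mul_Lseries_moebius hs
  rw [LSeries_one_eq_riemannZeta hs, riemannZeta_eq_inv_sub_mul hs1] at h1
  have h0 : s - 1 ≠ 0 := sub_ne_zero.2 hs1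
  have hz : riemannZeta₁ s ≠ 0 := by
    intro h
    rw [h] at h1
    simp at h1
  have e : (s - 1) / riemannZeta₁ s =
      LSeries (fun n => ((ArithmeticFunction.moebius n : ℤ) : ℂ)) s := by
    rw [div_eq_iff hz]
    field_simp at h1
    linear_combination -h1
  rw [e, LSeries]
  have hb : ∀ n : ℕ, ‖LSeries.term (fun n => ((ArithmeticFunction.moebius n : ℤ) : ℂ)) s n‖ ≤
      (if n = 0 then 0 else 1 / (n : ℝ) ^ s.re) := by
    intro n
    rw [LSeries.norm_term_eq]
    split_ifs
    · exact le_rfl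
    · refine div_le_div_of_nonneg_right ?_ (by positivity)
      rw [Complex.norm_intCast]
      exact_mod_cast ArithmeticFunction.abs_moebius_le_one
  have hnn : ∀ n : ℕ, (0 : ℝ) ≤ (if n = 0 then 0 else 1 / (n : ℝ) ^ s.re) := by
    intro n
    split_ifs
    · exact le_rfl
    · positivity
  have hsum := summable_of_sum_range_le hnn (invz_sum s.re hs)
  exact (tsum_of_norm_bounded hsum.hasSum hb).trans
    (Real.tsum_le_of_sum_range_le hnn (invz_sum s.re hs))

theorem invz : INVZ := by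
  obtain ⟨c, C, hc, hc4, hC, H⟩ := Pool.Agent.H216Z.ZFR.zfr
  refine ⟨c, 2 * Real.exp (2 * C), hc, hc4, by positivity, fun s h1 h2 => ⟨(H s h1 h2).1, ?_⟩⟩
  set l := Real.log (|s.im| + 3) with hl
  have l1 : 1 ≤ l := by
    rw [hl, Real.le_log_iff_exp_le (by positivity)]
    have := Real.exp_one_lt_d9
    have := abs_nonneg s.im
    linarith
  have l0 : 0 < l := by linarith
  have li : 1 / l ≤ 1 := (div_le_one l0).2 l1
  have li0 : 0 < 1 / l := by positivity
  have ex : 1 ≤ Real.exp (2 * C) := Real.one_le_exp (by positivity)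
  rcases le_total (1 + 1 / l) s.re with h | h
  · refine (invz_right s (by linarith)).trans ?_
    have : 1 / (s.re - 1) ≤ l := by
      rw [div_le_iff₀ (by linarith)]
      have : l * (1 / l) = 1 := by field_simp
      nlinarith
    nlinarith
  set s0 : ℂ := ((1 + 1 / l : ℝ) : ℂ) + s.im * I with hs0
  have re0 : s0.re = 1 + 1 / l := by simp [hs0]
  have im0 : s0.im = s.im := by simp [hs0]
  set d := 1 + 1 / l - s.re with hd
  have d0 : 0 ≤ d := by linarith
  have cl : c / l ≤ 1 / l := div_le_div_of_nonneg_right (by linarith) l0.le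
  have d2 : d ≤ 2 * (1 / l) := by linarith
  have reg : ∀ u ∈ Set.Icc 0 d, riemannZeta₁ (s0 - u) ≠ 0 ∧
      ‖deriv riemannZeta₁ (s0 - u) / riemannZeta₁ (s0 - u)‖ ≤ C * l := by
    intro u hu
    have e1 : (s0 - u).im = s.im := by simp [im0]
    have e2 : (s0 - u).re = 1 + 1 / l - u := by simp [re0]
    have := H (s0 - u) (by
      rw [e1, e2]
      change 1 - c / l ≤ _
      linarith [hu.2]) (by rw [e2]; linarith [hu.1])
    rwa [e1] at this
  have der : ∀ u ∈ Set.Icc 0 d, HasDerivAt (fun u : ℝ => (riemannZeta₁ (s0 - u))⁻¹)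
      (deriv riemannZeta₁ (s0 - u) / riemannZeta₁ (s0 - u) * (riemannZeta₁ (s0 - u))⁻¹) u := by
    intro u hu
    have a1 : HasDerivAt (fun z : ℂ => riemannZeta₁ (s0 - z))
        (deriv riemannZeta₁ (s0 - u) * (-1)) (u : ℂ) :=
      (differentiable_riemannZeta₁ (s0 - u)).hasDerivAt.comp (u : ℂ)
        ((hasDerivAt_id (u : ℂ)).const_sub s0)
    have a2 := (a1.inv (reg u hu).1).comp_ofReal
    have := (reg u hu).1
    refine HasDerivAt.congr_deriv a2 ?_
    field_simp
  have gr := norm_le_gronwallBound_of_norm_deriv_right_le (a := 0) (b := d)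
    (δ := ‖(riemannZeta₁ s0)⁻¹‖) (K := C * l) (ε := 0)
    (fun u hu => (der u hu).continuousAt.continuousWithinAt)
    (fun u hu => (der u (Set.Ico_subset_Icc_self hu)).hasDerivWithinAt) (by simp)
    (fun u hu => by
      rw [norm_mul, add_zero]
      exact mul_le_mul_of_nonneg_right (reg u (Set.Ico_subset_Icc_self hu)).2 (norm_nonneg _))
    d ⟨d0, le_rfl⟩
  have es : s0 - (d : ℂ) = s := by
    apply Complex.ext
    · simp [re0, hd]
    · simp [im0]
  rw [es, gronwallBound_ε0, sub_zero] at gr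
  have e3 : Real.exp (C * l * d) ≤ Real.exp (2 * C) := by
    apply Real.exp_le_exp.2
    have : l * (1 / l) = 1 := by field_simp
    nlinarith [mul_le_mul_of_nonneg_left d2 (mul_pos hC l0).le]
  have n1 : ‖s - 1‖ ≤ ‖s0 - 1‖ := by
    rw [← sq_le_sq₀ (norm_nonneg _) (norm_nonneg _), Complex.sq_norm, Complex.sq_norm,
      Complex.normSq_apply, Complex.normSq_apply]
    simp only [Complex.sub_re, Complex.sub_im, Complex.one_re, Complex.one_im, re0, im0]
    nlinarith
  have n2 := invz_right s0 (by rw [re0]; linarith)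
  rw [re0, add_sub_cancel_left, one_div_one_div, div_eq_mul_inv, norm_mul] at n2
  rw [div_eq_mul_inv, norm_mul]
  calc ‖s - 1‖ * ‖(riemannZeta₁ s)⁻¹‖
      ≤ ‖s0 - 1‖ * (‖(riemannZeta₁ s0)⁻¹‖ * Real.exp (2 * C)) :=
        mul_le_mul n1 (gr.trans (mul_le_mul_of_nonneg_left e3 (norm_nonneg _))) (norm_nonneg _)
          (norm_nonneg _)
    _ ≤ (1 + l) * Real.exp (2 * C) := by
        rw [← mul_assoc]
        exact mul_le_mul_of_nonneg_right n2 (by positivity)
    _ ≤ _ := by nlinarith

end Pool.Agent.H753Z.SG
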