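import Pool.Agent.H753Z.SG.Defs

/-!
The divisor sum of the Liouville function is the indicator of the squares.
-/

set_option autoImplicit false

namespace Pool.Agent.H753Z.SG

open Finset ArithmeticFunction

theorem pntl_isSquare_mul {a b : ℕ} (h : a.Coprime b) :
    IsSquare (a * b) ↔ IsSquare a ∧ IsSquare b := by
  constructor
  · rintro ⟨c, hc⟩
    have hc' : a * b = c ^ 2 := by rw [hc, sq]
    have h1 : IsUnit (gcd a b) := by
      rw [Nat.isUnit_iff]; exact h
    have h2 : IsUnit (gcd b a) := by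
      rw [Nat.isUnit_iff]; exact h.symm
    obtain ⟨d, hd⟩ := exists_eq_pow_of_mul_eq_pow h1 hc'
    obtain ⟨e, he⟩ := exists_eq_pow_of_mul_eq_pow h2 (by rw [mul_comm]; exact hc')
    exact ⟨⟨d, by rw [hd, sq]⟩, ⟨e, by rw [he, sq]⟩⟩
  · rintro ⟨h1, h2⟩
    exact h1.mul h2

theorem pntl_isSquare_prime_pow {p : ℕ} (hp : p.Prime) (k : ℕ) :
    IsSquare (p ^ k) ↔ Even k := by
  constructor
  · rintro ⟨c, hc⟩
    have hc0 : c ≠ 0 := by
      rintro rfl
      exact pow_ne_zero k hp.ne_zero (by simpa using hc)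
    have h1 : cardFactors (p ^ k) = cardFactors (c * c) := by rw [hc]
    rw [cardFactors_apply_prime_pow hp, cardFactors_mul hc0 hc0] at h1
    exact ⟨_, h1⟩
  · rintro ⟨m, rfl⟩
    exact ⟨p ^ m, by rw [pow_add]⟩

theorem pntl_alt_sum (k : ℕ) :
    ∑ i ∈ range (k + 1), (-1 : ℤ) ^ i = if Even k then 1 else 0 := by
  induction k with
  | zero => simp
  | succ k ih =>
    rw [sum_range_succ, ih]
    rcases Nat.even_or_odd k with h | h
    · have h' : ¬ Even (k + 1) := by
        rw [Nat.even_add_one]; exact fun g => g h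
      rw [if_pos h, if_neg h', pow_succ, h.neg_one_pow]; norm_num
    · have h0 : ¬ Even k := Nat.not_even_iff_odd.mpr h
      have h' : Even (k + 1) := by
        rw [Nat.even_add_one]; exact h0
      rw [if_neg h0, if_pos h', h'.neg_one_pow]; norm_num

theorem lam_divisor_sum (n : ℕ) (hn : n ≠ 0) :
    ∑ d ∈ n.divisors, lam d = if IsSquare n then 1 else 0 := by
  have hm : IsMultiplicative (liouville * (zeta : ArithmeticFunction ℤ)) :=
    isMultiplicative_liouville.mul isMultiplicative_zeta.natCast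
  have key : ∀ m : ℕ, ∑ d ∈ m.divisors, lam d =
      (liouville * (zeta : ArithmeticFunction ℤ)) m := fun m => by
    rw [coe_mul_zeta_apply]
  induction n using Nat.recOnPosPrimePosCoprime with
  | prime_pow p k hp hk =>
    rw [Nat.sum_divisors_prime_pow hp]
    have h1 : ∀ i ∈ range (k + 1), lam (p ^ i) = (-1 : ℤ) ^ i := fun i _ => by
      unfold lam
      rw [liouville_apply (pow_ne_zero i hp.ne_zero), cardFactors_apply_prime_pow hp]
    rw [sum_congr rfl h1, pntl_alt_sum]
    by_cases h : Even k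
    · rw [if_pos h, if_pos ((pntl_isSquare_prime_pow hp k).mpr h)]
    · rw [if_neg h, if_neg (fun g => h ((pntl_isSquare_prime_pow hp k).mp g))]
  | zero => exact absurd rfl hn
  | one => simp [lam, liouville_apply_one]
  | coprime a b ha hb hab iha ihb =>
    have ha0 : a ≠ 0 := by omega
    have hb0 : b ≠ 0 := by omega
    rw [key, hm.map_mul_of_coprime hab, ← key, ← key, iha ha0, ihb hb0]
    by_cases h1 : IsSquare a
    · by_cases h2 : IsSquare b
      · rw [if_pos h1, if_pos h2, if_pos ((pntl_isSquare_mul hab).mpr ⟨h1, h2⟩)]; norm_num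
      · rw [if_pos h1, if_neg h2, if_neg (fun g => h2 ((pntl_isSquare_mul hab).mp g).2)]; norm_num
    · rw [if_neg h1, if_neg (fun g => h1 ((pntl_isSquare_mul hab).mp g).1)]; norm_num

end Pool.Agent.H753Z.SG
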