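import Pool.Agent.H753Z.SG.Lin1
import Pool.Agent.Helper923.HMertens

/-! Project SG, task LIN. -/

set_option autoImplicit false

namespace Pool.Agent.H753Z.SG

open Finset Filter

/-- sizes of the parameters -/
theorem lin_sizes (p : ℕ) (hp : 0 < p) (hL : 1000 ≤ Real.log p) :
    ∃ X z : ℕ, (p : ℝ) ^ (54 / 100 : ℝ) ≤ X ∧ X < p ∧ (z : ℝ) ≤ (p : ℝ) ^ (45 / 100 : ℝ) ∧
      z ≤ X ∧ 2 ≤ z ∧ X * z < p ∧ (p : ℝ) ≤ 2 * (X * z) ∧
      Real.log X ≤ 1.25 * Real.log z ∧ 0.4 * Real.log p ≤ Real.log z := by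
  have hp0 : (0 : ℝ) < p := by exact_mod_cast hp
  have hp1 : (1 : ℝ) ≤ p := by exact_mod_cast hp
  set L := Real.log p with hLdef
  set a : ℝ := (p : ℝ) ^ (55 / 100 : ℝ) with ha
  set b : ℝ := (p : ℝ) ^ (45 / 100 : ℝ) with hb
  have hab : a * b = p := by
    rw [ha, hb, ← Real.rpow_add hp0]; norm_num
  have hla : Real.log a = 55 / 100 * L := by rw [ha, Real.log_rpow hp0]
  have hlb : Real.log b = 45 / 100 * L := by rw [hb, Real.log_rpow hp0]
  have ha0 : 0 < a := Real.rpow_pos_of_pos hp0 _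
  have hb0 : 0 < b := Real.rpow_pos_of_pos hp0 _
  have hbig : ∀ x : ℝ, 0 < x → 100 ≤ Real.log x → 100 ≤ x := by
    intro x hx h
    have := Real.log_le_sub_one_of_pos hx
    linarith
  have ha1 : 100 ≤ a := hbig a ha0 (by rw [hla]; linarith)
  have hb1 : 100 ≤ b := hbig b hb0 (by rw [hlb]; linarith)
  have hba : b ≤ a := Real.rpow_le_rpow_of_exponent_le hp1 (by norm_num)
  set X := ⌈a⌉₊ with hX
  have hX1 : a ≤ X := Nat.le_ceil a
  have hX2 : (X : ℝ) < a + 1 := Nat.ceil_lt_add_one ha0.le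
  have hX0 : 0 < X := Nat.ceil_pos.2 ha0
  have hX0' : (0 : ℝ) < X := by exact_mod_cast hX0
  set z := (p - 1) / X with hz
  have hz1 : X * z ≤ p - 1 := Nat.mul_div_le _ _
  have hz2 : p - 1 < X * (z + 1) := Nat.lt_mul_div_succ _ hX0
  have hz1' : X * z < p := by omega
  have hz1r : (X : ℝ) * z < p := by exact_mod_cast hz1'
  have hz2r : (p : ℝ) ≤ X * (z + 1) := by exact_mod_cast (by omega : p ≤ X * (z + 1))
  have hXp : 2 * (X : ℝ) ≤ p := by nlinarith
  have hzb : (z : ℝ) ≤ b := by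
    by_contra h
    push Not at h
    nlinarith
  have hlow : (p : ℝ) ≤ 2 * (X * z) := by nlinarith
  have hz4 : b ≤ 4 * z := by
    by_contra h
    push Not at h
    have hz0 : (0 : ℝ) ≤ z := Nat.cast_nonneg _
    nlinarith
  have hl2 := Real.log_two_lt_d9
  have hzpos : (0 : ℝ) < z := by linarith
  have hlz : 45 / 100 * L - 2 ≤ Real.log z := by
    have h1 := Real.log_le_log hb0 hz4
    rw [Real.log_mul (by norm_num) hzpos.ne', hlb,
      show (4 : ℝ) = 2 ^ 2 by norm_num, Real.log_pow] at h1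
    push_cast at h1
    linarith
  have hlX : Real.log X ≤ 55 / 100 * L + 1 := by
    have h1 := Real.log_le_log hX0' (show (X : ℝ) ≤ 2 * a by linarith)
    rw [Real.log_mul (by norm_num) ha0.ne', hla] at h1
    linarith
  refine ⟨X, z, le_trans (Real.rpow_le_rpow_of_exponent_le hp1 (by norm_num)) hX1, ?_, hzb, ?_, ?_,
    hz1', hlow, by linarith, by linarith⟩
  · exact_mod_cast (show (X : ℝ) < p by linarith)
  · exact_mod_cast (show (z : ℝ) ≤ X by linarith)
  · exact_mod_cast (show (2 : ℝ) ≤ z by linarith)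

theorem lin : LIN := by
  classical
  obtain ⟨C, hC0, hC⟩ := Pool.Agent.Helper923.HMertens.mertens_ratio
  have hev : ∀ᶠ p : ℕ in atTop, 1000 + 125 * C ≤ Real.log p :=
    (Real.tendsto_log_atTop.comp tendsto_natCast_atTop_atTop).eventually_ge_atTop _
  filter_upwards [hev] with p hLC hp U hUne hU hEq hbU hβ hD hSB
  have hpp := hp.out
  have hp0 : (0 : ℝ) < p := by exact_mod_cast hpp.pos
  have hp2 : (2 : ℝ) ≤ p := by exact_mod_cast hpp.two_le
  have hp1 : (1 : ℝ) ≤ p := by linarith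
  have hL : 1000 ≤ Real.log p := by linarith
  obtain ⟨X, z, hX54, hXp, hz45, hzX, hz2, hXz, hlow, hlX, hlz⟩ := lin_sizes p hpp.pos hL
  set L := Real.log p with hLdef
  have hL0 : 0 < L := by linarith
  have hL1 : 1 ≤ L := by linarith
  -- the basic unit
  set δ : ℝ := p / L ^ 14 with hδ
  have hδ0 : 0 < δ := by positivity
  have hpow : ∀ k : ℕ, 1 ≤ k → (1000 : ℝ) ≤ L ^ k := fun k hk =>
    le_trans hL (le_self_pow₀ hL1 (by omega))
  have hδp : 1000 * δ ≤ p := by
    rw [hδ, ← mul_div_assoc, div_le_iff₀ (by positivity)]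
    have := hpow 14 (by norm_num)
    nlinarith
  set F : ℝ := p / L ^ 15 with hF
  have hF0 : 0 < F := by positivity
  have hLF : L * F = δ := by rw [hF, hδ]; field_simp
  have hFδ : F ≤ δ := by rw [← hLF]; nlinarith
  have h30 : (p : ℝ) / L ^ 30 ≤ δ :=
    div_le_div_of_nonneg_left hp0.le (by positivity) (pow_le_pow_right₀ hL1 (by norm_num))
  have hw : ((Nat.log 2 p : ℕ) : ℝ) ≤ 2 * L := nat_log_le p
  -- Markov
  have hmark : ∀ Y : ℕ, (Y : ℝ) ≤ (p : ℝ) ^ (45 / 100 : ℝ) →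
      (((Icc 1 Y).filter fun r => r.Prime ∧ F < (bn p r : ℝ)).card : ℝ) ≤ 1 / L ^ 15 * Y := by
    intro Y hY
    have h1 := le_trans (lin_markov (p := p) F Y) (hSB Y hY)
    have h2 : (p : ℝ) / L ^ 30 * Y = 1 / L ^ 15 * Y * F := by rw [hF]; field_simp
    rw [h2] at h1
    exact le_of_mul_le_mul_right h1 hF0
  set W : Finset ℕ := (Icc 1 X).filter fun n =>
    ∀ r : ℕ, r.Prime → r ∣ n → r ≤ z ∧ ¬ F < (bn p r : ℝ) with hW
  have hX0 : (0 : ℝ) < X := by exact_mod_cast (by omega : 0 < X)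
  have hWc : (((Icc 1 X) \ W).card : ℝ) ≤ 0.29 * X := by
    have h1 := lin_compl X z (fun r => F < (bn p r : ℝ)) (1 / L ^ 15) (by positivity)
      (fun Y hY => hmark Y (le_trans (Nat.cast_le.2 hY) hz45)) ((Icc 1 X) \ W) (by
        intro n hn
        rw [Finset.mem_sdiff] at hn
        exact ⟨hn.1, fun h => hn.2 (mem_filter.2 ⟨hn.1, h⟩)⟩)
    have hlz0 : 0 < Real.log z := by linarith
    have h2 := (abs_le.1 (hC z X hz2 hzX)).2
    have hlX0 : 0 < Real.log X := Real.log_pos (by exact_mod_cast (by omega : 1 < X))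
    have h3 : Real.log (Real.log X / Real.log z) ≤ 0.25 := by
      have h4 := Real.log_le_sub_one_of_pos (div_pos hlX0 hlz0)
      have h5 : Real.log X / Real.log z ≤ 1.25 := by rw [div_le_iff₀ hlz0]; exact hlX
      linarith
    have h4 : C / Real.log z ≤ 0.02 := by rw [div_le_iff₀ hlz0]; linarith
    have h5 : 1 / L ^ 15 * (1 + Real.log X) ≤ 0.02 := by
      have h6 : Real.log X ≤ L := Real.log_le_log hX0 (by exact_mod_cast hXp.le)
      rw [one_div, inv_mul_le_iff₀ (by positivity)]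
      have h7 := hpow 14 (by norm_num)
      have h8 : L ^ 15 = L ^ 14 * L := pow_succ _ _
      nlinarith
    have h6 : (X : ℝ) * ∑ r ∈ (Ioc z X).filter Nat.Prime, (1 : ℝ) / r ≤ X * 0.27 :=
      mul_le_mul_of_nonneg_left (by linarith) hX0.le
    have h7 : 1 / L ^ 15 * X * (1 + Real.log X) ≤ X * 0.02 := by
      rw [mul_comm (1 / L ^ 15), mul_assoc]
      exact mul_le_mul_of_nonneg_left h5 hX0.le
    linarith
  have hWsub : W ⊆ Icc 1 X := filter_subset _ _
  have hWcard : 0.71 * (X : ℝ) ≤ W.card := by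
    have h1 := card_sdiff_add_card_eq_card hWsub
    rw [Nat.card_Icc, Nat.add_sub_cancel] at h1
    have h2 : (((Icc 1 X) \ W).card : ℝ) + W.card = X := by exact_mod_cast h1
    linarith
  have hWm : ∀ m ∈ W, 1 ≤ m ∧ m < p ∧ (bn p m : ℝ) ≤ 2 * δ := by
    intro m hm
    obtain ⟨h1, h2⟩ := mem_filter.1 hm
    obtain ⟨h3, h4⟩ := mem_Icc.1 h1
    refine ⟨h3, by omega, ?_⟩
    have h5 := bn_le_of_primes (p := p) F hF0.le m h3 (by omega)
      fun r hr hd => not_lt.1 (h2 r hr hd).2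
    have h6 : ((Nat.log 2 m : ℕ) : ℝ) ≤ (Nat.log 2 p : ℕ) :=
      Nat.cast_le.2 (Nat.log_mono_right (by omega))
    nlinarith
  -- the set of good residues
  set G : Finset (ZMod p) := (U ×ˢ W).image fun w => ((w.1 * w.2 : ℕ) : ZMod p) with hG
  have hG0 : (0 : ZMod p) ∉ G := by
    intro h
    obtain ⟨w, hw, h0⟩ := mem_image.1 h
    obtain ⟨h1, h2⟩ := mem_product.1 hw
    rw [Nat.cast_mul] at h0
    exact mul_ne_zero (cast_ne_zero (hU _ h1).1 (hU _ h1).2)
      (cast_ne_zero (hWm _ h2).1 (hWm _ h2).2.1) h0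
  have hGcard : p - 1 < 2 * G.card := by
    set E : Finset (ZMod p) := (univ.filter fun x : ZMod p => x ≠ 0) \ G with hE
    have hE0 : (0 : ZMod p) ∉ E := by simp [hE]
    have h1 := hEq X hX54 hXp E hE0
    have h2 : (((U ×ˢ Icc 1 X).filter fun w => ((w.1 * w.2 : ℕ) : ZMod p) ∈ E).card : ℝ) ≤
        U.card * ((Icc 1 X) \ W).card := by
      rw [← Nat.cast_mul, ← card_product]
      refine Nat.cast_le.2 (card_le_card ?_)
      intro w hw
      obtain ⟨h3, h4⟩ := mem_filter.1 hw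
      obtain ⟨h5, h6⟩ := mem_product.1 h3
      refine mem_product.2 ⟨h5, mem_sdiff.2 ⟨h6, fun h7 => ?_⟩⟩
      exact (mem_sdiff.1 h4).2 (mem_image.2 ⟨w, mem_product.2 ⟨h5, h7⟩, rfl⟩)
    have hU0 : (0 : ℝ) < U.card := by exact_mod_cast hUne.card_pos
    have h3 : (U.card : ℝ) * X * ((E.card : ℝ) / ((p : ℝ) - 1) - (p : ℝ) ^ (-(1 / 100) : ℝ)) ≤
        U.card * X * 0.29 := by
      have := mul_le_mul_of_nonneg_left hWc hU0.le
      linarith
    have h4 := le_of_mul_le_mul_left h3 (by positivity)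
    have h5 : (p : ℝ) ^ (-(1 / 100) : ℝ) ≤ 0.1 := by
      rw [Real.rpow_def_of_pos hp0, ← hLdef, mul_neg, Real.exp_neg, inv_le_comm₀ (Real.exp_pos _)
        (by norm_num)]
      have := Real.add_one_le_exp (L * (1 / 100))
      norm_num at this ⊢
      linarith
    have h6 : (E.card : ℝ) ≤ 0.39 * ((p : ℝ) - 1) := by
      rw [← div_le_iff₀ (by linarith)]
      linarith
    have h7 : G ⊆ univ.filter fun x : ZMod p => x ≠ 0 := by
      intro x hx
      simp only [mem_filter, mem_univ, true_and]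
      rintro rfl
      exact hG0 hx
    have h8 := card_sdiff_add_card_eq_card h7
    rw [card_nonzero, ← hE] at h8
    have h9 : (E.card : ℝ) + G.card = ((p - 1 : ℕ) : ℝ) := by exact_mod_cast h8
    have h10 : ((p - 1 : ℕ) : ℝ) < 2 * G.card := by
      rw [lin_p1] at h9 ⊢
      linarith
    exact_mod_cast h10
  have hGτ : ∀ a ∈ G, ∃ s : ℤ, (s = 1 ∨ s = -1) ∧ ((Bad p a s).card : ℝ) ≤ 3 * δ := by
    intro a ha
    obtain ⟨w, hw, rfl⟩ := mem_image.1 ha
    obtain ⟨h1, h2⟩ := mem_product.1 hw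
    obtain ⟨h3, h4, h5⟩ := hWm _ h2
    refine ⟨lam (w.1 * w.2), lam_pm (Nat.mul_pos (hU _ h1).1 h3).ne', ?_⟩
    have h6 : (bn p (w.1 * w.2) : ℝ) ≤ bn p w.1 + bn p w.2 := by
      exact_mod_cast bn_mul w.1 (cast_ne_zero h3 h4)
    have h7 := hbU _ h1
    rw [bn] at h6
    linarith
  obtain ⟨h43, hχ⟩ := lin_alg (p := p) (2 * (3 * δ)) δ hδ0.le
    (fun g hg => lin_all G hG0 hGcard _ hGτ hg) (le_trans hβ h30) (by linarith)
  have hlam : ∀ n : ℕ, 1 ≤ n → n < p → (bn p n : ℝ) ≤ 2 * δ →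
      lam n = quadraticChar (ZMod p) (n : ZMod p) := fun n h1 h2 h3 =>
    lin_lam_eq _ hχ h1 h2 (by linarith)
  obtain ⟨σ, hσ, hE⟩ := lin_double _ hχ
  have hE1 : ((linE p 1).card : ℝ) ≤ 13 * δ := by
    rcases hσ with rfl | rfl
    · linarith
    exfalso
    set Q : Finset ℕ := (Icc 1 z).filter fun r => r.Prime ∧ ¬ F < (bn p r : ℝ) with hQ
    have hz0 : (0 : ℝ) < z := by exact_mod_cast (by omega : 0 < z)
    have hQm : ∀ q ∈ Q, q.Prime ∧ q ≤ z ∧ (bn p q : ℝ) ≤ F := by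
      intro q hq
      obtain ⟨h1, h2, h3⟩ := mem_filter.1 hq
      exact ⟨h2, (mem_Icc.1 h1).2, not_lt.1 h3⟩
    have h1 := lin_sign (p := p) Q W (fun q hq => (hQm q hq).1) (fun m hm => (hWm m hm).1)
      (fun q hq m hm => lt_of_le_of_lt (by
        rw [mul_comm]
        exact Nat.mul_le_mul (mem_Icc.1 (hWsub hm)).2 (hQm q hq).2.1) hXz)
      (fun q hq => hlam q (hQm q hq).1.pos (by have := (hQm q hq).2.1; omega)
        (by linarith [(hQm q hq).2.2]))
      (fun m hm => hlam m (hWm m hm).1 (hWm m hm).2.1 (hWm m hm).2.2)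
    have h1' : (Q.card : ℝ) * W.card ≤ (Nat.log 2 p : ℕ) * (linE p (-1)).card := by
      exact_mod_cast h1
    have h2 : (((Icc 1 z).filter Nat.Prime).card : ℝ) ≤
        Q.card + ((Icc 1 z).filter fun r => r.Prime ∧ F < (bn p r : ℝ)).card := by
      rw [← Nat.cast_add]
      refine Nat.cast_le.2 (le_trans (card_le_card ?_) (card_union_le _ _))
      intro r hr
      obtain ⟨h3, h4⟩ := mem_filter.1 hr
      by_cases h5 : F < (bn p r : ℝ)
      · exact mem_union_right _ (mem_filter.2 ⟨h3, h4, h5⟩)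
      · exact mem_union_left _ (mem_filter.2 ⟨h3, h4, h5⟩)
    have h3 := card_primes_ge z hz2
    have h4 := hmark z hz45
    have h5 : Real.log z ≤ L := Real.log_le_log hz0 (by exact_mod_cast (by omega : z ≤ p))
    have h6 : (z : ℝ) ≤ 16 * L * (((Icc 1 z).filter Nat.Prime).card : ℝ) := by
      refine le_trans h3 (mul_le_mul_of_nonneg_right (by linarith) (Nat.cast_nonneg _))
    have h7 : 16 * L * (1 / L ^ 15 * z) ≤ z / 2 := by
      have h8 : 16 * L * (1 / L ^ 15 * z) = 16 / L ^ 14 * z := by field_simp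
      have h9 : 16 / L ^ 14 ≤ 1 / 2 := by
        rw [div_le_iff₀ (by positivity)]
        linarith [hpow 14 (by norm_num)]
      rw [h8]
      nlinarith
    have h8 : (z : ℝ) ≤ 32 * L * Q.card := by
      have := mul_le_mul_of_nonneg_left (le_trans h2 (add_le_add le_rfl h4))
        (show 0 ≤ 16 * L by positivity)
      nlinarith
    have h9 : (Q.card : ℝ) * W.card ≤ 2 * L * (13 * δ) :=
      le_trans h1' (mul_le_mul hw (by linarith) (Nat.cast_nonneg _) (by positivity))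
    have h10 : (z : ℝ) * (0.71 * X) ≤ 32 * L * Q.card * W.card :=
      mul_le_mul h8 hWcard (by positivity) (by positivity)
    have h11 : 32 * L * Q.card * W.card ≤ 32 * L * (2 * L * (13 * δ)) := by
      rw [mul_assoc (32 * L)]
      exact mul_le_mul_of_nonneg_left h9 (by positivity)
    have h12 : 32 * L * (2 * L * (13 * δ)) = 832 * (p / L ^ 12) := by
      rw [hδ]; field_simp; norm_num
    have h13 : (p : ℝ) / L ^ 12 ≤ p / 1000000 := by
      refine div_le_div_of_nonneg_left hp0.le (by norm_num) ?_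
      have h14 := hpow 6 (by norm_num)
      have h15 : L ^ 12 = L ^ 6 * L ^ 6 := by ring
      nlinarith
    nlinarith
  have h8 : 27 * δ ≤ p / L ^ 8 := by
    have h1 : (p : ℝ) / L ^ 8 = L ^ 6 * δ := by rw [hδ]; field_simp
    rw [h1]
    exact mul_le_mul_of_nonneg_right (by linarith [hpow 6 (by norm_num)]) hδ0.le
  refine ⟨h43, ?_, ?_⟩
  · have h1 : ((((Ico 1 (2 * p)).filter fun n => n ≠ p ∧ lam n ≠ chi p n).card : ℕ) : ℝ) ≤
        2 * (linE p 1).card + (Dset p).card := by exact_mod_cast lin_two (p := p)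
    linarith
  · intro Y hY
    have hY' : (Y : ℝ) ≤ (p : ℝ) ^ (45 / 100 : ℝ) :=
      le_trans hY (Real.rpow_le_rpow_of_exponent_le hp1 (by norm_num))
    have hYp : Y < p := by
      have h1 : (p : ℝ) ^ (45 / 100 : ℝ) ≤ X :=
        le_trans (Real.rpow_le_rpow_of_exponent_le hp1 (by norm_num)) hX54
      have h2 : Y ≤ X := by exact_mod_cast le_trans hY' h1
      omega
    have h1 : (((Icc 1 Y).filter fun r => r.Prime ∧ chi p r ≠ -1).card : ℝ) ≤
        ((Icc 1 Y).filter fun r => r.Prime ∧ F < (bn p r : ℝ)).card := by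
      refine Nat.cast_le.2 (card_le_card ?_)
      intro r hr
      obtain ⟨h2, h3, h4⟩ := mem_filter.1 hr
      refine mem_filter.2 ⟨h2, h3, ?_⟩
      by_contra h5
      apply h4
      rw [lin_chi_eq, ← hlam r h3.pos (by have := (mem_Icc.1 h2).2; omega)
        (by linarith [not_lt.1 h5]), lam_prime h3]
    refine le_trans h1 (le_trans (hmark Y hY') ?_)
    rw [one_div, ← div_eq_inv_mul]
    exact div_le_div_of_nonneg_left (Nat.cast_nonneg _) (by positivity)
      (pow_le_pow_right₀ hL1 (by norm_num))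

end Pool.Agent.H753Z.SG
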