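import Pool.Agent.H753Z.SG.Basic

/-! Project SG, task LIN: the algebraic part. -/

set_option autoImplicit false

namespace Pool.Agent.H753Z.SG

open Finset Filter

section

variable {p : ℕ} [hp : Fact p.Prime]

theorem lin_chi_eq (n : ℕ) : chi p n = quadraticChar (ZMod p) (n : ZMod p) := by
  rw [chi, ← jacobiSym.legendreSym.to_jacobiSym, legendreSym]
  simp

theorem lin_q_pm {x : ZMod p} (hx : x ≠ 0) :
    quadraticChar (ZMod p) x = 1 ∨ quadraticChar (ZMod p) x = -1 :=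
  quadraticChar_dichotomy hx

theorem lin_p1 : ((p - 1 : ℕ) : ℝ) = (p : ℝ) - 1 := by
  rw [Nat.cast_sub hp.out.one_le]; simp

/-- pigeonhole: a set of more than half of the nonzero residues gives every quotient -/
theorem lin_pigeon (G : Finset (ZMod p)) (h0 : (0 : ZMod p) ∉ G) (hG : p - 1 < 2 * G.card)
    {g : ZMod p} (hg : g ≠ 0) : ∃ a ∈ G, ∃ b ∈ G, g = a * b⁻¹ := by
  classical
  by_contra hcon
  have hdis : Disjoint G (univ.filter fun x => g * x ∈ G) := by
    rw [disjoint_left]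
    intro b hb hb'
    have hb0 : b ≠ 0 := fun h => h0 (h ▸ hb)
    exact hcon ⟨g * b, (mem_filter.1 hb').2, b, hb, by rw [mul_inv_cancel_right₀ hb0]⟩
  have hsub : G ∪ (univ.filter fun x => g * x ∈ G) ⊆ univ.filter fun x : ZMod p => x ≠ 0 := by
    intro x hx
    simp only [mem_filter, mem_univ, true_and]
    rintro rfl
    rcases mem_union.1 hx with h | h
    · exact h0 h
    · apply h0
      simpa using (mem_filter.1 h).2
  have := card_le_card hsub
  rw [card_union_of_disjoint hdis, card_pre _ hg, card_nonzero] at this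
  omega

theorem lin_all (G : Finset (ZMod p)) (h0 : (0 : ZMod p) ∉ G) (hG : p - 1 < 2 * G.card) (τ : ℝ)
    (hτ : ∀ a ∈ G, ∃ s : ℤ, (s = 1 ∨ s = -1) ∧ ((Bad p a s).card : ℝ) ≤ τ)
    {g : ZMod p} (hg : g ≠ 0) : ∃ s : ℤ, (s = 1 ∨ s = -1) ∧ ((Bad p g s).card : ℝ) ≤ 2 * τ := by
  obtain ⟨a, ha, b, hb, rfl⟩ := lin_pigeon G h0 hG hg
  obtain ⟨s, hs, h1⟩ := hτ a ha
  obtain ⟨t, ht, h2⟩ := hτ b hb
  have hb0 : b ≠ 0 := fun h => h0 (h ▸ hb)
  refine ⟨s * t, by rcases hs with rfl | rfl <;> rcases ht with rfl | rfl <;> simp, ?_⟩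
  have h3 : ((Bad p (a * b⁻¹) (s * t)).card : ℝ) ≤ (Bad p a s).card + (Bad p b⁻¹ t).card := by
    exact_mod_cast card_Bad_mul a (inv_ne_zero hb0) s t
  have h4 : ((Bad p b⁻¹ t).card : ℝ) ≤ (Bad p b t).card := by
    exact_mod_cast card_Bad_inv hb0 ht
  linarith

theorem lin_alg (τ β : ℝ) (hβ0 : 0 ≤ β)
    (hτ : ∀ g : ZMod p, g ≠ 0 → ∃ s : ℤ, (s = 1 ∨ s = -1) ∧ ((Bad p g s).card : ℝ) ≤ τ)
    (hβ : ((Bad p (-1) (-1)).card : ℝ) ≤ β) (hlt : 2 * τ + β < (p : ℝ) - 1) :
    p % 4 = 3 ∧ ∀ g : ZMod p, g ≠ 0 →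
      ((Bad p g (quadraticChar (ZMod p) g)).card : ℝ) ≤ 2 * τ + β := by
  have hsq : ∀ t : ZMod p, t ≠ 0 → ((Bad p (t * t) 1).card : ℝ) ≤ 2 * τ := by
    intro t ht
    obtain ⟨s, hs, h⟩ := hτ t ht
    have h1 : ((Bad p (t * t) (s * s)).card : ℝ) ≤ (Bad p t s).card + (Bad p t s).card := by
      exact_mod_cast card_Bad_mul t ht s s
    have h2 : s * s = 1 := by rcases hs with rfl | rfl <;> simp
    rw [h2] at h1
    linarith
  have hns : ¬ IsSquare (-1 : ZMod p) := by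
    rintro ⟨t, ht⟩
    have ht0 : t ≠ 0 := by
      rintro rfl
      simp at ht
    have h1 := hsq t ht0
    rw [← ht] at h1
    have h2 : ((p - 1 : ℕ) : ℝ) ≤ (Bad p (-1) 1).card + (Bad p (-1) (-1)).card := by
      exact_mod_cast card_Bad_add (-1 : ZMod p)
    rw [lin_p1] at h2
    linarith
  refine ⟨by
    by_contra h
    exact hns (ZMod.exists_sq_eq_neg_one_iff.2 h), ?_⟩
  intro g hg
  have hm1 : quadraticChar (ZMod p) (-1) = -1 := quadraticChar_neg_one_iff_not_isSquare.2 hns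
  rcases lin_q_pm hg with h | h
  · obtain ⟨t, rfl⟩ := (quadraticChar_one_iff_isSquare hg).1 h
    have ht : t ≠ 0 := by
      rintro rfl
      simp at hg
    rw [h]
    linarith [hsq t ht]
  · have h1 : quadraticChar (ZMod p) (-g) = 1 := by
      rw [← neg_one_mul, map_mul, hm1, h]; norm_num
    obtain ⟨t, ht⟩ := (quadraticChar_one_iff_isSquare (neg_ne_zero.2 hg)).1 h1
    have ht0 : t ≠ 0 := by
      rintro rfl
      simp [hg] at ht
    have hg' : g = -1 * (t * t) := by rw [← ht]; ring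
    have h2 : ((Bad p (-1 * (t * t)) (-1 * 1)).card : ℝ) ≤
        (Bad p (-1) (-1)).card + (Bad p (t * t) 1).card := by
      exact_mod_cast card_Bad_mul (-1) (mul_ne_zero ht0 ht0) (-1) 1
    rw [← hg', mul_one] at h2
    rw [h]
    linarith [hsq t ht0]

/-- the residues where `ff` differs from `σ` times the quadratic character -/
def linE (p : ℕ) [Fact p.Prime] (σ : ℤ) : Finset (ZMod p) :=
  univ.filter fun x => x ≠ 0 ∧ ff p x ≠ σ * quadraticChar (ZMod p) x

theorem lin_double (τ : ℝ)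
    (hτ : ∀ g : ZMod p, g ≠ 0 → ((Bad p g (quadraticChar (ZMod p) g)).card : ℝ) ≤ τ) :
    ∃ σ : ℤ, (σ = 1 ∨ σ = -1) ∧ ((linE p σ).card : ℝ) ≤ τ := by
  classical
  set N : Finset (ZMod p) := univ.filter fun x : ZMod p => x ≠ 0 with hN
  have hNne : N.Nonempty := ⟨1, by simp [hN]⟩
  have hsum : ∑ a ∈ N, ((N.filter fun g => a ∈ Bad p g (quadraticChar (ZMod p) g)).card : ℝ) ≤
      ∑ _a ∈ N, τ := by
    have h1 : ∑ a ∈ N, (N.filter fun g => a ∈ Bad p g (quadraticChar (ZMod p) g)).card =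
        ∑ g ∈ N, (N.filter fun a => a ∈ Bad p g (quadraticChar (ZMod p) g)).card := by
      simp only [card_filter]
      exact sum_comm
    rw [← Nat.cast_sum, h1, Nat.cast_sum]
    refine sum_le_sum fun g hg => le_trans ?_ (hτ g (by simpa [hN] using hg))
    exact_mod_cast card_le_card fun a ha => (mem_filter.1 ha).2
  obtain ⟨a, ha, hle⟩ := exists_le_of_sum_le hNne hsum
  have ha0 : a ≠ 0 := by simpa [hN] using ha
  refine ⟨quadraticChar (ZMod p) a * ff p a, ?_, le_trans ?_ hle⟩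
  · rcases lin_q_pm ha0 with h | h <;> rcases ff_pm ha0 with h' | h' <;> rw [h, h'] <;> simp
  · rw [← card_pre (N.filter fun g => a ∈ Bad p g (quadraticChar (ZMod p) g)) (inv_ne_zero ha0)]
    refine Nat.cast_le.2 (card_le_card ?_)
    intro x hx
    simp only [linE, mem_filter, mem_univ, true_and] at hx
    simp only [mem_filter, mem_univ, true_and, hN, mem_Bad]
    refine ⟨mul_ne_zero (inv_ne_zero ha0) hx.1, ha0, ?_⟩
    rw [mul_comm a⁻¹ x, inv_mul_cancel_right₀ ha0]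
    intro h
    apply hx.2
    have hinv : quadraticChar (ZMod p) a⁻¹ = quadraticChar (ZMod p) a := by
      have h1 : quadraticChar (ZMod p) a * quadraticChar (ZMod p) a⁻¹ = 1 := by
        rw [← map_mul, mul_inv_cancel₀ ha0, map_one]
      rcases lin_q_pm ha0 with h2 | h2 <;> rw [h2] at h1 ⊢ <;> linarith
    rw [h, map_mul, hinv]
    ring

theorem lin_lam_eq (τ : ℝ)
    (hτ : ∀ g : ZMod p, g ≠ 0 → ((Bad p g (quadraticChar (ZMod p) g)).card : ℝ) ≤ τ)
    {n : ℕ} (h1 : 1 ≤ n) (hn : n < p) (hb : (bn p n : ℝ) + τ < (p : ℝ) - 1) :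
    lam n = quadraticChar (ZMod p) (n : ZMod p) := by
  have h0 := cast_ne_zero h1 hn
  have h2 := hτ _ h0
  have h3 : ((p - 1 : ℕ) : ℝ) ≤ (Bad p (n : ZMod p) 1).card + (Bad p (n : ZMod p) (-1)).card := by
    exact_mod_cast card_Bad_add (n : ZMod p)
  rw [lin_p1] at h3
  rw [bn] at hb
  rcases lam_pm (n := n) (by omega) with h | h <;> rcases lin_q_pm h0 with h' | h' <;>
    rw [h'] at h2 ⊢ <;> rw [h] at hb ⊢ <;> linarith

theorem lin_sign (Q W : Finset ℕ) (hQ : ∀ q ∈ Q, q.Prime) (hW : ∀ m ∈ W, 1 ≤ m)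
    (hlt : ∀ q ∈ Q, ∀ m ∈ W, q * m < p)
    (hQl : ∀ q ∈ Q, lam q = quadraticChar (ZMod p) (q : ZMod p))
    (hWl : ∀ m ∈ W, lam m = quadraticChar (ZMod p) (m : ZMod p)) :
    Q.card * W.card ≤ Nat.log 2 p * (linE p (-1)).card := by
  classical
  refine le_trans ?_ (card_pairs_le Q W hQ hW hlt (linE p (-1)))
  rw [← card_product]
  refine card_le_card ?_
  intro w hw
  refine mem_filter.2 ⟨hw, ?_⟩
  obtain ⟨h1, h2⟩ := mem_product.1 hw
  have hpos : 1 ≤ w.1 * w.2 := Nat.mul_pos (hQ _ h1).pos (hW _ h2)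
  have h0 := cast_ne_zero hpos (hlt _ h1 _ h2)
  simp only [linE, mem_filter, mem_univ, true_and]
  refine ⟨h0, ?_⟩
  rw [ff_cast (hlt _ h1 _ h2), lam_mul, hQl _ h1, hWl _ h2, ← map_mul, ← Nat.cast_mul]
  rcases lin_q_pm h0 with h | h <;> rw [h] <;> norm_num

theorem lin_low : ((Ico 1 p).filter fun n => lam n ≠ chi p n).card ≤ (linE p 1).card := by
  refine card_le_card_of_injOn (fun n => (n : ZMod p)) ?_ ?_
  · intro n hn
    simp only [coe_filter, mem_Ico, Set.mem_ofPred_eq] at hn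
    simp only [linE, coe_filter, mem_univ, true_and, Set.mem_ofPred_eq]
    refine ⟨cast_ne_zero hn.1.1 hn.1.2, ?_⟩
    rw [ff_cast hn.1.2, one_mul, ← lin_chi_eq]
    exact hn.2
  · intro n hn m hm h
    simp only [coe_filter, mem_Ico, Set.mem_ofPred_eq] at hn hm
    have := congrArg ZMod.val h
    rwa [ZMod.val_cast_of_lt hn.1.2, ZMod.val_cast_of_lt hm.1.2] at this

theorem lin_two : ((Ico 1 (2 * p)).filter fun n => n ≠ p ∧ lam n ≠ chi p n).card ≤
    2 * (linE p 1).card + (Dset p).card := by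
  classical
  set A := (Ico 1 p).filter fun n => lam n ≠ chi p n with hA
  have hsub : ((Ico 1 (2 * p)).filter fun n => n ≠ p ∧ lam n ≠ chi p n) ⊆
      A ∪ ((A ∪ Dset p).image fun n => n + p) := by
    intro n hn
    simp only [mem_filter, mem_Ico] at hn
    obtain ⟨⟨h1, h2⟩, h3, h4⟩ := hn
    rcases lt_or_gt_of_ne h3 with h | h
    · exact mem_union_left _ (mem_filter.2 ⟨mem_Ico.2 ⟨h1, h⟩, h4⟩)
    · refine mem_union_right _ (mem_image.2 ⟨n - p, ?_, by omega⟩)
      have hI : n - p ∈ Ico 1 p := mem_Ico.2 ⟨by omega, by omega⟩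
      have hnp : n - p + p = n := by omega
      by_cases hd : lam (n - p + p) = lam (n - p)
      · refine mem_union_left _ (mem_filter.2 ⟨hI, ?_⟩)
        rw [← hd, hnp]
        have : chi p (n - p) = chi p n := by
          rw [lin_chi_eq, lin_chi_eq]
          congr 1
          conv_rhs => rw [← hnp]
          simp
        rwa [this]
      · exact mem_union_right _ (mem_filter.2 ⟨hI, hd⟩)
  have h1 := card_le_card hsub
  have h2 := card_union_le A ((A ∪ Dset p).image fun n => n + p)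
  have h3 : ((A ∪ Dset p).image fun n => n + p).card ≤ (A ∪ Dset p).card := card_image_le
  have h4 := card_union_le A (Dset p)
  have h5 : A.card ≤ (linE p 1).card := lin_low
  omega

/-- Markov inequality for the bad primes -/
theorem lin_markov (F : ℝ) (Y : ℕ) :
    (((Icc 1 Y).filter fun r => r.Prime ∧ F < (bn p r : ℝ)).card : ℝ) * F ≤ SB p Y := by
  classical
  have h1 : (((Icc 1 Y).filter fun r => r.Prime ∧ F < (bn p r : ℝ)).card : ℝ) * F =
      ∑ _r ∈ (Icc 1 Y).filter fun r => r.Prime ∧ F < (bn p r : ℝ), F := by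
    rw [sum_const, nsmul_eq_mul]
  rw [h1, SB, Nat.cast_sum]
  calc _ ≤ ∑ r ∈ (Icc 1 Y).filter fun r => r.Prime ∧ F < (bn p r : ℝ), (bn p r : ℝ) :=
        sum_le_sum fun r hr => (mem_filter.1 hr).2.2.le
    _ ≤ _ := by
        refine sum_le_sum_of_subset_of_nonneg ?_ fun _ _ _ => Nat.cast_nonneg _
        intro r hr
        exact mem_filter.2 ⟨(mem_filter.1 hr).1, (mem_filter.1 hr).2.1⟩

end

/-- integers up to `X` with a prime factor which is large or lies in a sparse set -/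
theorem lin_compl (X z : ℕ) (P : ℕ → Prop) [DecidablePred P] (η : ℝ) (hη : 0 ≤ η)
    (hP : ∀ Y : ℕ, Y ≤ z → (((Icc 1 Y).filter fun r => r.Prime ∧ P r).card : ℝ) ≤ η * Y) :
    ∀ C : Finset ℕ, (∀ n ∈ C, n ∈ Icc 1 X ∧ ¬ ∀ r : ℕ, r.Prime → r ∣ n → r ≤ z ∧ ¬ P r) →
      (C.card : ℝ) ≤
      X * ∑ r ∈ (Ioc z X).filter Nat.Prime, (1 : ℝ) / r + η * X * (1 + Real.log X) := by
  classical
  intro C hC
  have hsub : C ⊆
      (((Ioc z X).filter Nat.Prime).biUnion fun r => (Ioc 0 X).filter (r ∣ ·)) ∪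
      ((Icc 1 X).biUnion fun k =>
        ((Icc 1 (min z (X / k))).filter fun r => r.Prime ∧ P r).image (· * k)) := by
    intro n hn
    replace hn := hC n hn
    rw [mem_Icc] at hn
    obtain ⟨⟨h1, h2⟩, h3⟩ := hn
    push Not at h3
    obtain ⟨r, hr, hd, h4⟩ := h3
    have hrn : r ≤ n := Nat.le_of_dvd h1 hd
    by_cases hz : r ≤ z
    · obtain ⟨k, rfl⟩ := hd
      have hk : 1 ≤ k := Nat.pos_of_ne_zero (by rintro rfl; simp at h1)
      refine mem_union_right _ (mem_biUnion.2 ⟨k, mem_Icc.2 ⟨hk, ?_⟩, mem_image.2 ⟨r, ?_, rfl⟩⟩)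
      · exact le_trans (Nat.le_mul_of_pos_left k hr.pos) h2
      · refine mem_filter.2 ⟨mem_Icc.2 ⟨hr.pos, le_min hz ?_⟩, hr, h4 hz⟩
        exact (Nat.le_div_iff_mul_le hk).2 h2
    · refine mem_union_left _ (mem_biUnion.2 ⟨r, mem_filter.2 ⟨mem_Ioc.2 ⟨by omega, by omega⟩, hr⟩,
        mem_filter.2 ⟨mem_Ioc.2 ⟨h1, h2⟩, hd⟩⟩)
  have h1 : ((((Ioc z X).filter Nat.Prime).biUnion fun r => (Ioc 0 X).filter (r ∣ ·)).card : ℝ) ≤
      X * ∑ r ∈ (Ioc z X).filter Nat.Prime, (1 : ℝ) / r := by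
    refine le_trans (Nat.cast_le.2 card_biUnion_le) ?_
    rw [Nat.cast_sum, mul_sum]
    refine sum_le_sum fun r _ => ?_
    rw [Nat.Ioc_filter_dvd_card_eq_div, mul_one_div]
    exact Nat.cast_div_le
  have h2 : (((Icc 1 X).biUnion fun k =>
      ((Icc 1 (min z (X / k))).filter fun r => r.Prime ∧ P r).image (· * k)).card : ℝ) ≤
      η * X * (1 + Real.log X) := by
    refine le_trans (Nat.cast_le.2 card_biUnion_le) ?_
    rw [Nat.cast_sum]
    calc _ ≤ ∑ k ∈ Icc 1 X, η * X * ((k : ℝ))⁻¹ := by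
          refine sum_le_sum fun k _ => ?_
          refine le_trans (Nat.cast_le.2 card_image_le) (le_trans (hP _ (min_le_left _ _)) ?_)
          rw [mul_assoc]
          refine mul_le_mul_of_nonneg_left ?_ hη
          refine le_trans (Nat.cast_le.2 (min_le_right _ _)) ?_
          rw [← div_eq_mul_inv]
          exact Nat.cast_div_le
      _ = η * X * (harmonic X : ℝ) := by
          rw [← mul_sum, harmonic_eq_sum_Icc]
          push_cast
          rfl
      _ ≤ _ := mul_le_mul_of_nonneg_left (harmonic_le_one_add_log X) (by positivity)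
  have h3 := (Nat.cast_le (α := ℝ)).2 (le_trans (card_le_card hsub) (card_union_le _ _))
  rw [Nat.cast_add] at h3
  linarith

end Pool.Agent.H753Z.SG
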