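import Pool.Agent.H753Z.SG.Defs
import Pool.Agent.H379R2.SWMain

/-!
Task MERT (helper186): the prime number theorem for the Moebius function with the classical
error term, from the bound for `1 / ζ` in the classical zero-free region.
Perron for the weight `log (x / n)`, then `k ≈ a √(log x)` integrations by parts with Cauchy
estimates on discs of radius `c / log (|t| + 4)`.
-/

set_option autoImplicit false

open MeasureTheory Complex Filter Topology Set
open scoped Real

namespace Pool.Agent.H753Z.SG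

open Pool.Agent.H379R2.SW

/-- the Moebius function with complex values -/
noncomputable def mert_a (n : ℕ) : ℂ := ((ArithmeticFunction.moebius n : ℤ) : ℂ)

lemma mert_a_norm (n : ℕ) : ‖mert_a n‖ ≤ 1 := by
  unfold mert_a
  rw [Complex.norm_intCast]
  exact_mod_cast ArithmeticFunction.abs_moebius_le_one

/-- `1 / ζ` -/
noncomputable def mert_g (z : ℂ) : ℂ := (z - 1) / riemannZeta₁ z

/-- `1 / (ζ z ^ 2)` -/
noncomputable def mert_f (z : ℂ) : ℂ := mert_g z / z ^ 2

lemma mert_zeta1_ne {z : ℂ} (hz : 1 < z.re) : riemannZeta₁ z ≠ 0 := by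
  have hz1 : z ≠ 1 := by
    rintro rfl
    simp at hz
  intro h0
  have h := riemannZeta_eq_inv_sub_mul hz1
  rw [h0, mul_zero] at h
  exact riemannZeta_ne_zero_of_one_lt_re hz h

lemma mert_LSeries {z : ℂ} (hz : 1 < z.re) : LSeries mert_a z = mert_g z := by
  have hz1 : z ≠ 1 := by
    rintro rfl
    simp at hz
  have h1 := LSeries_one_mul_Lseries_moebius hz
  rw [LSeries_one_eq_riemannZeta hz, riemannZeta_eq_inv_sub_mul hz1] at h1
  have h2 : LSeries mert_a z = ((z - 1)⁻¹ * riemannZeta₁ z)⁻¹ :=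
    eq_inv_of_mul_eq_one_right h1
  rw [h2]
  unfold mert_g
  rw [mul_inv, inv_inv, div_eq_mul_inv]

lemma mert_g_diffAt {z : ℂ} (hz : riemannZeta₁ z ≠ 0) : DifferentiableAt ℂ mert_g z := by
  unfold mert_g
  exact (differentiableAt_id.sub_const 1).div (differentiable_riemannZeta₁ z) hz

lemma mert_f_analytic : AnalyticOnNhd ℂ mert_f {z | 1 < z.re} := by
  apply DifferentiableOn.analyticOnNhd _ (isOpen_lt continuous_const continuous_re)
  intro z hz
  have hz1 : 1 < z.re := hz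
  have hz0 : z ≠ 0 := by
    rintro rfl
    simp at hz1
    linarith
  unfold mert_f
  exact ((mert_g_diffAt (mert_zeta1_ne hz1)).div (differentiableAt_id.pow 2)
    (pow_ne_zero 2 hz0)).differentiableWithinAt

lemma mert_f_bound {c₀ C : ℝ} (hc₀ : 0 < c₀) (hc₀4 : c₀ ≤ 1 / 4) (hC : 0 < C)
    (h : ∀ s : ℂ, 1 - c₀ / Real.log (|s.im| + 3) ≤ s.re → s.re ≤ 2 →
      riemannZeta₁ s ≠ 0 ∧ ‖(s - 1) / riemannZeta₁ s‖ ≤ C * Real.log (|s.im| + 3))
    {c : ℝ} (hc1 : 1 < c) (hc2 : c ≤ 3 / 2) (ξ : ℝ) (j : ℕ) :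
    ‖iteratedDeriv j mert_f (vert c ξ)‖ ≤
      (j.factorial * (j + 1).factorial * (2 / c₀) ^ j * (64 * C)) *
        (1 + |ξ|) ^ (-(3 / 2 : ℝ)) := by
  set t : ℝ := |2 * π * ξ| with ht
  have ht0 : 0 ≤ t := abs_nonneg _
  set L : ℝ := Real.log (t + 4) with hL
  have hL1 : 1 ≤ L := by
    rw [hL, Real.le_log_iff_exp_le (by linarith)]
    have := Real.exp_one_lt_d9
    linarith
  have hL0 : 0 < L := by linarith
  set ρ : ℝ := c₀ / L with hρ
  have hρ0 : 0 < ρ := by positivity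
  have hρ2 : ρ ≤ 1 / 2 := by
    rw [hρ, div_le_iff₀ hL0]
    linarith
  have hs : 1 ≤ ‖vert c ξ‖ := by
    have := Complex.re_le_norm (vert c ξ)
    rw [vert_re] at this
    linarith
  have hball : ∀ z ∈ Metric.closedBall (vert c ξ) ρ,
      riemannZeta₁ z ≠ 0 ∧ ‖mert_g z‖ ≤ C * L := by
    intro z hz
    rw [mem_closedBall_iff_norm] at hz
    have hre : |(z - vert c ξ).re| ≤ ρ := (Complex.abs_re_le_norm _).trans hz
    have him : |(z - vert c ξ).im| ≤ ρ := (Complex.abs_im_le_norm _).trans hz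
    rw [Complex.sub_re, vert_re] at hre
    rw [Complex.sub_im, vert_im] at him
    have him2 : |z.im| ≤ t + 1 := by
      have h1 : |z.im| ≤ |z.im - 2 * π * ξ| + |2 * π * ξ| := by
        have := abs_add_le (z.im - 2 * π * ξ) (2 * π * ξ)
        simpa using this
      linarith
    have hz3 : 0 ≤ |z.im| := abs_nonneg _
    have hlog : Real.log (|z.im| + 3) ≤ L := Real.log_le_log (by linarith) (by linarith)
    have hlog0 : 0 < Real.log (|z.im| + 3) := Real.log_pos (by linarith)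
    have hρle : ρ ≤ c₀ / Real.log (|z.im| + 3) := div_le_div_of_nonneg_left hc₀.le hlog0 hlog
    obtain ⟨hre1, hre2⟩ := abs_le.mp hre
    obtain ⟨h1, h2⟩ := h z (by linarith) (by linarith)
    exact ⟨h1, h2.trans (mul_le_mul_of_nonneg_left hlog hC.le)⟩
  have hcs := cauchy_sq (g := mert_g) hρ0 hρ2 hs (fun z hz => mert_g_diffAt (hball z hz).1)
    (fun z hz => (hball z hz).2) j
  have hw := weight_le (θ := 1 / 2) (by norm_num) le_rfl hc1.le ξ (Q := 1) le_rfl
  rw [one_mul, Real.one_rpow, one_mul, ← ht] at hw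
  have hLp : L ^ (j + 1) ≤ 2 ^ (j + 1) * (j + 1).factorial * (2 * t + 6) ^ (1 / 2 : ℝ) := by
    have h1 := Real.pow_div_factorial_le_exp (L / 2) (by positivity) (j + 1)
    have h2 : Real.exp (L / 2) = (t + 4) ^ (1 / 2 : ℝ) := by
      rw [Real.rpow_def_of_pos (by linarith), ← hL]
      congr 1
      ring
    have h3 : (t + 4) ^ (1 / 2 : ℝ) ≤ (2 * t + 6) ^ (1 / 2 : ℝ) :=
      Real.rpow_le_rpow (by linarith) (by linarith) (by norm_num)
    have hf : (0 : ℝ) < (j + 1).factorial := by exact_mod_cast Nat.factorial_pos _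
    rw [div_le_iff₀ hf, div_pow, div_le_iff₀ (by positivity), h2] at h1
    calc L ^ (j + 1) ≤ (t + 4) ^ (1 / 2 : ℝ) * (j + 1).factorial * 2 ^ (j + 1) := h1
      _ ≤ (2 * t + 6) ^ (1 / 2 : ℝ) * (j + 1).factorial * 2 ^ (j + 1) := by
          apply mul_le_mul_of_nonneg_right _ (by positivity)
          exact mul_le_mul_of_nonneg_right h3 hf.le
      _ = _ := by ring
  refine le_trans hcs ?_
  have e1 : (j.factorial : ℝ) * (4 * (C * L)) / ρ ^ j =
      (j.factorial : ℝ) * (4 * C) / c₀ ^ j * L ^ (j + 1) := by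
    rw [hρ, div_pow]
    field_simp
    ring
  rw [e1]
  calc (j.factorial : ℝ) * (4 * C) / c₀ ^ j * L ^ (j + 1) * (‖vert c ξ‖ ^ 2)⁻¹
      ≤ (j.factorial : ℝ) * (4 * C) / c₀ ^ j *
          (2 ^ (j + 1) * (j + 1).factorial * (2 * t + 6) ^ (1 / 2 : ℝ)) * (‖vert c ξ‖ ^ 2)⁻¹ := by
        apply mul_le_mul_of_nonneg_right _ (by positivity)
        exact mul_le_mul_of_nonneg_left hLp (by positivity)
    _ = (j.factorial : ℝ) * (4 * C) / c₀ ^ j * (2 ^ (j + 1) * (j + 1).factorial) *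
          ((2 * t + 6) ^ (1 / 2 : ℝ) * (‖vert c ξ‖ ^ 2)⁻¹) := by ring
    _ ≤ (j.factorial : ℝ) * (4 * C) / c₀ ^ j * (2 ^ (j + 1) * (j + 1).factorial) *
          (8 * (1 + |ξ|) ^ (-(3 / 2 : ℝ))) := mul_le_mul_of_nonneg_left hw (by positivity)
    _ = _ := by
        rw [div_pow]
        field_simp
        ring

/-- the log-weighted sum -/
noncomputable def mert_log (x : ℝ) : ℂ :=
  ∑ n ∈ Finset.Icc 1 ⌊x⌋₊, mert_a n * ((Real.log (x / n) : ℝ) : ℂ)

lemma mert_log_k {c₀ C : ℝ} (hc₀ : 0 < c₀) (hc₀4 : c₀ ≤ 1 / 4) (hC : 0 < C)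
    (h : ∀ s : ℂ, 1 - c₀ / Real.log (|s.im| + 3) ≤ s.re → s.re ≤ 2 →
      riemannZeta₁ s ≠ 0 ∧ ‖(s - 1) / riemannZeta₁ s‖ ≤ C * Real.log (|s.im| + 3)) :
    ∃ K : ℝ, 0 < K ∧ ∀ (k : ℕ) (x : ℝ), Real.exp 2 ≤ x →
      ‖mert_log x‖ ≤ K * x *
        ((k.factorial * (k + 1).factorial * (2 / c₀) ^ k) / (Real.log x) ^ k) := by
  set J : ℝ := ∫ ξ : ℝ, (1 + |ξ|) ^ (-(3 / 2 : ℝ)) with hJ
  have hJ0 : 0 ≤ J := integral_nonneg (fun ξ => by positivity)
  refine ⟨Real.exp 1 * (64 * C * (J + 1)), by positivity, ?_⟩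
  intro k x hx
  have hx0 : 0 < x := lt_of_lt_of_le (Real.exp_pos 2) hx
  have hlog : 2 ≤ Real.log x := by
    rw [Real.le_log_iff_exp_le hx0]; exact hx
  have hlog0 : 0 < Real.log x := by linarith
  have hx1 : 1 ≤ x := by
    have := Real.add_one_le_exp 2
    linarith
  set c : ℝ := 1 + 1 / Real.log x with hc
  have hc1 : 1 < c := by
    have : 0 < 1 / Real.log x := by positivity
    linarith
  have hc2 : c ≤ 3 / 2 := by
    have : 1 / Real.log x ≤ 1 / 2 := one_div_le_one_div_of_le (by norm_num) hlog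
    linarith
  have hsum : LSeriesSummable mert_a (c : ℂ) :=
    ArithmeticFunction.LSeriesSummable_moebius_iff.mpr (by simpa using hc1)
  unfold mert_log
  rw [perron_sum mert_a hc1.le hsum hx1, norm_mul, Complex.norm_real,
    Real.norm_of_nonneg (Real.exp_pos _).le]
  have hLf : ∀ ξ : ℝ, LSeries mert_a (vert c ξ) / (vert c ξ) ^ 2 = mert_f (vert c ξ) := by
    intro ξ
    have h1 : 1 < (vert c ξ).re := by rw [vert_re]; exact hc1
    unfold mert_f
    rw [mert_LSeries h1]
  simp only [hLf]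
  have hpt := fun j ξ => mert_f_bound hc₀ hc₀4 hC h hc1 hc2 ξ j
  have hmem : ∀ ξ, vert c ξ ∈ {z : ℂ | 1 < z.re} := by
    intro ξ
    show 1 < (vert c ξ).re
    rw [vert_re]; exact hc1
  have hint : ∀ j ≤ k, Integrable (fun ξ => iteratedDeriv j mert_f (vert c ξ)) := by
    intro j _
    refine Integrable.mono' (integrable_J.const_mul _) ?_ (Eventually.of_forall (hpt j))
    apply Continuous.aestronglyMeasurable
    rw [iteratedDeriv_eq_iterate, continuous_iff_continuousAt]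
    intro ξ
    exact ContinuousAt.comp ((mert_f_analytic _ (hmem ξ)).iterated_deriv j).continuousAt
      (continuous_vert c).continuousAt
  rw [int_by_parts mert_f_analytic hc1 hlog0 k hint]
  set A : ℝ := k.factorial * (k + 1).factorial * (2 / c₀) ^ k with hA
  have hA0 : 0 ≤ A := by positivity
  have hI : ‖∫ ξ : ℝ, iteratedDeriv k mert_f (vert c ξ) *
        cexp (((2 * π * ξ * Real.log x : ℝ) : ℂ) * I)‖ ≤ A * (64 * C) * J := by
    rw [hJ, ← integral_const_mul]
    apply norm_integral_le_of_norm_le (integrable_J.const_mul _)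
    refine Eventually.of_forall (fun ξ => ?_)
    rw [norm_mul, Complex.norm_exp_ofReal_mul_I, mul_one]
    exact hpt k ξ
  have hexp : Real.exp (c * Real.log x) = Real.exp 1 * x := by
    have h1 : c * Real.log x = 1 + Real.log x := by
      rw [hc]; field_simp; ring
    rw [h1, Real.exp_add, Real.exp_log hx0]
  rw [hexp]
  calc Real.exp 1 * x * (1 / Real.log x ^ k * ‖∫ ξ : ℝ, iteratedDeriv k mert_f (vert c ξ) *
        cexp (((2 * π * ξ * Real.log x : ℝ) : ℂ) * I)‖)
      ≤ Real.exp 1 * x * (1 / Real.log x ^ k * (A * (64 * C) * (J + 1))) := by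
        apply mul_le_mul_of_nonneg_left _ (by positivity)
        apply mul_le_mul_of_nonneg_left _ (by positivity)
        refine hI.trans ?_
        apply mul_le_mul_of_nonneg_left _ (by positivity)
        linarith
    _ = _ := by ring

lemma mert_choose {c₀ y : ℝ} (hc₀ : 0 < c₀) (hy : 0 < y) : ∃ k : ℕ,
    ((k.factorial : ℝ) * (k + 1).factorial * (2 / c₀) ^ k) / y ^ k ≤
      Real.exp 1 * Real.exp (-(Real.sqrt (c₀ / 18) * Real.sqrt y)) := by
  set u : ℝ := Real.sqrt (c₀ / 18) * Real.sqrt y with hu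
  have hu0 : 0 ≤ u := by positivity
  have hu2 : u ^ 2 = c₀ / 18 * y := by
    rw [hu, mul_pow, Real.sq_sqrt (by positivity), Real.sq_sqrt hy.le]
  refine ⟨⌊u⌋₊, ?_⟩
  set k : ℕ := ⌊u⌋₊ with hk
  have hku : (k : ℝ) ≤ u := Nat.floor_le hu0
  have huk : u < k + 1 := Nat.lt_floor_add_one u
  have hk0 : (0 : ℝ) ≤ k := Nat.cast_nonneg k
  have hf : (k.factorial : ℝ) ≤ (k : ℝ) ^ k := by exact_mod_cast Nat.factorial_le_pow k
  have hf1 : ((k + 1).factorial : ℝ) = (k + 1) * k.factorial := by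
    rw [Nat.factorial_succ]; push_cast; ring
  have hf0 : (0 : ℝ) ≤ k.factorial := Nat.cast_nonneg _
  have hr : (k : ℝ) * k * (2 / c₀) / y ≤ Real.exp (-2) := by
    have h1 : (k : ℝ) * k ≤ c₀ / 18 * y := by
      rw [← hu2]; nlinarith
    have h2 : (k : ℝ) * k * (2 / c₀) / y ≤ 1 / 9 := by
      rw [div_le_iff₀ hy]
      calc (k : ℝ) * k * (2 / c₀) ≤ c₀ / 18 * y * (2 / c₀) :=
            mul_le_mul_of_nonneg_right h1 (by positivity)
        _ = 1 / 9 * y := by field_simp; ring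
    refine h2.trans ?_
    rw [Real.exp_neg, one_div]
    apply inv_anti₀ (Real.exp_pos 2)
    have h3 : Real.exp 2 = Real.exp 1 * Real.exp 1 := by rw [← Real.exp_add]; norm_num
    have h4 := Real.exp_one_lt_d9
    have h5 := Real.exp_pos 1
    rw [h3]; nlinarith
  calc ((k.factorial : ℝ) * (k + 1).factorial * (2 / c₀) ^ k) / y ^ k
      = (k + 1) * ((k.factorial : ℝ) * k.factorial) * ((2 / c₀) ^ k / y ^ k) := by
        rw [hf1]; ring
    _ ≤ (k + 1) * ((k : ℝ) ^ k * (k : ℝ) ^ k) * ((2 / c₀) ^ k / y ^ k) := by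
        apply mul_le_mul_of_nonneg_right _ (by positivity)
        apply mul_le_mul_of_nonneg_left _ (by positivity)
        exact mul_le_mul hf hf hf0 (by positivity)
    _ = (k + 1) * ((k : ℝ) * k * (2 / c₀) / y) ^ k := by
        rw [div_pow ((k : ℝ) * k * (2 / c₀)), mul_pow, mul_pow]; ring
    _ ≤ Real.exp k * (Real.exp (-2)) ^ k := by
        apply mul_le_mul (Real.add_one_le_exp _) _ (by positivity) (Real.exp_pos _).le
        exact pow_le_pow_left₀ (by positivity) hr k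
    _ = Real.exp (-(k : ℝ)) := by
        rw [← Real.exp_nat_mul, ← Real.exp_add]; congr 1; ring
    _ ≤ Real.exp 1 * Real.exp (-u) := by
        rw [← Real.exp_add]
        exact Real.exp_le_exp.mpr (by linarith)

/-- `∑_{n ≤ x} μ(n)` -/
noncomputable def mert_M (x : ℝ) : ℂ := ∑ n ∈ Finset.Icc 1 ⌊x⌋₊, mert_a n

lemma mert_unsmooth {x h : ℝ} (hx : 1 ≤ x) (hh : 0 < h) (hh1 : h ≤ 1) :
    h * ‖mert_M x‖ ≤ ‖mert_log (x * Real.exp h)‖ + ‖mert_log x‖ + (2 * h * x + 1) * h := by
  have hx0 : 0 < x := by linarith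
  have he1 : 1 ≤ Real.exp h := Real.one_le_exp hh.le
  set y : ℝ := x * Real.exp h with hy
  have hxy : x ≤ y := by rw [hy]; nlinarith
  have hy0 : 0 < y := by linarith
  have hsub : Finset.Icc 1 ⌊x⌋₊ ⊆ Finset.Icc 1 ⌊y⌋₊ :=
    Finset.Icc_subset_Icc_right (Nat.floor_le_floor hxy)
  have hlogy : ∀ n : ℕ, 0 < n → Real.log (y / n) = Real.log (x / n) + h := by
    intro n hn
    have hn' : (0 : ℝ) < n := by exact_mod_cast hn
    have : y / n = (x / n) * Real.exp h := by rw [hy]; ring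
    rw [this, Real.log_mul (by positivity) (Real.exp_pos h).ne', Real.log_exp]
  have hsplit : mert_log y = (mert_log x + (h : ℂ) * mert_M x) +
      ∑ n ∈ Finset.Icc 1 ⌊y⌋₊ \ Finset.Icc 1 ⌊x⌋₊, mert_a n * ((Real.log (y / n) : ℝ) : ℂ) := by
    unfold mert_log mert_M
    rw [← Finset.sum_sdiff hsub, add_comm]
    congr 1
    rw [Finset.mul_sum, ← Finset.sum_add_distrib]
    apply Finset.sum_congr rfl
    intro n hn
    rw [Finset.mem_Icc] at hn
    rw [hlogy n (by omega)]
    push_cast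
    ring
  have hexp : Real.exp h - 1 ≤ 2 * h := by
    have := Real.abs_exp_sub_one_le (x := h) (by rw [abs_of_pos hh]; exact hh1)
    rw [abs_of_nonneg (by linarith), abs_of_pos hh] at this
    exact this
  have hcard : ((Finset.Icc 1 ⌊y⌋₊ \ Finset.Icc 1 ⌊x⌋₊).card : ℝ) ≤ 2 * h * x + 1 := by
    rw [Finset.card_sdiff_of_subset hsub, Nat.card_Icc, Nat.card_Icc, Nat.add_sub_cancel,
      Nat.add_sub_cancel, Nat.cast_sub (Nat.floor_le_floor hxy)]
    have h1 := Nat.floor_le hy0.le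
    have h2 := Nat.lt_floor_add_one x
    have h3 : y - x ≤ 2 * h * x := by
      have : y - x = x * (Real.exp h - 1) := by rw [hy]; ring
      rw [this]
      nlinarith
    linarith
  have hrest : ‖∑ n ∈ Finset.Icc 1 ⌊y⌋₊ \ Finset.Icc 1 ⌊x⌋₊,
      mert_a n * ((Real.log (y / n) : ℝ) : ℂ)‖ ≤ (2 * h * x + 1) * h := by
    calc _ ≤ ∑ n ∈ Finset.Icc 1 ⌊y⌋₊ \ Finset.Icc 1 ⌊x⌋₊, h := by
          refine norm_sum_le_of_le _ (fun n hn => ?_)
          rw [Finset.mem_sdiff, Finset.mem_Icc, Finset.mem_Icc] at hn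
          obtain ⟨⟨h1, h2⟩, h3⟩ := hn
          have h4 : ⌊x⌋₊ < n := by
            by_contra hcon
            exact h3 ⟨h1, not_lt.mp hcon⟩
          have hn0 : (0 : ℝ) < n := by exact_mod_cast h1
          have h5 : x < n := (Nat.floor_lt hx0.le).mp h4
          have h6 : (n : ℝ) ≤ y := (Nat.le_floor_iff hy0.le).mp h2
          rw [norm_mul, Complex.norm_real]
          have h7 : 0 ≤ Real.log (y / n) := Real.log_nonneg (by rw [le_div_iff₀ hn0]; linarith)
          have h8 : Real.log (y / n) ≤ h := by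
            rw [hlogy n (by omega)]
            have : Real.log (x / n) ≤ 0 := Real.log_nonpos (by positivity) (by
              rw [div_le_one hn0]; linarith)
            linarith
          rw [Real.norm_of_nonneg h7]
          calc _ ≤ 1 * Real.log (y / n) := mul_le_mul_of_nonneg_right (mert_a_norm n) h7
            _ ≤ h := by linarith
      _ = ((Finset.Icc 1 ⌊y⌋₊ \ Finset.Icc 1 ⌊x⌋₊).card : ℝ) * h := by
          rw [Finset.sum_const, nsmul_eq_mul]
      _ ≤ _ := mul_le_mul_of_nonneg_right hcard hh.le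
  have hM : (h : ℂ) * mert_M x = mert_log y - mert_log x -
      ∑ n ∈ Finset.Icc 1 ⌊y⌋₊ \ Finset.Icc 1 ⌊x⌋₊, mert_a n * ((Real.log (y / n) : ℝ) : ℂ) := by
    rw [hsplit]; ring
  have hnM : h * ‖mert_M x‖ = ‖(h : ℂ) * mert_M x‖ := by
    rw [norm_mul, Complex.norm_real, Real.norm_of_nonneg hh.le]
  rw [hnM, hM]
  refine (norm_sub_le _ _).trans ?_
  have := norm_sub_le (mert_log y) (mert_log x)
  linarith

theorem mert (h : INVZ) : MERT := by
  obtain ⟨c₀, C, hc₀, hc₀4, hC, h⟩ := h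
  obtain ⟨K, hK, hk⟩ := mert_log_k hc₀ hc₀4 hC h
  set a : ℝ := Real.sqrt (c₀ / 18) with ha
  have ha0 : 0 < a := Real.sqrt_pos.mpr (by positivity)
  have ha1 : a ≤ 1 := Real.sqrt_le_one.mpr (by linarith)
  have hlogb : ∀ x : ℝ, Real.exp 2 ≤ x →
      ‖mert_log x‖ ≤ K * Real.exp 1 * x * Real.exp (-(a * Real.sqrt (Real.log x))) := by
    intro x hx
    have hx0 : 0 < x := lt_of_lt_of_le (Real.exp_pos 2) hx
    have hlog : 2 ≤ Real.log x := by
      rw [Real.le_log_iff_exp_le hx0]; exact hx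
    obtain ⟨k, hk2⟩ := mert_choose hc₀ (y := Real.log x) (by linarith)
    refine (hk k x hx).trans ?_
    calc K * x * _ ≤ K * x * (Real.exp 1 * Real.exp (-(a * Real.sqrt (Real.log x)))) :=
          mul_le_mul_of_nonneg_left hk2 (by positivity)
      _ = _ := by ring
  set K' : ℝ := K * Real.exp 1 * Real.exp 1 + K * Real.exp 1 + 3 with hK'
  have hK'0 : 0 < K' := by positivity
  refine ⟨a / 4, by positivity, ?_⟩
  have hT : Tendsto (fun x : ℕ => a / 4 * Real.sqrt (Real.log x)) atTop atTop :=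
    Tendsto.const_mul_atTop (by positivity)
      (Real.tendsto_sqrt_atTop.comp (Real.tendsto_log_atTop.comp tendsto_natCast_atTop_atTop))
  filter_upwards [hT.eventually_ge_atTop K',
    tendsto_natCast_atTop_atTop.eventually_ge_atTop (Real.exp 2)] with N hN1 hN2
  set x : ℝ := (N : ℝ) with hx
  have hx0 : 0 < x := lt_of_lt_of_le (Real.exp_pos 2) hN2
  have hlog : 2 ≤ Real.log x := by
    rw [Real.le_log_iff_exp_le hx0]; exact hN2
  have hx1 : 1 ≤ x := by
    have := Real.add_one_le_exp 2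
    linarith
  set s : ℝ := Real.sqrt (Real.log x) with hs
  have hs0 : 0 ≤ s := Real.sqrt_nonneg _
  have hss : s ≤ Real.log x := by
    rw [hs, Real.sqrt_le_left (by linarith)]
    nlinarith
  set η : ℝ := Real.exp (-(a / 2 * s)) with hη
  have hη0 : 0 < η := Real.exp_pos _
  have has : 0 ≤ a / 2 * s := by positivity
  have hη1 : η ≤ 1 := Real.exp_le_one_iff.mpr (by linarith)
  have hηη : Real.exp (-(a * s)) = η * η := by
    rw [hη, ← Real.exp_add]; congr 1; ring
  have hxη : 1 ≤ x * η := by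
    have : x * η = Real.exp (Real.log x + -(a / 2 * s)) := by
      rw [Real.exp_add, Real.exp_log hx0]
    rw [this]
    apply Real.one_le_exp
    nlinarith
  have he1 : 1 ≤ Real.exp η := Real.one_le_exp hη0.le
  have he2 : Real.exp η ≤ Real.exp 1 := Real.exp_le_exp.mpr hη1
  have hxy : x ≤ x * Real.exp η := by nlinarith
  have h1 := hlogb x hN2
  have h2 := hlogb (x * Real.exp η) (hN2.trans hxy)
  have h3 : Real.exp (-(a * Real.sqrt (Real.log (x * Real.exp η)))) ≤ η * η := by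
    rw [← hηη]
    apply Real.exp_le_exp.mpr
    have : s ≤ Real.sqrt (Real.log (x * Real.exp η)) :=
      Real.sqrt_le_sqrt (Real.log_le_log hx0 hxy)
    nlinarith
  rw [← hs, hηη] at h1
  have h4 : ‖mert_log (x * Real.exp η)‖ ≤ K * Real.exp 1 * (x * Real.exp 1) * (η * η) := by
    refine h2.trans ?_
    apply mul_le_mul _ h3 (Real.exp_pos _).le (by positivity)
    apply mul_le_mul_of_nonneg_left _ (by positivity)
    exact mul_le_mul_of_nonneg_left he2 hx0.le
  have h5 := mert_unsmooth hx1 hη0 hη1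
  have h6 : η * ‖mert_M x‖ ≤ η * (K' * (x * η)) := by
    have : (2 * η * x + 1) * η ≤ (2 * η * x + x * η) * η :=
      mul_le_mul_of_nonneg_right (by linarith) hη0.le
    calc η * ‖mert_M x‖ ≤ K * Real.exp 1 * (x * Real.exp 1) * (η * η) +
          K * Real.exp 1 * x * (η * η) + (2 * η * x + x * η) * η := by linarith
      _ = η * (K' * (x * η)) := by rw [hK']; ring
  have h7 : ‖mert_M x‖ ≤ K' * (x * η) := le_of_mul_le_mul_left h6 hη0
  have h8 : |((∑ n ∈ Finset.Icc 1 N, ArithmeticFunction.moebius n : ℤ) : ℝ)| = ‖mert_M x‖ := by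
    unfold mert_M mert_a
    rw [hx, Nat.floor_natCast, ← Int.cast_sum, Complex.norm_intCast]
  rw [h8]
  refine h7.trans ?_
  have h9 : K' ≤ Real.exp (a / 4 * s) := by
    have := Real.add_one_le_exp (a / 4 * s)
    linarith
  calc K' * (x * η) ≤ Real.exp (a / 4 * s) * (x * η) :=
        mul_le_mul_of_nonneg_right h9 (by positivity)
    _ = x * (Real.exp (a / 4 * s) * η) := by ring
    _ = x * Real.exp (-(a / 4 * s)) := by
        rw [hη, ← Real.exp_add]; congr 2; ring

end Pool.Agent.H753Z.SG
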