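import Pool.Agent.H753Z.SG.LamSq

/-!
The prime number theorem for the Liouville function from the one for the Moebius function.
-/

set_option autoImplicit false

namespace Pool.Agent.H753Z.SG

open Finset Filter ArithmeticFunction

theorem pntl_Icc (y : ℕ) : Icc 1 y = Ioc 0 y := by
  ext n; simp only [mem_Icc, mem_Ioc]; omega

/-- the summatory function of `lam` through the one of the Moebius function -/
theorem pntl_sum_eq (y : ℕ) :
    ∑ n ∈ Icc 1 y, lam n =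
      ∑ d ∈ (Ioc 0 y).filter IsSquare, ∑ m ∈ Icc 1 (y / d), moebius m := by
  have h1 : (liouville : ArithmeticFunction ℤ) =
      (liouville * (zeta : ArithmeticFunction ℤ)) * moebius := by
    rw [mul_assoc, coe_zeta_mul_moebius, mul_one]
  have h2 : ∑ n ∈ Icc 1 y, lam n =
      ∑ n ∈ Ioc 0 y, ((liouville * (zeta : ArithmeticFunction ℤ)) * moebius) n := by
    rw [pntl_Icc, ← h1]
  rw [h2, sum_Ioc_mul_eq_sum_sum, sum_filter]
  refine sum_congr rfl fun d hd => ?_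
  have hd0 : d ≠ 0 := by
    have := (mem_Ioc.mp hd).1
    omega
  rw [coe_mul_zeta_apply, lam_divisor_sum d hd0, pntl_Icc]
  split_ifs <;> simp

theorem pntl_M_triv (z : ℕ) : |((∑ n ∈ Icc 1 z, moebius n : ℤ) : ℝ)| ≤ z := by
  have h1 : |∑ n ∈ Icc 1 z, moebius n| ≤ (z : ℤ) := by
    calc |∑ n ∈ Icc 1 z, moebius n| ≤ ∑ n ∈ Icc 1 z, |moebius n| := abs_sum_le_sum_abs _ _
      _ ≤ ∑ n ∈ Icc 1 z, (1 : ℤ) := sum_le_sum fun n _ => abs_moebius_le_one
      _ = z := by simp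
  exact_mod_cast h1

theorem pntl_sq_sum (y : ℕ) (f : ℕ → ℝ) (hf : ∀ d, 0 ≤ f d) :
    ∑ d ∈ (Ioc 0 y).filter IsSquare, f d ≤ ∑ k ∈ Ioo 0 (Nat.sqrt y + 1), f (k * k) := by
  have hsub : (Ioc 0 y).filter IsSquare ⊆ (Ioo 0 (Nat.sqrt y + 1)).image fun k => k * k := by
    intro d hd
    rw [mem_filter, mem_Ioc] at hd
    obtain ⟨⟨h0, hy⟩, k, rfl⟩ := hd
    rw [mem_image]
    refine ⟨k, ?_, rfl⟩
    rw [mem_Ioo]
    refine ⟨Nat.pos_of_ne_zero ?_, Nat.lt_succ_of_le (Nat.le_sqrt.mpr hy)⟩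
    rintro rfl
    simp at h0
  calc ∑ d ∈ (Ioc 0 y).filter IsSquare, f d
      ≤ ∑ d ∈ (Ioo 0 (Nat.sqrt y + 1)).image (fun k => k * k), f d :=
        sum_le_sum_of_subset_of_nonneg hsub fun d _ _ => hf d
    _ = ∑ k ∈ Ioo 0 (Nat.sqrt y + 1), f (k * k) := by
        rw [sum_image]
        intro a _ b _ hab
        exact Nat.mul_self_inj.mp hab

/-- if `|M z| ≤ η z + T` for all `z` then `|L y| ≤ 2 η y + T √y` -/
theorem pntl_bound (η T : ℝ) (hη : 0 ≤ η) (hT : 0 ≤ T)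
    (hM : ∀ z : ℕ, |((∑ n ∈ Icc 1 z, moebius n : ℤ) : ℝ)| ≤ η * z + T) (y : ℕ) :
    |((∑ n ∈ Icc 1 y, lam n : ℤ) : ℝ)| ≤ 2 * η * y + T * Real.sqrt y := by
  rw [pntl_sum_eq, Int.cast_sum]
  calc |∑ d ∈ (Ioc 0 y).filter IsSquare, ((∑ m ∈ Icc 1 (y / d), moebius m : ℤ) : ℝ)|
      ≤ ∑ d ∈ (Ioc 0 y).filter IsSquare, |((∑ m ∈ Icc 1 (y / d), moebius m : ℤ) : ℝ)| :=
        abs_sum_le_sum_abs _ _
    _ ≤ ∑ d ∈ (Ioc 0 y).filter IsSquare, (η * y * ((d : ℝ))⁻¹ + T) := by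
        refine sum_le_sum fun d _ => (hM _).trans ?_
        have h1 : ((y / d : ℕ) : ℝ) ≤ (y : ℝ) / d := Nat.cast_div_le
        have h2 : η * ((y / d : ℕ) : ℝ) ≤ η * ((y : ℝ) / d) := mul_le_mul_of_nonneg_left h1 hη
        rw [div_eq_mul_inv, ← mul_assoc] at h2
        linarith
    _ ≤ ∑ k ∈ Ioo 0 (Nat.sqrt y + 1), (η * y * (((k * k : ℕ) : ℝ))⁻¹ + T) :=
        pntl_sq_sum y (fun d => η * y * ((d : ℝ))⁻¹ + T) fun d => by positivity
    _ = η * y * (∑ k ∈ Ioo 0 (Nat.sqrt y + 1), ((k : ℝ) ^ 2)⁻¹) + T * Nat.sqrt y := by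
        rw [sum_add_distrib, mul_sum, sum_const, Nat.card_Ioo]
        congr 1
        · refine sum_congr rfl fun k _ => ?_
          rw [Nat.cast_mul, sq]
        · simp [mul_comm]
    _ ≤ η * y * 2 + T * Real.sqrt y := by
        have h1 : (∑ k ∈ Ioo 0 (Nat.sqrt y + 1), ((k : ℝ) ^ 2)⁻¹) ≤ 2 := by
          have := sum_Ioo_inv_sq_le (α := ℝ) 0 (Nat.sqrt y + 1)
          simpa using this
        have h2 : ((Nat.sqrt y : ℕ) : ℝ) ≤ Real.sqrt y := Real.nat_sqrt_le_real_sqrt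
        have h3 : 0 ≤ η * y := by positivity
        exact add_le_add (mul_le_mul_of_nonneg_left h1 h3) (mul_le_mul_of_nonneg_left h2 hT)
    _ = 2 * η * y + T * Real.sqrt y := by ring

/-- the comparison of the error terms, with `w = u ^ (1/4)` -/
theorem pntl_cmp (c : ℝ) (hc : 0 < c) (C : ℕ) :
    ∀ᶠ u : ℝ in atTop, 4 * Real.exp (-(c * Real.sqrt (u / 4))) + 2 * Real.exp (-(u / 4)) ≤
      Real.exp (-(C * (Real.log u) ^ 2)) := by
  have hw : Tendsto (fun u : ℝ => u ^ (1 / 4 : ℝ)) atTop atTop :=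
    tendsto_rpow_atTop (by norm_num)
  filter_upwards [eventually_ge_atTop (1 : ℝ),
    hw.eventually_ge_atTop (max (2 * (64 * C + 3) / c) (4 * (64 * C + 3)))] with u hu1 huw
  have hu0 : 0 ≤ u := by linarith
  set w : ℝ := u ^ (1 / 4 : ℝ) with hwdef
  have hC0 : (0 : ℝ) ≤ C := Nat.cast_nonneg C
  have hw1 : 1 ≤ w := Real.one_le_rpow hu1 (by norm_num)
  have hw4 : w ^ 4 = u := by
    rw [hwdef, ← Real.rpow_natCast, ← Real.rpow_mul hu0]; norm_num
  have hsq : Real.sqrt (u / 4) = w ^ 2 / 2 := by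
    rw [show u / 4 = (w ^ 2 / 2) ^ 2 by rw [← hw4]; ring]
    exact Real.sqrt_sq (by positivity)
  have hlog0 : 0 ≤ Real.log u := Real.log_nonneg hu1
  have hlog : Real.log u ≤ u ^ (1 / 8 : ℝ) / (1 / 8) := Real.log_le_rpow_div hu0 (by norm_num)
  have h8 : (u ^ (1 / 8 : ℝ)) ^ 2 = w := by
    rw [hwdef, ← Real.rpow_natCast, ← Real.rpow_mul hu0]; norm_num
  have hlog2 : (Real.log u) ^ 2 ≤ 64 * w := by
    calc (Real.log u) ^ 2 ≤ (u ^ (1 / 8 : ℝ) / (1 / 8)) ^ 2 := pow_le_pow_left₀ hlog0 hlog 2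
      _ = 64 * (u ^ (1 / 8 : ℝ)) ^ 2 := by ring
      _ = 64 * w := by rw [h8]
  have hA : C * (Real.log u) ^ 2 + 3 ≤ (64 * C + 3) * w := by
    have : C * (Real.log u) ^ 2 ≤ C * (64 * w) := mul_le_mul_of_nonneg_left hlog2 hC0
    nlinarith
  have hB1 : (64 * C + 3) * w ≤ c * (w ^ 2 / 2) := by
    have h1 : 2 * (64 * C + 3) / c ≤ w := le_trans (le_max_left _ _) huw
    rw [div_le_iff₀ hc] at h1
    nlinarith
  have hB2 : (64 * C + 3) * w ≤ u / 4 := by
    have h1 : 4 * (64 * C + 3) ≤ w := le_trans (le_max_right _ _) huw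
    have h2 : w ^ 2 ≤ w ^ 4 := pow_le_pow_right₀ hw1 (by norm_num)
    rw [← hw4]
    nlinarith
  have he3 : (8 : ℝ) ≤ Real.exp 3 := by
    have h1 : (2 : ℝ) ≤ Real.exp 1 := by
      have := Real.add_one_le_exp (1 : ℝ)
      linarith
    calc (8 : ℝ) = 2 ^ 3 := by norm_num
      _ ≤ (Real.exp 1) ^ 3 := pow_le_pow_left₀ (by norm_num) h1 3
      _ = Real.exp 3 := by rw [← Real.exp_nat_mul]; norm_num
  have key : ∀ t : ℝ, C * (Real.log u) ^ 2 + 3 ≤ t →
      8 * Real.exp (-t) ≤ Real.exp (-(C * (Real.log u) ^ 2)) := fun t ht => by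
    calc 8 * Real.exp (-t) ≤ Real.exp 3 * Real.exp (-t) :=
          mul_le_mul_of_nonneg_right he3 (Real.exp_pos _).le
      _ = Real.exp (3 + -t) := by rw [Real.exp_add]
      _ ≤ _ := Real.exp_le_exp.mpr (by linarith)
  have k1 := key (c * Real.sqrt (u / 4)) (by rw [hsq]; linarith)
  have k2 := key (u / 4) (by linarith)
  have := Real.exp_pos (-(u / 4))
  linarith

theorem pntl (h : MERT) : PNTL := by
  obtain ⟨c, hc, hM⟩ := h
  obtain ⟨x₀, hx₀⟩ := eventually_atTop.mp hM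
  intro C
  have hlog : Tendsto (fun x : ℕ => Real.log x) atTop atTop :=
    Real.tendsto_log_atTop.comp tendsto_natCast_atTop_atTop
  have hT : Tendsto (fun x : ℕ => Real.exp (Real.log x / 4)) atTop atTop :=
    Real.tendsto_exp_atTop.comp (hlog.atTop_div_const (by norm_num))
  filter_upwards [hlog.eventually (pntl_cmp c hc C), hT.eventually_ge_atTop (x₀ : ℝ),
    eventually_ge_atTop 1] with x hcmp hTx hx1 y hy
  set u : ℝ := Real.log x with hu
  set T : ℝ := Real.exp (u / 4) with hTdef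
  set η : ℝ := Real.exp (-(c * Real.sqrt (u / 4))) with hη
  have hx0 : (0 : ℝ) < x := by exact_mod_cast hx1
  have hTpos : 0 < T := Real.exp_pos _
  have hηpos : 0 < η := Real.exp_pos _
  have hMz : ∀ z : ℕ, |((∑ n ∈ Icc 1 z, moebius n : ℤ) : ℝ)| ≤ η * z + T := fun z => by
    have hz0 : (0 : ℝ) ≤ z := Nat.cast_nonneg z
    rcases le_total T (z : ℝ) with hz | hz
    · have h1 : x₀ ≤ z := by exact_mod_cast hTx.trans hz
      have h2 := hx₀ z h1
      have h3 : u / 4 ≤ Real.log z := by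
        rw [Real.le_log_iff_exp_le (hTpos.trans_le hz)]; exact hz
      have h4 : Real.exp (-(c * Real.sqrt (Real.log z))) ≤ η := by
        apply Real.exp_le_exp.mpr
        have := mul_le_mul_of_nonneg_left (Real.sqrt_le_sqrt h3) hc.le
        linarith
      have h5 := mul_le_mul_of_nonneg_left h4 hz0
      linarith
    · have := pntl_M_triv z
      have h2 : 0 ≤ η * z := by positivity
      linarith
  have hb := pntl_bound η T hηpos.le hTpos.le hMz y
  have hy' : (y : ℝ) ≤ 2 * x := by exact_mod_cast hy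
  have hxe : (x : ℝ) = Real.exp u := by rw [hu, Real.exp_log hx0]
  have hsq : Real.sqrt y ≤ 2 * Real.exp (u / 2) := by
    apply Real.sqrt_le_iff.mpr
    refine ⟨by positivity, ?_⟩
    have : Real.exp (u / 2) ^ 2 = x := by
      rw [← Real.exp_nat_mul, hxe]; congr 1; push_cast; ring
    rw [mul_pow, this]
    linarith
  have hTs : T * Real.sqrt y ≤ x * (2 * Real.exp (-(u / 4))) := by
    calc T * Real.sqrt y ≤ T * (2 * Real.exp (u / 2)) := mul_le_mul_of_nonneg_left hsq hTpos.le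
      _ = 2 * Real.exp (u / 4 + u / 2) := by rw [hTdef, Real.exp_add]; ring
      _ = 2 * Real.exp (u + -(u / 4)) := by congr 2; ring
      _ = x * (2 * Real.exp (-(u / 4))) := by rw [Real.exp_add, ← hxe]; ring
  have hηy : 2 * η * y ≤ x * (4 * η) := by nlinarith
  calc |((∑ n ∈ Icc 1 y, lam n : ℤ) : ℝ)| ≤ 2 * η * y + T * Real.sqrt y := hb
    _ ≤ x * (4 * η) + x * (2 * Real.exp (-(u / 4))) := add_le_add hηy hTs
    _ = x * (4 * η + 2 * Real.exp (-(u / 4))) := by ring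
    _ ≤ x * Real.exp (-(C * (Real.log u) ^ 2)) := mul_le_mul_of_nonneg_left hcmp hx0.le

end Pool.Agent.H753Z.SG
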