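import Mathlib
import Pool.Agent.H753Z.SG.Defs

set_option autoImplicit false

namespace Pool.Agent.H753Z.SG

open Finset Filter

lemma smo_pi {L : ℝ} (hL : 10 ≤ L) (hlog : Real.log L ≤ L / 160000) :
    L ^ 399 ≤ ((Nat.primesLE ⌊L ^ 400⌋₊).card : ℝ) := by
  set y := ⌊L ^ 400⌋₊ with hy
  have hL0 : 0 < L := by linarith
  have hL1 : 1 ≤ L := by linarith
  have h399 : 10 ≤ L ^ 399 := hL.trans (le_self_pow₀ hL1 (by norm_num))
  have h400 : L ^ 400 = L ^ 399 * L := pow_succ L 399
  have hy1 : (y : ℝ) ≤ L ^ 400 := Nat.floor_le (by positivity)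
  have hy2 : L ^ 400 < y + 1 := Nat.lt_floor_add_one _
  have hbig : 10 * L ≤ L ^ 400 := by rw [h400]; nlinarith
  have hy3 : L ^ 400 / 2 ≤ y := by linarith
  have hy4 : (1 : ℝ) < y := by linarith
  have hlogL : 0 < Real.log L := Real.log_pos (by linarith)
  have hly : Real.log y ≤ 400 * Real.log L := by
    have := Real.log_le_log (by linarith) hy1
    rwa [Real.log_pow] at this
  have hly1 : Real.log (y + 1) ≤ 401 * Real.log L := by
    have h : (y : ℝ) + 1 ≤ L ^ 401 := by
      rw [pow_succ]; nlinarith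
    have := Real.log_le_log (by linarith) h
    rwa [Real.log_pow] at this
  have hlypos : 0 < Real.log y := Real.log_pos hy4
  have hpi := Chebyshev.pi_ge y
  rw [Nat.primesLE_card_eq_primeCounting]
  refine le_trans ?_ hpi
  rw [le_div_iff₀ hlypos]
  have h2 : (1 / 2 : ℝ) ≤ Real.log 2 := by have := Real.log_two_gt_d9; linarith
  have a1 : (y : ℝ) * (1 / 2) ≤ y * Real.log 2 := mul_le_mul_of_nonneg_left h2 (by linarith)
  have a2 : L ^ 399 * Real.log y ≤ L ^ 399 * (L / 8) :=
    mul_le_mul_of_nonneg_left (by linarith) (by positivity)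
  have a3 : L ^ 399 * (L / 8) = L ^ 400 / 8 := by rw [h400]; ring
  linarith

lemma smo_choose {n j : ℕ} {L : ℝ} (hL : 10 ≤ L) (hn : L ^ 399 ≤ n) (hj : (j : ℝ) ≤ L) :
    (L ^ 397) ^ j ≤ (n.choose j : ℝ) := by
  have hL1 : 1 ≤ L := by linarith
  have h := Nat.pow_le_choose (α := ℝ) j n
  refine le_trans ?_ h
  have hf : (0 : ℝ) < (j.factorial : ℝ) := by exact_mod_cast Nat.factorial_pos j
  rw [le_div_iff₀ hf]
  have hfj : (j.factorial : ℝ) ≤ L ^ j := by
    have h1 : (j.factorial : ℝ) ≤ (j : ℝ) ^ j := by exact_mod_cast Nat.factorial_le_pow j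
    exact h1.trans (pow_le_pow_left₀ (by positivity) hj j)
  have h398 : 10 ≤ L ^ 398 := hL.trans (le_self_pow₀ hL1 (by norm_num))
  have hL398 : L ≤ L ^ 398 := le_self_pow₀ hL1 (by norm_num)
  have h399 : L ^ 399 = L ^ 398 * L := pow_succ L 398
  have hjn : j ≤ n + 1 := by
    have : (j : ℝ) ≤ n + 1 := by nlinarith
    exact_mod_cast this
  have hc : L ^ 398 ≤ ((n + 1 - j : ℕ) : ℝ) := by
    rw [Nat.cast_sub hjn]; push_cast; nlinarith
  calc (L ^ 397) ^ j * (j.factorial : ℝ) ≤ (L ^ 397) ^ j * L ^ j :=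
        mul_le_mul_of_nonneg_left hfj (by positivity)
    _ = (L ^ 398) ^ j := by rw [← mul_pow, ← pow_succ]
    _ ≤ ((n + 1 - j : ℕ) : ℝ) ^ j := pow_le_pow_left₀ (by positivity) hc j

theorem smo : SMO := by
  refine ⟨400, ?_⟩
  have tl : Tendsto (fun x : ℕ => Real.log x) atTop atTop :=
    Real.tendsto_log_atTop.comp tendsto_natCast_atTop_atTop
  have e1 : ∀ᶠ L : ℝ in atTop, Real.log L ≤ L / 160000 := by
    have := Real.isLittleO_log_id_atTop.bound (c := 1 / 160000) (by norm_num)
    filter_upwards [this, eventually_ge_atTop (1 : ℝ)] with L h h1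
    rw [Real.norm_of_nonneg (Real.log_nonneg h1), id, Real.norm_of_nonneg (by linarith)] at h
    linarith
  filter_upwards [tl.eventually e1, tl.eventually (eventually_ge_atTop (10 : ℝ)),
    eventually_ge_atTop 1] with x hlog hL hx1
  set L := Real.log x with hLdef
  have hx0 : (0 : ℝ) < x := by exact_mod_cast hx1
  have hxe : (x : ℝ) = Real.exp L := (Real.exp_log hx0).symm
  have hL0 : 0 < L := by linarith
  have hlogL1 : 1 ≤ Real.log L := by
    rw [Real.le_log_iff_exp_le hL0]
    have := Real.exp_one_lt_d9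
    linarith
  set y := ⌊L ^ 400⌋₊ with hy
  set R := Nat.primesLE y with hR
  set t := L / (400 * Real.log L) with ht
  have ht0 : 0 < t := by positivity
  have htL : t * (400 * Real.log L) = L := by rw [ht]; field_simp
  set j := ⌈t⌉₊ - 1 with hj
  have hc1 : 1 ≤ ⌈t⌉₊ := Nat.one_le_iff_ne_zero.2 (Nat.ceil_pos.2 ht0).ne'
  have hjc : (j : ℝ) = ⌈t⌉₊ - 1 := by rw [hj, Nat.cast_sub hc1]; simp
  have hj1 : (j : ℝ) < t := by have := Nat.ceil_lt_add_one ht0.le; linarith
  have hj2 : t - 1 ≤ j := by have := Nat.le_ceil t; linarith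
  have hjL : (j : ℝ) ≤ L := by nlinarith
  have hmem : ∀ r ∈ R, r.Prime ∧ r ≤ y := fun r hr => by
    rw [hR, Nat.mem_primesLE] at hr; exact ⟨hr.2, hr.1⟩
  have hy1 : (y : ℝ) ≤ L ^ 400 := Nat.floor_le (by positivity)
  refine ⟨(powersetCard j R).image fun S => ∏ r ∈ S, r, ?_, ?_⟩
  · intro u hu
    obtain ⟨S, hS, rfl⟩ := mem_image.1 hu
    obtain ⟨hSR, hSc⟩ := mem_powersetCard.1 hS
    refine ⟨Nat.one_le_iff_ne_zero.2 (prod_ne_zero_iff.2 fun r hr => (hmem r (hSR hr)).1.ne_zero),
      ?_, ?_⟩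
    · have h1 : ∏ r ∈ S, r ≤ y ^ j := by
        rw [← hSc]; exact prod_le_pow_card S _ y fun r hr => (hmem r (hSR hr)).2
      have h2 : ((y ^ j : ℕ) : ℝ) < x := by
        push_cast
        calc (y : ℝ) ^ j ≤ (L ^ 400) ^ j := pow_le_pow_left₀ (by positivity) hy1 j
          _ = Real.exp (j * (400 * Real.log L)) := by
            rw [Real.exp_nat_mul, show (400 : ℝ) * Real.log L = ((400 : ℕ) : ℝ) * Real.log L by
              norm_num, Real.exp_nat_mul, Real.exp_log hL0]
          _ < Real.exp L := by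
            apply Real.exp_lt_exp.2
            calc (j : ℝ) * (400 * Real.log L) < t * (400 * Real.log L) :=
                  mul_lt_mul_of_pos_right hj1 (by positivity)
              _ = L := htL
          _ = x := hxe.symm
      exact h1.trans_lt (by exact_mod_cast h2)
    · intro r hr hd
      obtain ⟨q, hq, hrq⟩ := (Prime.dvd_finsetProd_iff hr.prime _).1 hd
      have hq' := hmem q (hSR hq)
      have : r = q := (Nat.prime_dvd_prime_iff_eq hr hq'.1).1 hrq
      subst this
      have : (r : ℝ) ≤ y := by exact_mod_cast hq'.2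
      exact this.trans hy1
  · rw [card_image_of_injOn, card_powersetCard]
    · refine le_trans ?_ (smo_choose hL (smo_pi hL hlog) hjL)
      have e : (L ^ 397) ^ j = Real.exp (j * (397 * Real.log L)) := by
        rw [Real.exp_nat_mul, show (397 : ℝ) * Real.log L = ((397 : ℕ) : ℝ) * Real.log L by
          norm_num, Real.exp_nat_mul, Real.exp_log hL0]
      rw [e, Real.rpow_def_of_pos hx0, ← hLdef]
      apply Real.exp_le_exp.2
      have a : (t - 1) * (397 * Real.log L) ≤ j * (397 * Real.log L) :=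
        mul_le_mul_of_nonneg_right hj2 (by positivity)
      nlinarith
    · intro S hS T hT hST
      have hS' := (mem_powersetCard.1 (mem_coe.1 hS)).1
      have hT' := (mem_powersetCard.1 (mem_coe.1 hT)).1
      have a := Nat.primeFactors_prod (s := S) fun p hp => (hmem p (hS' hp)).1
      have b := Nat.primeFactors_prod (s := T) fun p hp => (hmem p (hT' hp)).1
      rw [← a, ← b]
      exact congrArg _ hST

end Pool.Agent.H753Z.SG
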