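import Mathlib

/-!
Project SG, task SPL: elementary summation lemmas.
-/

set_option autoImplicit false

namespace Pool.Agent.H753Z.SG

open Finset

lemma spl_log_step {N : ℕ} (hN : 1 ≤ N) :
    1 / ((N : ℝ) + 1) ≤ Real.log ((N : ℝ) + 1) - Real.log N := by
  have h0 : (0 : ℝ) < N := by exact_mod_cast hN
  have h1 : (0 : ℝ) < (N : ℝ) / (N + 1) := by positivity
  have h2 := Real.log_le_sub_one_of_pos h1
  rw [Real.log_div h0.ne' (by positivity)] at h2
  have h3 : (N : ℝ) / (N + 1) - 1 = -(1 / ((N : ℝ) + 1)) := by field_simp; ring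
  linarith

lemma spl_harm (x : ℕ) (hx : 1 ≤ x) : ∑ e ∈ Icc 1 x, (1 : ℝ) / e ≤ 1 + Real.log x := by
  induction x, hx using Nat.le_induction with
  | base => simp
  | succ n hn ih =>
    rw [Finset.sum_Icc_succ_top (by omega)]
    have := spl_log_step hn
    push_cast
    linarith

lemma spl_abel (f : ℕ → ℝ) (η : ℝ) (hη : 0 ≤ η) (y : ℕ) (hy : 1 ≤ y)
    (hS : ∀ t, y ≤ t → |∑ n ∈ Icc 1 t, f n| ≤ t * η) (N : ℕ) (hN : y ≤ N) :
    |∑ n ∈ Icc 1 N, f n / n - ∑ n ∈ Icc 1 y, f n / n| ≤ η * (2 + Real.log N) := by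
  have key : ∀ M, y ≤ M →
      |(∑ n ∈ Icc 1 M, f n / n - (∑ n ∈ Icc 1 M, f n) / M) -
        (∑ n ∈ Icc 1 y, f n / n - (∑ n ∈ Icc 1 y, f n) / y)| ≤
          η * (Real.log M - Real.log y) := by
    intro M hM
    induction M, hM using Nat.le_induction with
    | base => simp
    | succ m hm ih =>
      have hm1 : 1 ≤ m := le_trans hy hm
      have hm0 : (0 : ℝ) < m := by exact_mod_cast hm1
      rw [Finset.sum_Icc_succ_top (by omega), Finset.sum_Icc_succ_top (by omega)]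
      have h1 := hS m hm
      have h2 := spl_log_step hm1
      set A := ∑ n ∈ Icc 1 m, f n / n
      set B := ∑ n ∈ Icc 1 m, f n
      set C := ∑ n ∈ Icc 1 y, f n / n - (∑ n ∈ Icc 1 y, f n) / y
      have e : A + f (m + 1) / ((m + 1 : ℕ) : ℝ) - (B + f (m + 1)) / ((m + 1 : ℕ) : ℝ) - C =
          (A - B / m - C) + B / m * (1 / ((m : ℝ) + 1)) := by
        push_cast
        field_simp
        ring
      rw [e]
      have h3 : |B / m * (1 / ((m : ℝ) + 1))| ≤ η * (1 / ((m : ℝ) + 1)) := by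
        rw [abs_mul, abs_of_pos (by positivity : (0 : ℝ) < 1 / ((m : ℝ) + 1))]
        apply mul_le_mul_of_nonneg_right _ (by positivity)
        rw [abs_div, abs_of_pos hm0, div_le_iff₀ hm0]
        linarith
      have h4 := abs_add_le (A - B / m - C) (B / m * (1 / ((m : ℝ) + 1)))
      have h5 := mul_le_mul_of_nonneg_left h2 hη
      push_cast
      nlinarith
  have k := key N hN
  have hN0 : (0 : ℝ) < N := by exact_mod_cast le_trans hy hN
  have hy0 : (0 : ℝ) < y := by exact_mod_cast hy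
  have a1 : |(∑ n ∈ Icc 1 N, f n) / N| ≤ η := by
    rw [abs_div, abs_of_pos hN0, div_le_iff₀ hN0]
    have := hS N hN
    linarith
  have a2 : |(∑ n ∈ Icc 1 y, f n) / y| ≤ η := by
    rw [abs_div, abs_of_pos hy0, div_le_iff₀ hy0]
    have := hS y le_rfl
    linarith
  have a3 : 0 ≤ η * Real.log y := mul_nonneg hη (Real.log_nonneg (by exact_mod_cast hy))
  rw [abs_le] at k a1 a2 ⊢
  constructor <;> nlinarith [k.1, k.2, a1.1, a1.2, a2.1, a2.2]

lemma spl_conv (f : ℕ → ℝ) (x : ℕ) :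
    ∑ n ∈ Icc 1 x, ∑ d ∈ n.divisors, f d = ∑ d ∈ Icc 1 x, f d * ((x / d : ℕ) : ℝ) := by
  have h1 : ∀ n ∈ Icc 1 x, ∑ d ∈ n.divisors, f d = ∑ d ∈ Icc 1 x, if d ∣ n then f d else 0 := by
    intro n hn
    rw [Finset.mem_Icc] at hn
    rw [← Finset.sum_filter]
    apply Finset.sum_congr _ (fun _ _ => rfl)
    ext d
    simp only [Nat.mem_divisors, Finset.mem_filter, Finset.mem_Icc]
    constructor
    · rintro ⟨h, h0⟩
      exact ⟨⟨Nat.pos_of_dvd_of_pos h (by omega), le_trans (Nat.le_of_dvd (by omega) h) hn.2⟩, h⟩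
    · rintro ⟨_, h⟩
      exact ⟨h, by omega⟩
  rw [Finset.sum_congr rfl h1, Finset.sum_comm]
  apply Finset.sum_congr rfl
  intro d _
  rw [← Finset.sum_filter, Finset.sum_const, nsmul_eq_mul, mul_comm]
  congr 2
  have : Icc 1 x = Ioc 0 x := by ext n; simp only [Finset.mem_Icc, Finset.mem_Ioc]; omega
  rw [this, Nat.Ioc_filter_dvd_card_eq_div]

lemma spl_tail (f : ℕ → ℝ) (η : ℝ) (hη : 0 ≤ η) (x y : ℕ) (hy : 1 ≤ y) (hx : y ≤ x)
    (hS : ∀ t, y ≤ t → |∑ n ∈ Icc 1 t, f n| ≤ t * η) :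
    |∑ d ∈ Ioc y x, f d * ((x / d : ℕ) : ℝ)| ≤ 2 * η * x * (1 + Real.log x) := by
  have h1 : ∀ d ∈ Ioc y x, f d * ((x / d : ℕ) : ℝ) =
      ∑ e ∈ Icc 1 x, if d ≤ x / e then f d else 0 := by
    intro d hd
    rw [Finset.mem_Ioc] at hd
    rw [← Finset.sum_filter, Finset.sum_const, nsmul_eq_mul, mul_comm]
    congr 2
    have : (Icc 1 x).filter (fun e => d ≤ x / e) = Icc 1 (x / d) := by
      ext e
      simp only [Finset.mem_filter, Finset.mem_Icc]
      constructor
      · rintro ⟨⟨h1, _⟩, h3⟩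
        refine ⟨h1, ?_⟩
        rw [Nat.le_div_iff_mul_le (by omega)] at h3 ⊢
        rwa [mul_comm]
      · rintro ⟨h1, h2⟩
        refine ⟨⟨h1, le_trans h2 (Nat.div_le_self _ _)⟩, ?_⟩
        rw [Nat.le_div_iff_mul_le (by omega)] at h2 ⊢
        rwa [mul_comm]
    rw [this]
    simp
  rw [Finset.sum_congr rfl h1, Finset.sum_comm]
  have h2 : ∀ e ∈ Icc 1 x, |∑ d ∈ Ioc y x, if d ≤ x / e then f d else 0| ≤
      2 * η * x * (1 / e) := by
    intro e he
    rw [Finset.mem_Icc] at he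
    have he0 : (0 : ℝ) < e := by exact_mod_cast he.1
    rw [← Finset.sum_filter]
    have hq : ((x / e : ℕ) : ℝ) ≤ x * (1 / e) := by
      rw [mul_one_div]; exact Nat.cast_div_le
    by_cases hc : y ≤ x / e
    · have e1 : (Ioc y x).filter (fun d => d ≤ x / e) = Ioc y (x / e) := by
        ext d
        have := Nat.div_le_self x e
        simp only [Finset.mem_filter, Finset.mem_Ioc]
        omega
      have e2 : ∑ d ∈ Ioc y (x / e), f d = ∑ n ∈ Icc 1 (x / e), f n - ∑ n ∈ Icc 1 y, f n := by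
        have a : ∀ t : ℕ, Icc 1 t = Ioc 0 t := by
          intro t; ext n; simp only [Finset.mem_Icc, Finset.mem_Ioc]; omega
        rw [a, a, ← Finset.sum_Ioc_consecutive f (Nat.zero_le y) hc]
        ring
      rw [e1, e2]
      have b1 := hS _ hc
      have b2 := hS y le_rfl
      have b3 : (y : ℝ) ≤ ((x / e : ℕ) : ℝ) := by exact_mod_cast hc
      have b4 := abs_sub (∑ n ∈ Icc 1 (x / e), f n) (∑ n ∈ Icc 1 y, f n)
      have b5 := mul_le_mul_of_nonneg_right hq hη
      have b6 := mul_le_mul_of_nonneg_right b3 hη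
      nlinarith
    · have e1 : (Ioc y x).filter (fun d => d ≤ x / e) = ∅ := by
        ext d
        simp only [Finset.mem_filter, Finset.mem_Ioc, Finset.notMem_empty, iff_false]
        omega
      rw [e1]
      simp only [Finset.sum_empty, abs_zero]
      positivity
  refine (Finset.abs_sum_le_sum_abs _ _).trans ((Finset.sum_le_sum h2).trans ?_)
  rw [← Finset.mul_sum]
  exact mul_le_mul_of_nonneg_left (spl_harm x (le_trans hy hx)) (by positivity)

lemma spl_head (f : ℕ → ℝ) (hf : ∀ n, |f n| ≤ 1) (x y : ℕ) :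
    |(x : ℝ) * ∑ d ∈ Icc 1 y, f d / d - ∑ d ∈ Icc 1 y, f d * ((x / d : ℕ) : ℝ)| ≤ y := by
  rw [Finset.mul_sum, ← Finset.sum_sub_distrib]
  refine (Finset.abs_sum_le_sum_abs _ _).trans ?_
  have h : ∀ d ∈ Icc 1 y, |(x : ℝ) * (f d / d) - f d * ((x / d : ℕ) : ℝ)| ≤ 1 := by
    intro d hd
    rw [Finset.mem_Icc] at hd
    have hd0 : (0 : ℝ) < d := by exact_mod_cast hd.1
    have e : (x : ℝ) * (f d / d) - f d * ((x / d : ℕ) : ℝ) =
        f d * ((x : ℝ) / d - ((x / d : ℕ) : ℝ)) := by ring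
    have h1 : ((x / d : ℕ) : ℝ) ≤ (x : ℝ) / d := Nat.cast_div_le
    have h2 : (x : ℝ) / d ≤ ((x / d : ℕ) : ℝ) + 1 := by
      rw [div_le_iff₀ hd0]
      have h3 : x < (x / d + 1) * d := by
        have := Nat.div_add_mod x d
        have := Nat.mod_lt x (show d > 0 by omega)
        nlinarith
      exact_mod_cast h3.le
    rw [e, abs_mul]
    have h4 : |(x : ℝ) / d - ((x / d : ℕ) : ℝ)| ≤ 1 := by
      rw [abs_le]; constructor <;> linarith
    exact mul_le_one₀ (hf d) (abs_nonneg _) h4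
  refine (Finset.sum_le_sum h).trans ?_
  simp

lemma spl_hyp (f : ℕ → ℝ) (hf : ∀ n, |f n| ≤ 1) (η : ℝ) (hη : 0 ≤ η) (x y : ℕ) (hy : 1 ≤ y)
    (hx : y ≤ x) (hS : ∀ t, y ≤ t → |∑ n ∈ Icc 1 t, f n| ≤ t * η) :
    |(x : ℝ) * ∑ d ∈ Icc 1 y, f d / d| ≤
      |∑ n ∈ Icc 1 x, ∑ d ∈ n.divisors, f d| + y + 2 * η * x * (1 + Real.log x) := by
  have h1 := spl_tail f η hη x y hy hx hS
  have h2 := spl_head f hf x y
  rw [spl_conv]
  have a : ∀ t : ℕ, Icc 1 t = Ioc 0 t := by
    intro t; ext n; simp only [Finset.mem_Icc, Finset.mem_Ioc]; omega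
  have h3 : ∑ d ∈ Icc 1 x, f d * ((x / d : ℕ) : ℝ) =
      ∑ d ∈ Icc 1 y, f d * ((x / d : ℕ) : ℝ) + ∑ d ∈ Ioc y x, f d * ((x / d : ℕ) : ℝ) := by
    rw [a, a, Finset.sum_Ioc_consecutive _ (Nat.zero_le y) hx]
  rw [h3]
  set A := (x : ℝ) * ∑ d ∈ Icc 1 y, f d / d
  set B := ∑ d ∈ Icc 1 y, f d * ((x / d : ℕ) : ℝ)
  set C := ∑ d ∈ Ioc y x, f d * ((x / d : ℕ) : ℝ)
  have e : A = (B + C) + (A - B) + (-C) := by ring
  have t1 := abs_add_le ((B + C) + (A - B)) (-C)
  have t2 := abs_add_le (B + C) (A - B)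
  rw [← e, abs_neg] at t1
  linarith

lemma spl_lam_div (n : ℕ) (hn : n ≠ 0) :
    ∑ d ∈ n.divisors, ArithmeticFunction.liouville d = 0 ∨
      (∑ d ∈ n.divisors, ArithmeticFunction.liouville d = 1 ∧ IsSquare n) := by
  have hm : ArithmeticFunction.IsMultiplicative
      (ArithmeticFunction.liouville * (ArithmeticFunction.zeta : ArithmeticFunction ℤ)) :=
    ArithmeticFunction.isMultiplicative_liouville.mul
      ArithmeticFunction.isMultiplicative_zeta.natCast
  induction n using Nat.recOnPosPrimePosCoprime with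
  | zero => exact absurd rfl hn
  | one => right; simp [ArithmeticFunction.liouville_apply_one]
  | prime_pow p k hp hk =>
    rw [Nat.sum_divisors_prime_pow hp]
    have e : ∀ i ∈ range (k + 1), ArithmeticFunction.liouville (p ^ i) = (-1 : ℤ) ^ i := by
      intro i _
      rw [ArithmeticFunction.liouville_apply (pow_ne_zero _ hp.ne_zero),
        ArithmeticFunction.cardFactors_apply_prime_pow hp]
    rw [Finset.sum_congr rfl e, neg_one_geom_sum]
    by_cases h : Even (k + 1)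
    · left; rw [if_pos h]
    · right
      rw [if_neg h]
      refine ⟨rfl, ?_⟩
      have : Even k := by
        rw [Nat.even_add_one] at h
        exact not_not.1 h
      exact this.isSquare_pow p
  | coprime a b ha hb hab iha ihb =>
    have e := hm.map_mul_of_coprime hab
    simp only [ArithmeticFunction.coe_mul_zeta_apply] at e
    rw [e]
    rcases iha (by omega) with h | ⟨h, s⟩
    · left; rw [h, zero_mul]
    · rcases ihb (by omega) with h' | ⟨h', s'⟩
      · left; rw [h', mul_zero]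
      · right; rw [h, h']; exact ⟨rfl, s.mul s'⟩

lemma spl_squares (x : ℕ) :
    |∑ n ∈ Icc 1 x, ∑ d ∈ n.divisors, ((ArithmeticFunction.liouville d : ℤ) : ℝ)| ≤
      Real.sqrt x := by
  classical
  have h1 : ∀ n ∈ Icc 1 x, |∑ d ∈ n.divisors, ((ArithmeticFunction.liouville d : ℤ) : ℝ)| ≤
      if IsSquare n then 1 else 0 := by
    intro n hn
    rw [Finset.mem_Icc] at hn
    rw [← Int.cast_sum]
    rcases spl_lam_div n (by omega) with h | ⟨h, s⟩
    · rw [h]; split_ifs <;> simp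
    · rw [h, if_pos s]; simp
  refine (Finset.abs_sum_le_sum_abs _ _).trans ((Finset.sum_le_sum h1).trans ?_)
  rw [← Finset.sum_filter, Finset.sum_const, nsmul_eq_mul, mul_one]
  have h2 : (Icc 1 x).filter (fun n => IsSquare n) ⊆ (Icc 1 (Nat.sqrt x)).image (fun k => k * k) := by
    intro n hn
    rw [Finset.mem_filter, Finset.mem_Icc] at hn
    obtain ⟨⟨a1, a2⟩, k, rfl⟩ := hn
    rw [Finset.mem_image]
    refine ⟨k, ?_, rfl⟩
    rw [Finset.mem_Icc]
    exact ⟨Nat.pos_of_ne_zero (by rintro rfl; simp at a1), Nat.le_sqrt.2 a2⟩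
  have h3 := (Finset.card_le_card h2).trans Finset.card_image_le
  simp only [Nat.card_Icc, add_tsub_cancel_right] at h3
  calc (((Icc 1 x).filter (fun n => IsSquare n)).card : ℝ) ≤ (Nat.sqrt x : ℝ) := by
        exact_mod_cast h3
    _ ≤ Real.sqrt x := Real.nat_sqrt_le_real_sqrt

end Pool.Agent.H753Z.SG
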