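import Mathlib
import Pool.Agent.H753Z.SG.Defs
import Pool.Agent.H753Z.SG.Spl1
import Pool.Agent.H307R2.Sg6

/-!
Project SG, task SPL: a small prime quadratic residue from the Burgess bound and Siegel's theorem.
-/

set_option autoImplicit false

namespace Pool.Agent.H753Z.SG

open Finset Filter

/-- the Legendre symbol as a complex Dirichlet character -/
noncomputable def spl_char (p : ℕ) [Fact p.Prime] : DirichletCharacter ℂ p :=
  (quadraticChar (ZMod p)).ringHomComp (Int.castRingHom ℂ)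

lemma spl_char_apply (p : ℕ) [Fact p.Prime] (n : ℕ) :
    spl_char p (n : ZMod p) = ((chi p n : ℤ) : ℂ) := by
  unfold spl_char chi
  rw [← jacobiSym.legendreSym.to_jacobiSym]
  simp [legendreSym]

lemma spl_char_sq (p : ℕ) [Fact p.Prime] : spl_char p ^ 2 = 1 :=
  ((quadraticChar_isQuadratic (ZMod p)).comp _).sq_eq_one

lemma spl_char_ne (p : ℕ) [Fact p.Prime] (h2 : p ≠ 2) : spl_char p ≠ 1 := by
  unfold spl_char
  rw [MulChar.ringHomComp_ne_one_iff (Int.cast_injective)]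
  apply quadraticChar_ne_one
  rwa [ZMod.ringChar_zmod_n]

lemma spl_char_prim (p : ℕ) [hp : Fact p.Prime] (h2 : p ≠ 2) : (spl_char p).IsPrimitive := by
  rw [DirichletCharacter.isPrimitive_def]
  rcases (Nat.dvd_prime hp.out).1 (spl_char p).conductor_dvd_level with h | h
  · exact absurd (DirichletCharacter.eq_one_iff_conductor_eq_one.2 h) (spl_char_ne p h2)
  · exact h

lemma spl_chi_abs (p n : ℕ) : |((chi p n : ℤ) : ℝ)| ≤ 1 := by
  unfold chi
  rcases jacobiSym.trichotomy (n : ℤ) p with h | h | h <;> rw [h] <;> simp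

lemma spl_L_trunc (p : ℕ) [hp : Fact p.Prime] (h2 : p ≠ 2) (N : ℕ) (hN : 1 ≤ N) :
    ‖(spl_char p).LFunction 1‖ ≤ |∑ n ∈ Icc 1 N, ((chi p n : ℤ) : ℝ) / n| + p / N := by
  have h1 := Pool.Agent.H307R2.LFunction_eq (spl_char_ne p h2) hN (s := 1) (by simp)
  have h3 := Pool.Agent.H307R2.TM_norm_le hN
    (Pool.Agent.H307R2.Ech_norm_le (spl_char_ne p h2) N) (s := 1) (by simp)
  rw [h1, one_mul]
  refine (norm_add_le _ _).trans (add_le_add (le_of_eq ?_) (h3.trans (le_of_eq ?_)))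
  · have e : ∑ n ∈ Icc 1 N, spl_char p (n : ZMod p) * (n : ℂ) ^ (-(1 : ℂ)) =
        ((∑ n ∈ Icc 1 N, ((chi p n : ℤ) : ℝ) / n : ℝ) : ℂ) := by
      push_cast
      apply Finset.sum_congr rfl
      intro n _
      rw [spl_char_apply, Complex.cpow_neg_one, div_eq_mul_inv]
    rw [e, Complex.norm_real, Real.norm_eq_abs]
  · simp [Real.rpow_neg_one, div_eq_mul_inv]

lemma spl_chi_eq_lam (p x : ℕ) (hp : p.Prime) (hx : x < p)
    (h : ∀ q : ℕ, q.Prime → q ≤ x → chi p q ≠ 1) (n : ℕ) (h1 : 1 ≤ n) (hn : n ≤ x) :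
    chi p n = lam n := by
  induction n using induction_on_primes with
  | zero => omega
  | one => simp [chi, lam, ArithmeticFunction.liouville_apply_one]
  | prime_mul q a hq ih =>
    have ha : 1 ≤ a := Nat.pos_of_ne_zero (by rintro rfl; simp at h1)
    have hq1 := hq.one_le
    have hax : a ≤ x := le_trans (Nat.le_mul_of_pos_left a hq1) hn
    have hqx : q ≤ x := le_trans (Nat.le_mul_of_pos_right q ha) hn
    have e1 : chi p (q * a) = chi p q * chi p a := by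
      unfold chi; push_cast; rw [jacobiSym.mul_left]
    have e2 : lam (q * a) = lam q * lam a := ArithmeticFunction.liouville_apply_mul q a
    have e3 : lam q = -1 := by
      unfold lam
      rw [ArithmeticFunction.liouville_apply hq.ne_zero,
        ArithmeticFunction.cardFactors_apply_prime hq]
      norm_num
    have e4 : chi p q = -1 := by
      have hc : Int.gcd (q : ℤ) (p : ℕ) = 1 := by
        rw [Int.gcd_natCast_natCast]
        exact (Nat.coprime_primes hq hp).2 (by omega)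
      rcases jacobiSym.eq_one_or_neg_one hc with h' | h'
      · exact absurd h' (h q hq hqx)
      · exact h'
    rw [e1, e2, e3, e4, ih ha hax]

lemma spl_main (p : ℕ) [hp : Fact p.Prime] (h2 : p ≠ 2) (x y : ℕ) (η : ℝ) (hη : 0 ≤ η)
    (hy : 1 ≤ y) (hyx : y ≤ x) (hx : x < p)
    (hS : ∀ t, y ≤ t → |∑ n ∈ Icc 1 t, ((chi p n : ℤ) : ℝ)| ≤ t * η)
    (h : ∀ q : ℕ, q.Prime → q ≤ x → chi p q ≠ 1) :
    ‖(spl_char p).LFunction 1‖ ≤
      Real.sqrt x / x + y / x + η * (4 + 4 * Real.log p) + 1 / p := by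
  have hp1 : 1 ≤ p := hp.out.one_le
  have hp0 : (0 : ℝ) < p := by exact_mod_cast hp1
  have hx0 : (0 : ℝ) < x := by exact_mod_cast le_trans hy hyx
  have a1 := spl_L_trunc p h2 (p * p) (Nat.mul_pos hp1 hp1)
  have a2 := spl_abel (fun n => ((chi p n : ℤ) : ℝ)) η hη y hy hS (p * p) (by nlinarith)
  have a3 := spl_hyp (fun n => ((chi p n : ℤ) : ℝ)) (spl_chi_abs p) η hη x y hy hyx hS
  have a4 : ∑ n ∈ Icc 1 x, ∑ d ∈ n.divisors, ((chi p d : ℤ) : ℝ) =
      ∑ n ∈ Icc 1 x, ∑ d ∈ n.divisors, ((ArithmeticFunction.liouville d : ℤ) : ℝ) := by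
    apply Finset.sum_congr rfl
    intro n hn
    apply Finset.sum_congr rfl
    intro d hd
    rw [Finset.mem_Icc] at hn
    have hd1 := Nat.pos_of_mem_divisors hd
    have hd2 := Nat.divisor_le hd
    rw [spl_chi_eq_lam p x hp.out hx h d hd1 (by omega)]
  have a5 := spl_squares x
  rw [a4, abs_mul, abs_of_pos hx0] at a3
  have a6 : Real.log x ≤ Real.log p := Real.log_le_log hx0 (by exact_mod_cast hx.le)
  have a7 : Real.log ((p * p : ℕ) : ℝ) = 2 * Real.log p := by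
    push_cast; rw [Real.log_mul hp0.ne' hp0.ne']; ring
  have a8 : (p : ℝ) / ((p * p : ℕ) : ℝ) = 1 / p := by push_cast; field_simp
  rw [a7] at a2
  rw [a8] at a1
  set T := ∑ n ∈ Icc 1 y, ((chi p n : ℤ) : ℝ) / n
  set U := ∑ n ∈ Icc 1 (p * p), ((chi p n : ℤ) : ℝ) / n
  have a9 : |T| ≤ Real.sqrt x / x + y / x + 2 * η * (1 + Real.log p) := by
    have b1 : 2 * η * x * (1 + Real.log x) ≤ 2 * η * x * (1 + Real.log p) :=
      mul_le_mul_of_nonneg_left (by linarith) (by positivity)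
    have b2 : |T| ≤ (Real.sqrt x + y + 2 * η * x * (1 + Real.log p)) / x := by
      rw [le_div_iff₀ hx0]; linarith
    refine b2.trans (le_of_eq ?_)
    field_simp
  have a10 : |U| ≤ |U - T| + |T| := by
    have := abs_add_le (U - T) T
    rwa [sub_add_cancel] at this
  linarith

theorem spl (h : BUR) : SPL := by
  obtain ⟨δ, hδ, hB⟩ := h
  set κ : ℝ := min δ (1 / 50) with hκ
  have hκ0 : 0 < κ := lt_min hδ (by norm_num)
  have hκ1 : κ ≤ δ := min_le_left _ _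
  have hκ2 : κ ≤ 1 / 50 := min_le_right _ _
  obtain ⟨c, hc, hSg⟩ := Pool.Agent.H307R2.siegel (κ / 2) (half_pos hκ0)
  have ev1 : ∀ᶠ p : ℕ in atTop, 11 + 4 * Real.log p < c * (p : ℝ) ^ (κ / 2) := by
    have l1 := (isLittleO_log_rpow_atTop (half_pos hκ0)).bound (c := c / 8) (by positivity)
    have l2 := (tendsto_rpow_atTop (half_pos hκ0)).eventually_gt_atTop (22 / c)
    have l3 := (l1.and l2).and (eventually_ge_atTop (1 : ℝ))
    filter_upwards [tendsto_natCast_atTop_atTop.eventually l3] with p hp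
    obtain ⟨⟨b1, b2⟩, b3⟩ := hp
    have b4 : 0 ≤ (p : ℝ) ^ (κ / 2) := by positivity
    rw [Real.norm_eq_abs, Real.norm_eq_abs, abs_of_nonneg (Real.log_nonneg b3),
      abs_of_nonneg b4] at b1
    rw [div_lt_iff₀ hc] at b2
    nlinarith
  have ev2 : ∀ᶠ p : ℕ in atTop, 4 ≤ (p : ℝ) ^ (1 / 50 : ℝ) :=
    tendsto_natCast_atTop_atTop.eventually
      ((tendsto_rpow_atTop (by norm_num : (0 : ℝ) < 1 / 50)).eventually_ge_atTop 4)
  filter_upwards [hB, ev1, ev2, eventually_ge_atTop 3] with p hBp e1 e2 e3 hp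
  by_contra hns
  have : Fact p.Prime := ⟨hp⟩
  have h2 : p ≠ 2 := by omega
  have hp1 : (1 : ℝ) < p := by exact_mod_cast hp.one_lt
  have hp0 : (0 : ℝ) < p := by linarith
  set X : ℝ := (p : ℝ) ^ (32 / 100 : ℝ) with hX
  set Y : ℝ := (p : ℝ) ^ (3 / 10 : ℝ) with hY
  set Z : ℝ := (p : ℝ) ^ (1 / 50 : ℝ) with hZ
  have hXY : X = Y * Z := by
    rw [hX, hY, hZ, ← Real.rpow_add hp0]; norm_num
  have hY1 : 1 ≤ Y := Real.one_le_rpow hp1.le (by norm_num)
  have hX1 : 4 ≤ X := by nlinarith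
  have hXp : X < p := by
    have := Real.rpow_lt_rpow_of_exponent_lt hp1 (show (32 / 100 : ℝ) < 1 by norm_num)
    rwa [Real.rpow_one] at this
  have x1 : ((⌊X⌋₊ : ℕ) : ℝ) ≤ X := Nat.floor_le (by linarith)
  have x2 : X < (⌊X⌋₊ : ℕ) + 1 := Nat.lt_floor_add_one X
  have y1 : Y ≤ (⌈Y⌉₊ : ℕ) := Nat.le_ceil Y
  have y2 : ((⌈Y⌉₊ : ℕ) : ℝ) < Y + 1 := Nat.ceil_lt_add_one (by linarith)
  have hy : 1 ≤ ⌈Y⌉₊ := by
    have : (1 : ℝ) ≤ (⌈Y⌉₊ : ℕ) := by linarith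
    exact_mod_cast this
  have hyx : ⌈Y⌉₊ ≤ ⌊X⌋₊ := by
    have : ((⌈Y⌉₊ : ℕ) : ℝ) ≤ (⌊X⌋₊ : ℕ) := by nlinarith
    exact_mod_cast this
  have hx : ⌊X⌋₊ < p := by
    have : ((⌊X⌋₊ : ℕ) : ℝ) < p := by linarith
    exact_mod_cast this
  have hS : ∀ t, ⌈Y⌉₊ ≤ t → |∑ n ∈ Icc 1 t, ((chi p n : ℤ) : ℝ)| ≤ t * (p : ℝ) ^ (-δ) := by
    intro t ht
    have h1 : Y ≤ t := le_trans y1 (by exact_mod_cast ht)
    have := hBp hp t h1
    rwa [Int.cast_sum] at this
  have hq : ∀ q : ℕ, q.Prime → q ≤ ⌊X⌋₊ → chi p q ≠ 1 := by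
    intro q hq hqx hc
    exact hns ⟨q, hq, le_trans (by exact_mod_cast hqx) x1, hc⟩
  have m := spl_main p h2 ⌊X⌋₊ ⌈Y⌉₊ ((p : ℝ) ^ (-δ)) (by positivity) hy hyx hx hS hq
  have s := hSg p (spl_char p) (spl_char_prim p h2) (spl_char_sq p) (spl_char_ne p h2)
  set K : ℝ := (p : ℝ) ^ (-κ) with hK
  have hK0 : 0 < K := by positivity
  have k1 : (p : ℝ) ^ (-δ) ≤ K := Real.rpow_le_rpow_of_exponent_le hp1.le (by linarith)
  have k2 : 1 / Z ≤ K := by
    rw [hZ, one_div, ← Real.rpow_neg hp0.le]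
    exact Real.rpow_le_rpow_of_exponent_le hp1.le (by linarith)
  have k3 : 1 / (p : ℝ) ≤ K := by
    rw [one_div, ← Real.rpow_neg_one]
    exact Real.rpow_le_rpow_of_exponent_le hp1.le (by linarith)
  have hZ0 : 0 < Z := by linarith
  have hx0 : (0 : ℝ) < (⌊X⌋₊ : ℕ) := by linarith
  have k4 : ((⌈Y⌉₊ : ℕ) : ℝ) / (⌊X⌋₊ : ℕ) ≤ 4 * (1 / Z) := by
    rw [div_le_iff₀ hx0]
    have : 4 * (1 / Z) * (X / 2) = 2 * Y := by rw [hXY]; field_simp; ring
    have h5 : 4 * (1 / Z) * (X / 2) ≤ 4 * (1 / Z) * (⌊X⌋₊ : ℕ) :=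
      mul_le_mul_of_nonneg_left (by linarith) (by positivity)
    linarith
  have k5 : Real.sqrt (⌊X⌋₊ : ℕ) / (⌊X⌋₊ : ℕ) ≤ 2 * (1 / Z) := by
    have hZY : Z ≤ Y := Real.rpow_le_rpow_of_exponent_le hp1.le (by norm_num)
    have hs : Z / 2 ≤ Real.sqrt (⌊X⌋₊ : ℕ) := by
      apply Real.le_sqrt_of_sq_le
      nlinarith
    have hs0 : 0 < Real.sqrt (⌊X⌋₊ : ℕ) := by linarith
    rw [Real.sqrt_div_self', div_le_iff₀ hs0]
    have h5 : 2 * (1 / Z) * (Z / 2) ≤ 2 * (1 / Z) * Real.sqrt (⌊X⌋₊ : ℕ) :=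
      mul_le_mul_of_nonneg_left hs (by positivity)
    have h6 : 2 * (1 / Z) * (Z / 2) = 1 := by field_simp
    linarith
  have hl : 0 ≤ Real.log p := Real.log_nonneg hp1.le
  have k6 : (p : ℝ) ^ (-δ) * (4 + 4 * Real.log p) ≤ K * (4 + 4 * Real.log p) :=
    mul_le_mul_of_nonneg_right k1 (by linarith)
  have k7 : c * (p : ℝ) ^ (-(κ / 2)) ≤ K * (11 + 4 * Real.log p) := by nlinarith
  have k8 : (p : ℝ) ^ (-(κ / 2)) = K * (p : ℝ) ^ (κ / 2) := by
    rw [hK, ← Real.rpow_add hp0]; congr 1; ring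
  rw [k8] at k7
  have k9 := mul_lt_mul_of_pos_left e1 hK0
  nlinarith

end Pool.Agent.H753Z.SG
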