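import Pool.Agent.H753Z.SG.Twop
import Pool.Agent.H753Z.SG.Invz
import Pool.Agent.H753Z.SG.Mert
import Pool.Agent.H753Z.SG.Pntl
import Pool.Agent.H753Z.SG.Smo
import Pool.Agent.H753Z.SG.Eqa
import Pool.Agent.H753Z.SG.Bur
import Pool.Agent.H753Z.SG.Spl
import Pool.Agent.H753Z.SG.Endg
import Pool.Agent.H753Z.SG.Lin

/-! Project SG: the final theorem. -/

set_option autoImplicit false

namespace Pool.Agent.H753Z.SG

theorem twop_all : TWOP := twop (pntl (mert invz)) smo eqa lin (spl bur) (endg sec)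

theorem odd_of_lam {a : ℕ} (ha : 0 < a) (h : lam a = -1) :
    Odd (ArithmeticFunction.cardFactors a) := by
  rw [lam, ArithmeticFunction.liouville_apply ha.ne'] at h
  rcases Nat.even_or_odd (ArithmeticFunction.cardFactors a) with h1 | h1
  · rw [h1.neg_one_pow] at h
    omega
  · exact h1

theorem main : ∃ N₀ : ℕ, ∀ N : ℕ, N₀ ≤ N → Even N → ∃ a b : ℕ, 0 < a ∧ 0 < b ∧ a + b = N ∧
    Odd (ArithmeticFunction.cardFactors a) ∧ Odd (ArithmeticFunction.cardFactors b) := by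
  obtain ⟨N₀, h⟩ := red_final twop_all
  refine ⟨N₀, fun N hN hE => ?_⟩
  obtain ⟨a, b, ha, hb, hab, h1, h2⟩ := h N hN hE
  exact ⟨a, b, ha, hb, hab, odd_of_lam ha h1, odd_of_lam hb h2⟩

end Pool.Agent.H753Z.SG
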