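import Pool.Agent.H753Z.SG.St1

/-! Project SG: the counts of failures, squares of primes and the reduction to twice a prime. -/

set_option autoImplicit false

namespace Pool.Agent.H753Z.SG

open Finset Filter

theorem red_count (N : ℕ) (s : ℤ) (hs : s = 1 ∨ s = -1) (h : ¬ Pat N s) :
    (((Ico 1 N).filter fun a => lam (N - a) = lam a).card : ℤ) ≤
      |∑ a ∈ Icc 1 (N - 1), lam a| := by
  have hI : Icc 1 (N - 1) = Ico 1 N := by
    ext a
    simp only [mem_Icc, mem_Ico]
    omega
  rw [hI]
  have h1 : ∑ a ∈ Ico 1 N, lam (N - a) = ∑ a ∈ Ico 1 N, lam a := by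
    refine sum_bij (fun a _ => N - a) ?_ ?_ ?_ ?_
    · intro a ha
      simp only [mem_Ico] at ha ⊢
      omega
    · intro a ha b hb hab
      simp only [mem_Ico] at ha hb
      omega
    · intro b hb
      simp only [mem_Ico] at hb
      exact ⟨N - b, by simp only [mem_Ico]; omega, by omega⟩
    · intro a _
      rfl
  have h2 : ∑ a ∈ Ico 1 N, (lam (N - a) + lam a) =
      ∑ a ∈ Ico 1 N, if lam (N - a) = lam a then -2 * s else 0 := by
    refine sum_congr rfl fun a ha => ?_
    rw [mem_Ico] at ha
    have h3 : ¬ (lam a = s ∧ lam (N - a) = s) := fun hh =>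
      h ⟨a, N - a, by omega, by omega, by omega, hh.1, hh.2⟩
    rcases lam_pm (n := a) (by omega) with e1 | e1 <;>
      rcases lam_pm (n := N - a) (by omega) with e2 | e2 <;>
      rcases hs with rfl | rfl <;> simp_all
  rw [sum_add_distrib, h1, ← sum_filter, sum_const, nsmul_eq_mul] at h2
  rcases hs with rfl | rfl
  · have := neg_abs_le (∑ a ∈ Ico 1 N, lam a)
    linarith
  · have := le_abs_self (∑ a ∈ Ico 1 N, lam a)
    linarith

theorem Pat.mul {N : ℕ} {s : ℤ} (h : Pat N s) {k : ℕ} (hk : 0 < k) :
    Pat (N * k) (s * lam k) := by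
  obtain ⟨a, b, ha, hb, hab, h1, h2⟩ := h
  refine ⟨a * k, b * k, by positivity, by positivity, by rw [← hab]; ring, ?_, ?_⟩
  · rw [lam_mul, h1]
  · rw [lam_mul, h2]

theorem red_bad_le (p : ℕ) [hp : Fact p.Prime] :
    (Bad p (-1) (-1)).card ≤ ((Ico 1 p).filter fun a => lam (p - a) = lam a).card := by
  refine card_le_card_of_injOn (fun x => x.val) ?_ ?_
  · intro x hx
    have hx' := mem_Bad.1 (mem_coe.1 hx)
    have h0 : x.val ≠ 0 := by rw [Ne, ZMod.val_eq_zero]; exact hx'.1
    have h1 := ZMod.val_lt x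
    simp only [coe_filter, mem_Ico, Set.mem_setOf_eq]
    refine ⟨⟨by omega, h1⟩, ?_⟩
    have h2 := hx'.2
    haveI : NeZero x := ⟨hx'.1⟩
    rw [neg_one_mul, ff, ff, ZMod.val_neg_of_ne_zero] at h2
    rcases lam_pm h0 with e1 | e1 <;> rcases lam_pm (n := p - x.val) (by omega) with e2 | e2 <;>
      simp_all
  · intro x _ y _ hxy
    exact ZMod.val_injective p hxy

theorem red_D_le (p : ℕ) :
    (Dset p).card ≤ ((Ico 1 p).filter fun a => lam (p - a) = lam a).card +
      ((Ico 1 (2 * p)).filter fun a => lam (2 * p - a) = lam a).card := by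
  have hsub : Dset p ⊆ ((Ico 1 p).filter fun a => lam (p - a) = lam a) ∪
      (((Ico 1 (2 * p)).filter fun a => lam (2 * p - a) = lam a).image fun a => p - a) := by
    intro n hn
    simp only [Dset, mem_filter, mem_Ico] at hn
    rw [mem_union]
    by_cases h : lam (p - n) = lam n
    · left
      simp only [mem_filter, mem_Ico]
      exact ⟨hn.1, h⟩
    · right
      refine mem_image.2 ⟨p - n, ?_, by omega⟩
      simp only [mem_filter, mem_Ico]
      refine ⟨by omega, ?_⟩
      rw [show 2 * p - (p - n) = n + p by omega]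
      have h2 := hn.2
      rcases lam_pm (n := n) (by omega) with e1 | e1 <;>
        rcases lam_pm (n := p - n) (by omega) with e2 | e2 <;>
        rcases lam_pm (n := n + p) (by omega) with e3 | e3 <;> simp_all
  exact (card_le_card hsub).trans ((card_union_le _ _).trans
    (Nat.add_le_add_left card_image_le _))

/-- stage 0 -/
theorem st0 (p : ℕ) [hp : Fact p.Prime] (h : ¬ Pat (2 * p) 1) :
    ∃ β : ℕ, (Bad p (-1) (-1)).card ≤ β ∧ (Dset p).card ≤ β ∧
      (β : ℤ) ≤ |∑ a ∈ Icc 1 (p - 1), lam a| + |∑ a ∈ Icc 1 (2 * p - 1), lam a| := by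
  have h1 : ¬ Pat p (-1) := by
    intro h1
    have := h1.mul (k := 2) (by norm_num)
    rw [lam_two, mul_comm p 2] at this
    exact h (by simpa using this)
  have h2 := red_count p (-1) (Or.inr rfl) h1
  have h3 := red_count (2 * p) 1 (Or.inl rfl) h
  refine ⟨_, (red_bad_le p).trans (Nat.le_add_right _ _), red_D_le p, ?_⟩
  push_cast
  linarith

theorem red_square (l : ℕ) (hl : l.Prime) (h5 : 5 ≤ l) : Pat (l * l) 1 := by
  by_contra hno
  haveI : Fact l.Prime := ⟨hl⟩
  have hodd : l % 2 = 1 := (hl.eq_two_or_odd).resolve_left (by omega)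
  have h1 : ∀ x, 0 < x → x < l → lam (l + x) = -lam (l - x) := by
    intro x hx0 hx
    by_contra hne
    apply hno
    refine ⟨x * x, (l - x) * (l + x), by positivity, Nat.mul_pos (by omega) (by omega), ?_, ?_, ?_⟩
    · obtain ⟨y, rfl⟩ : ∃ y, l = x + y := ⟨l - x, by omega⟩
      rw [Nat.add_sub_cancel_left]
      ring
    · rw [lam_mul, lam_sq hx0.ne']
    · rw [lam_mul]
      rcases lam_pm (n := l + x) (by omega) with e1 | e1 <;>
        rcases lam_pm (n := l - x) (by omega) with e2 | e2 <;> simp_all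
  have h2 : ∀ a, 0 < a → a < l → lam (l - a) = -lam a := by
    intro a ha0 ha
    have e1 : lam (2 * (l - a)) = -lam (2 * a) := by
      rcases lt_or_gt_of_ne (show 2 * a ≠ l by omega) with h | h
      · have := h1 (l - 2 * a) (by omega) (by omega)
        rw [show l + (l - 2 * a) = 2 * (l - a) by omega, show l - (l - 2 * a) = 2 * a by omega]
          at this
        exact this
      · have := h1 (2 * a - l) (by omega) (by omega)
        rw [show l + (2 * a - l) = 2 * a by omega, show l - (2 * a - l) = 2 * (l - a) by omega]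
          at this
        rw [this, neg_neg]
    rw [lam_mul, lam_mul, lam_two] at e1
    linarith
  have hB : (Bad l (-1) (-1)).card ≤ 0 := by
    refine (red_bad_le l).trans (le_of_eq ?_)
    rw [card_eq_zero, filter_eq_empty_iff]
    intro a ha h
    rw [mem_Ico] at ha
    rw [h2 a ha.1 ha.2] at h
    rcases lam_pm (n := a) (by omega) with e | e <;> omega
  have hD : (Dset l).card ≤ 0 := by
    apply le_of_eq
    rw [card_eq_zero, Dset, filter_eq_empty_iff]
    intro a ha h
    rw [mem_Ico] at ha
    apply h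
    rw [add_comm, h1 a ha.1 ha.2, h2 a ha.1 ha.2, neg_neg]
  have hsq : ∀ s : ZMod l, s ≠ 0 → ff l (s * s) = 1 := by
    intro s hs
    have h0 : s.val ≠ 0 := by rwa [Ne, ZMod.val_eq_zero]
    have h3 := st1 l 0 hB hD s.val s.val (by omega) Nat.lt_two_pow_self.le (ZMod.val_lt s)
    rw [zero_mul, Nat.le_zero, bn, card_eq_zero, ZMod.natCast_zmod_val] at h3
    rw [good_of_notMem hs (by rw [h3]; exact notMem_empty _)]
    exact lam_sq h0
  have hsq' : ∀ n : ℕ, 1 ≤ n → n < l → IsSquare (n : ZMod l) → lam n = 1 := by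
    intro n hn1 hn ⟨s, hs⟩
    have hs0 : s ≠ 0 := by
      rintro rfl
      exact cast_ne_zero hn1 hn (by simpa using hs)
    rw [← ff_cast hn, hs]
    exact hsq s hs0
  by_cases h3 : l % 4 = 3
  · obtain ⟨r, hr, hrd⟩ := Nat.exists_prime_and_dvd (n := (l + 1) / 4) (by omega)
    have hrl : r < l := by
      have := Nat.le_of_dvd (by omega) hrd
      omega
    haveI : Fact r.Prime := ⟨hr⟩
    have hsr : IsSquare (r : ZMod l) := by
      by_cases hr2 : r = 2
      · subst hr2
        have := (ZMod.exists_sq_eq_two_iff (p := l) (by omega)).2 (by omega)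
        exact_mod_cast this
      · have hm : (l : ZMod r) = -1 := by
          have h4 : ((l + 1 : ℕ) : ZMod r) = 0 := by
            rw [ZMod.natCast_eq_zero_iff]
            exact hrd.trans ⟨4, by omega⟩
          push_cast at h4
          exact eq_neg_of_add_eq_zero_left h4
        have hro : r % 2 = 1 := (hr.eq_two_or_odd).resolve_left hr2
        by_cases hr3 : r % 4 = 3
        · rw [ZMod.exists_sq_eq_prime_iff_of_mod_four_eq_three h3 hr3 (by omega), hm,
            ZMod.exists_sq_eq_neg_one_iff]
          omega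
        · rw [← ZMod.exists_sq_eq_prime_iff_of_mod_four_eq_one (p := r) (q := l) (by omega)
            (by omega), hm, ZMod.exists_sq_eq_neg_one_iff]
          exact hr3
    have := hsq' r hr.pos hrl hsr
    rw [lam_prime hr] at this
    omega
  · have h4 : IsSquare ((l - 1 : ℕ) : ZMod l) := by
      rw [Nat.cast_sub (by omega), ZMod.natCast_self, zero_sub, Nat.cast_one]
      exact ZMod.exists_sq_eq_neg_one_iff.2 h3
    have h6 := hsq' (l - 1) (by omega) (by omega) h4
    rw [h2 1 (by norm_num) (by omega), lam_one] at h6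
    omega

theorem red_final (h : TWOP) : FINAL := by
  obtain ⟨p0, hp0⟩ := eventually_atTop.1 h
  refine ⟨2 * (∏ r ∈ Icc 1 p0, r + 1), fun N hN ⟨M, hM⟩ => ?_⟩
  have hM1 : ∏ r ∈ Icc 1 p0, r < M := by omega
  have hM0 : M ≠ 0 := by omega
  rcases lam_pm hM0 with hl | hl
  swap
  · exact ⟨M, M, by omega, by omega, hM.symm, hl, hl⟩
  by_cases hbig : ∃ r, r.Prime ∧ r ∣ M ∧ p0 ≤ r
  · obtain ⟨r, hr, ⟨K, hK⟩, hrp⟩ := hbig
    have hK0 : K ≠ 0 := by rintro rfl; omega
    have h1 := (hp0 r hrp hr).mul (Nat.pos_of_ne_zero hK0)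
    rw [hK, lam_mul, lam_prime hr] at hl
    rw [show lam K = -1 by omega, show 2 * r * K = N by rw [hM, hK]; ring] at h1
    simpa using h1
  · push Not at hbig
    have hns : ¬ Squarefree M := by
      intro hsq
      have h1 := Nat.prod_primeFactors_of_squarefree hsq
      have h2 : ∏ r ∈ M.primeFactors, r ≤ ∏ r ∈ Icc 1 p0, r := by
        refine prod_le_prod_of_subset_of_one_le' ?_ ?_
        · intro r hr
          have h3 := Nat.prime_of_mem_primeFactors hr
          have h4 := hbig r h3 (Nat.dvd_of_mem_primeFactors hr)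
          exact mem_Icc.2 ⟨h3.pos, h4.le⟩
        · intro r hr _
          exact (mem_Icc.1 hr).1
      omega
    rw [Nat.squarefree_iff_prime_squarefree] at hns
    push Not at hns
    obtain ⟨l, hlp, K, hK⟩ := hns
    have hK0 : K ≠ 0 := by rintro rfl; omega
    have hlK : lam K = 1 := by
      rw [hK, lam_mul, lam_mul, lam_sq hlp.ne_zero, one_mul] at hl
      exact hl
    have p3 : Nat.Prime 3 := by norm_num
    have p5 : Nat.Prime 5 := by norm_num
    have p13 : Nat.Prime 13 := by norm_num
    by_cases h5 : 5 ≤ l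
    · have h1 := (red_square l hlp h5).mul (k := 2 * K) (by omega)
      rw [lam_mul, lam_two, hlK, show l * l * (2 * K) = N by rw [hM, hK]; ring] at h1
      simpa using h1
    · have h2 := hlp.two_le
      have h4 : l ≠ 4 := by rintro rfl; norm_num at hlp
      have h23 : l = 2 ∨ l = 3 := by omega
      rcases h23 with rfl | rfl
      · have h1 : Pat 8 (-1) := ⟨3, 5, by norm_num, by norm_num, rfl, lam_prime p3, lam_prime p5⟩
        have h3 := h1.mul (k := K) (by omega)
        rw [hlK, show 8 * K = N by omega] at h3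
        simpa using h3
      · have h1 : Pat 18 (-1) :=
          ⟨5, 13, by norm_num, by norm_num, rfl, lam_prime p5, lam_prime p13⟩
        have h3 := h1.mul (k := K) (by omega)
        rw [hlK, show 18 * K = N by omega] at h3
        simpa using h3

end Pool.Agent.H753Z.SG
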