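import Pool.Agent.H753Z.SG.Defs

/-!
Task SEC: the second moment of short character sums modulo a prime.
-/

set_option autoImplicit false

namespace Pool.Agent.H753Z.SG

open Finset

theorem eqa_corr_ne (p : ℕ) [Fact p.Prime] (ψ : DirichletCharacter ℂ p) (hψ : ψ ≠ 1)
    (a b : ZMod p) (hab : a ≠ b) :
    ∑ x : ZMod p, ψ (x + a) * star (ψ (x + b)) = -1 := by
  have hd : a - b ≠ 0 := sub_ne_zero.mpr hab
  have h1 : ∑ x : ZMod p, ψ (x + a) * star (ψ (x + b)) =
      ∑ y : ZMod p, ψ (y + (a - b)) * star (ψ y) := by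
    refine Fintype.sum_equiv (Equiv.addRight b) _ _ (fun x => ?_)
    simp only [Equiv.coe_addRight]
    congr 2
    ring
  have h2 : ∀ y : ZMod p, ψ (y + (a - b)) * star (ψ y) =
      ψ (1 + (a - b) * y⁻¹) - (if y = 0 then 1 else 0) := by
    intro y
    rw [MulChar.star_apply', MulChar.inv_apply', ← map_mul]
    by_cases hy : y = 0
    · subst hy
      simp [MulChar.map_zero]
    · rw [if_neg hy, sub_zero]
      congr 1
      field_simp
  have h3 : ∑ y : ZMod p, ψ (1 + (a - b) * y⁻¹) = ∑ z : ZMod p, ψ z := by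
    refine Fintype.sum_equiv
      ((Equiv.inv (ZMod p)).trans ((Equiv.mulLeft₀ (a - b) hd).trans (Equiv.addLeft 1))) _ _
      (fun x => ?_)
    simp
  rw [h1, Finset.sum_congr rfl (fun y _ => h2 y), Finset.sum_sub_distrib, h3,
    MulChar.sum_eq_zero_of_ne_one hψ]
  simp

theorem eqa_norm_le (p : ℕ) [Fact p.Prime] (ψ : DirichletCharacter ℂ p) (x : ZMod p) :
    ‖ψ x‖ ≤ 1 := DirichletCharacter.norm_le_one ψ x

theorem eqa_corr_eq (p : ℕ) [Fact p.Prime] (ψ : DirichletCharacter ℂ p) (a : ZMod p) :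
    (∑ x : ZMod p, ψ (x + a) * star (ψ (x + a))).re ≤ p := by
  rw [Complex.re_sum]
  have h : ∀ x : ZMod p, (ψ (x + a) * star (ψ (x + a))).re ≤ 1 := by
    intro x
    have h1 := eqa_norm_le p ψ (x + a)
    have h2 : (ψ (x + a) * star (ψ (x + a))).re = ‖ψ (x + a)‖ ^ 2 := by
      rw [RCLike.star_def, Complex.mul_conj, Complex.ofReal_re, Complex.normSq_eq_norm_sq]
    rw [h2]
    have h0 := norm_nonneg (ψ (x + a))
    nlinarith
  calc ∑ x : ZMod p, (ψ (x + a) * star (ψ (x + a))).re ≤ ∑ _x : ZMod p, (1 : ℝ) :=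
        Finset.sum_le_sum fun x _ => h x
    _ = p := by simp [ZMod.card]

theorem eqa_normsq_sum {ι : Type*} (s : Finset ι) (f : ι → ℂ) :
    ‖∑ v ∈ s, f v‖ ^ 2 = (∑ v ∈ s, ∑ w ∈ s, f v * star (f w)).re := by
  rw [← Finset.sum_mul_sum, ← star_sum, RCLike.star_def, Complex.mul_conj, Complex.ofReal_re,
    Complex.normSq_eq_norm_sq]

theorem sec : SEC := by
  intro p _ ψ hψ c hc V hV
  have hinj : ∀ v ∈ range V, ∀ w ∈ range V, v ≠ w → c * (v : ZMod p) ≠ c * (w : ZMod p) := by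
    intro v hv w hw hvw h
    have h1 : (v : ZMod p) = (w : ZMod p) := mul_left_cancel₀ hc h
    have hv' : v < p := lt_of_lt_of_le (Finset.mem_range.mp hv) hV
    have hw' : w < p := lt_of_lt_of_le (Finset.mem_range.mp hw) hV
    rw [ZMod.natCast_eq_natCast_iff', Nat.mod_eq_of_lt hv', Nat.mod_eq_of_lt hw'] at h1
    exact hvw h1
  have h1 : ∑ x : ZMod p, ‖∑ v ∈ range V, ψ (x + c * (v : ZMod p))‖ ^ 2 =
      ∑ v ∈ range V, ∑ w ∈ range V,
        (∑ x : ZMod p, ψ (x + c * (v : ZMod p)) * star (ψ (x + c * (w : ZMod p)))).re := by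
    simp_rw [eqa_normsq_sum, Complex.re_sum]
    rw [Finset.sum_comm]
    refine Finset.sum_congr rfl fun v _ => ?_
    rw [Finset.sum_comm]
  rw [h1]
  have h2 : ∀ v ∈ range V, ∑ w ∈ range V,
      (∑ x : ZMod p, ψ (x + c * (v : ZMod p)) * star (ψ (x + c * (w : ZMod p)))).re ≤ p := by
    intro v hv
    rw [← Finset.add_sum_erase _ _ hv]
    have h3 : ∑ w ∈ (range V).erase v,
        (∑ x : ZMod p, ψ (x + c * (v : ZMod p)) * star (ψ (x + c * (w : ZMod p)))).re ≤ 0 := by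
      refine Finset.sum_nonpos fun w hw => ?_
      have hw1 := Finset.mem_erase.mp hw
      rw [eqa_corr_ne p ψ hψ _ _ (hinj v hv w hw1.2 (Ne.symm hw1.1))]
      simp
    have h4 := eqa_corr_eq p ψ (c * (v : ZMod p))
    linarith
  calc _ ≤ ∑ _v ∈ range V, (p : ℝ) := Finset.sum_le_sum h2
    _ = (p : ℝ) * V := by simp [mul_comm]

end Pool.Agent.H753Z.SG
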