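import Pool.Agent.H753Z.SG.Basic

/-! Project SG: small multipliers. -/

set_option autoImplicit false

namespace Pool.Agent.H753Z.SG

open Finset Filter

section

variable {p : ℕ} [hp : Fact p.Prime]

/-- Dirichlet approximation in the residue ring -/
theorem st1_dirichlet (R : ℕ) (hR : 1 ≤ R) (hRp : R < p) (x : ZMod p) (hx : x ≠ 0) :
    ∃ r a : ℕ, 1 ≤ r ∧ r ≤ R ∧ 1 ≤ a ∧ (R + 1) * a ≤ p ∧
      ((a : ZMod p) = r * x ∨ (a : ZMod p) = -(r * x)) := by
  have hp0 : (0 : ℝ) < p := by exact_mod_cast hp.out.pos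
  obtain ⟨j, k, hk0, hkR, h⟩ := Real.exists_int_int_abs_mul_sub_le ((x.val : ℝ) / p) (n := R) hR
  obtain ⟨r, rfl⟩ := Int.eq_ofNat_of_zero_le hk0.le
  have hr1 : 1 ≤ r := by exact_mod_cast hk0
  have hrR : r ≤ R := by exact_mod_cast hkR
  set d : ℤ := (r : ℤ) * x.val - j * p with hd
  have hdc : ((d : ℤ) : ZMod p) = r * x := by
    rw [hd]
    push_cast
    simp
  have hne : (r : ZMod p) * x ≠ 0 := mul_ne_zero (cast_ne_zero hr1 (by omega)) hx
  have hd0 : d ≠ 0 := by
    intro h0
    rw [h0] at hdc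
    exact hne (by simpa using hdc.symm)
  have hab : ((R : ℝ) + 1) * |(d : ℝ)| ≤ p := by
    have e : (d : ℝ) = ((r : ℝ) * ((x.val : ℝ) / p) - j) * p := by
      rw [hd]
      push_cast
      field_simp
    rw [e, abs_mul, abs_of_pos hp0]
    have h1 : |(r : ℝ) * ((x.val : ℝ) / p) - j| ≤ 1 / ((R : ℝ) + 1) := by simpa using h
    rw [le_div_iff₀ (by positivity)] at h1
    nlinarith
  refine ⟨r, d.natAbs, hr1, hrR, Int.natAbs_pos.2 hd0, ?_, ?_⟩
  · have : ((R : ℝ) + 1) * (d.natAbs : ℝ) ≤ p := by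
      rw [Nat.cast_natAbs, Int.cast_abs]
      exact hab
    exact_mod_cast this
  · rcases Int.natAbs_eq d with h1 | h1
    · left
      rw [← hdc]
      conv_rhs => rw [h1]
      simp
    · right
      rw [← hdc]
      conv_rhs => rw [h1]
      simp

/-- the image of `Dset` in the residue ring -/
def DZ (p : ℕ) : Finset (ZMod p) := (Dset p).image fun n : ℕ => (n : ZMod p)

theorem ff_cast_two {n : ℕ} (h2 : n < 2 * p) (hn : n ≠ p) (hD : (n : ZMod p) ∉ DZ p) :
    ff p (n : ZMod p) = lam n := by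
  rcases lt_or_gt_of_ne hn with h | h
  · exact ff_cast h
  · obtain ⟨m, rfl⟩ : ∃ m, n = m + p := ⟨n - p, by omega⟩
    have hm : m < p := by omega
    have e : ((m + p : ℕ) : ZMod p) = (m : ZMod p) := by simp
    rw [e] at hD ⊢
    rw [ff_cast hm]
    by_contra hne
    apply hD
    refine mem_image.2 ⟨m, ?_, rfl⟩
    simp only [Dset, mem_filter, mem_Ico]
    exact ⟨⟨by omega, hm⟩, fun h => hne h.symm⟩

theorem st1_step (β F : ℕ) (h1 : (Bad p (-1) (-1)).card ≤ β) (h2 : (Dset p).card ≤ β)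
    (q : ℕ) (hq2 : 2 ≤ q) (hqp : q < p) (hF : ∀ r, 1 ≤ r → r ≤ q / 2 → bn p r ≤ F) :
    bn p q ≤ (q / 2) * (2 * F + 4 * β) := by
  classical
  have hq0 : (q : ZMod p) ≠ 0 := cast_ne_zero (by omega) hqp
  set S : ℕ → Finset (ZMod p) := fun r =>
    (Bad p r (lam r) ∪ (univ.filter fun x => (q : ZMod p) * x ∈ Bad p r (lam r))) ∪
    ((univ.filter fun x => (r : ZMod p) * x ∈ Bad p (-1) (-1)) ∪
      (univ.filter fun x => ((q : ZMod p) * r) * x ∈ Bad p (-1) (-1))) ∪
    ((univ.filter fun x => ((q : ZMod p) * r) * x ∈ DZ p) ∪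
      (univ.filter fun x => (-((q : ZMod p) * r)) * x ∈ DZ p)) with hS
  have hDZ : (DZ p).card ≤ β := card_image_le.trans h2
  have hcard : ∀ r ∈ Icc 1 (q / 2), (S r).card ≤ 2 * F + 4 * β := by
    intro r hr
    rw [mem_Icc] at hr
    have hr0 : (r : ZMod p) ≠ 0 := cast_ne_zero hr.1 (by omega)
    have hqr : (q : ZMod p) * r ≠ 0 := mul_ne_zero hq0 hr0
    have hb : (Bad p r (lam r)).card ≤ F := hF r hr.1 hr.2
    have e1 := card_pre (Bad p r (lam r)) hq0
    have e2 := card_pre (Bad p (-1) (-1)) hr0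
    have e3 := card_pre (Bad p (-1) (-1)) hqr
    have e4 := card_pre (DZ p) hqr
    have e5 := card_pre (DZ p) (neg_ne_zero.2 hqr)
    refine (card_union_le _ _).trans ?_
    refine (add_le_add ((card_union_le _ _).trans
      (add_le_add (card_union_le _ _) (card_union_le _ _))) (card_union_le _ _)).trans ?_
    omega
  have hsub : Bad p q (lam q) ⊆ (Icc 1 (q / 2)).biUnion S := by
    intro x hx
    rw [mem_Bad] at hx
    obtain ⟨r, a, hr1, hrR, ha1, ha, hax⟩ :=
      st1_dirichlet (q / 2) (by omega) (by omega) x hx.1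
    rw [mem_biUnion]
    refine ⟨r, mem_Icc.2 ⟨hr1, hrR⟩, ?_⟩
    by_contra hcon
    simp only [hS, mem_union, not_or, mem_filter, mem_univ, true_and] at hcon
    obtain ⟨⟨⟨c1, c2⟩, c3, c4⟩, c5, c6⟩ := hcon
    have hr0 : (r : ZMod p) ≠ 0 := cast_ne_zero hr1 (by omega)
    have g1 := good_of_notMem hx.1 c1
    have g2 := good_of_notMem (mul_ne_zero hq0 hx.1) c2
    have g3 := good_of_notMem (mul_ne_zero hr0 hx.1) c3
    have g4 := good_of_notMem (mul_ne_zero (mul_ne_zero hq0 hr0) hx.1) c4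
    have hap : a < p := by nlinarith [(by omega : 1 ≤ q / 2)]
    have hqa : q * a < 2 * p := by
      have : q < 2 * (q / 2 + 1) := by omega
      nlinarith
    have hqa' : q * a ≠ p := by
      intro h
      have := (Nat.dvd_prime hp.out).1 ⟨a, h.symm⟩
      omega
    have hlr := lam_sq (n := r) (by omega)
    have ha' : ff p (a : ZMod p) = lam a := ff_cast hap
    apply hx.2
    rcases hax with h | h
    · have e : ((q * a : ℕ) : ZMod p) = (q : ZMod p) * r * x := by
        push_cast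
        rw [h]
        ring
      have g5 := ff_cast_two hqa hqa' (by rw [e]; exact c5)
      rw [e, lam_mul, ← ha', h, g1] at g5
      rw [show (r : ZMod p) * (q * x) = q * r * x by ring, g5] at g2
      calc ff p (q * x) = lam r * (lam r * ff p (q * x)) := by rw [← mul_assoc, hlr, one_mul]
        _ = lam r * (lam q * (lam r * ff p x)) := by rw [← g2]
        _ = (lam r * lam r) * (lam q * ff p x) := by ring
        _ = _ := by rw [hlr, one_mul]
    · have e : ((q * a : ℕ) : ZMod p) = -((q : ZMod p) * r) * x := by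
        push_cast
        rw [h]
        ring
      have g5 := ff_cast_two hqa hqa' (by rw [e]; exact c6)
      rw [e, lam_mul, ← ha', h, show -((r : ZMod p) * x) = -1 * (r * x) by ring, g3, g1,
        show -((q : ZMod p) * r) * x = -1 * (q * r * x) by ring, g4,
        show (q : ZMod p) * r * x = r * (q * x) by ring, g2] at g5
      calc ff p (q * x) = -(lam r * (-1 * (lam r * ff p (q * x)))) := by
            rw [show -(lam r * (-1 * (lam r * ff p (q * x)))) =
              (lam r * lam r) * ff p (q * x) by ring, hlr, one_mul]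
        _ = -(lam r * (lam q * (-1 * (lam r * ff p x)))) := by rw [g5]
        _ = (lam r * lam r) * (lam q * ff p x) := by ring
        _ = _ := by rw [hlr, one_mul]
  calc bn p q ≤ ((Icc 1 (q / 2)).biUnion S).card := card_le_card hsub
    _ ≤ ∑ r ∈ Icc 1 (q / 2), (S r).card := card_biUnion_le
    _ ≤ ∑ _r ∈ Icc 1 (q / 2), (2 * F + 4 * β) := sum_le_sum hcard
    _ = _ := by simp

end

theorem st1 : ST1 := by
  intro p _ β h1 h2 t
  induction t with
  | zero =>
    intro r hr1 hr2 _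
    have : r = 1 := by omega
    rw [this, bn_one]
    exact Nat.zero_le _
  | succ t ih =>
    intro q hq1 hq2 hqp
    rcases eq_or_lt_of_le hq1 with h | h
    · rw [← h, bn_one]
      exact Nat.zero_le _
    have hhalf : q / 2 ≤ 2 ^ t := by rw [pow_succ] at hq2; omega
    have h3 := st1_step β (β * 2 ^ ((t + 1) ^ 2)) h1 h2 q h hqp
      fun r hr1 hr2 => ih r hr1 (hr2.trans hhalf) (by omega)
    refine h3.trans ?_
    have h4 : 2 ≤ 2 ^ ((t + 1) ^ 2) := by
      calc 2 = 2 ^ 1 := rfl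
        _ ≤ _ := Nat.pow_le_pow_right (by norm_num) (Nat.one_le_pow _ _ (by omega))
    have h5 : 2 ^ ((t + 1 + 1) ^ 2) = 2 ^ ((t + 1) ^ 2) * 2 ^ t * (2 ^ t * 8) := by
      rw [show (t + 1 + 1) ^ 2 = (t + 1) ^ 2 + t + (t + 3) by ring, pow_add, pow_add, pow_add]
      norm_num
    have h6 : 1 ≤ 2 ^ t := Nat.one_le_two_pow
    rw [h5]
    set A := 2 ^ ((t + 1) ^ 2)
    set B := 2 ^ t
    calc q / 2 * (2 * (β * A) + 4 * β) ≤ B * (2 * (β * A) + 4 * β) := Nat.mul_le_mul_right _ hhalf
      _ ≤ B * (2 * (β * A) + 2 * A * β) := by gcongr; nlinarith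
      _ = β * (A * B * 4) := by ring
      _ ≤ β * (A * B * (B * 8)) := by gcongr; omega

end Pool.Agent.H753Z.SG
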