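import Pool.Agent.H753Z.SG.Red
import Pool.Agent.H753Z.SG.Boot

/-! Project SG: assembly of the main step. -/

set_option autoImplicit false

namespace Pool.Agent.H753Z.SG

open Finset Filter

theorem twop (h1 : PNTL) (h2 : SMO) (h3 : EQA) (h4 : LIN) (h5 : SPL) (h6 : ENDG) : TWOP := by
  obtain ⟨CS, h2⟩ := h2
  obtain ⟨CB, hB⟩ := boot
  set A : ℕ := (2 * CS + 2) ^ 2 with hA
  have t2 : Tendsto (fun p : ℕ => Real.log p) atTop atTop :=
    Real.tendsto_log_atTop.comp tendsto_natCast_atTop_atTop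
  have t3 : Tendsto (fun p : ℕ => Real.log (Real.log p)) atTop atTop :=
    Real.tendsto_log_atTop.comp t2
  have t4 : ∀ᶠ L : ℝ in atTop, ((CB : ℝ) + 31) * (Real.log L) ^ 2 ≤ L / 100 := by
    have h := (Real.isLittleO_pow_log_id_atTop (n := 2)).bound
      (c := 1 / (100 * ((CB : ℝ) + 31))) (by positivity)
    filter_upwards [h, eventually_ge_atTop 0] with L hL hL0
    rw [Real.norm_of_nonneg (by positivity), id, Real.norm_of_nonneg hL0] at hL
    calc ((CB : ℝ) + 31) * (Real.log L) ^ 2 ≤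
          ((CB : ℝ) + 31) * (1 / (100 * ((CB : ℝ) + 31)) * L) := by gcongr
      _ = L / 100 := by field_simp
  filter_upwards [h1 (A + CB + 35), h2, h3, h4, h5, h6, hB, t2.eventually t4,
    t2.eventually_ge_atTop 1, t3.eventually_ge_atTop 1, eventually_ge_atTop 3] with
    p hP hS hE hLin hSp hEnd hBoot ht4 hL1 hll hp3
  intro hp
  by_contra hno
  have : Fact p.Prime := ⟨hp⟩
  refine hno (hEnd hp ?_ (hSp hp))
  obtain ⟨β, hβ1, hβ2, hβ3⟩ := st0 p hno
  obtain ⟨U, hU, hUc⟩ := hS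
  have hp0 : (0 : ℝ) < p := by exact_mod_cast hp.pos
  set L := Real.log p with hL
  set l := Real.log L with hl
  have hL0 : 0 < L := by linarith
  have hl2 : l ≤ l ^ 2 := le_self_pow₀ hll (by norm_num)
  have hU1 : ∀ u ∈ U, 1 ≤ u ∧ u < p := fun u hu => ⟨(hU u hu).1, (hU u hu).2.1⟩
  have hne : U.Nonempty := by
    rw [← card_pos]
    have : (0 : ℝ) < U.card := lt_of_lt_of_le (by positivity) hUc
    exact_mod_cast this
  have hEq := hE U hU1 hUc
  have hβ : (β : ℝ) ≤ 2 * p * Real.exp (-(((A : ℝ) + CB + 35) * l ^ 2)) := by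
    have a1 := hP (p - 1) (by omega)
    have a2 := hP (2 * p - 1) (by omega)
    have a3 : (β : ℝ) ≤ |((∑ a ∈ Icc 1 (p - 1), lam a : ℤ) : ℝ)| +
        |((∑ a ∈ Icc 1 (2 * p - 1), lam a : ℤ) : ℝ)| := by
      rw [← Int.cast_abs, ← Int.cast_abs]
      exact_mod_cast hβ3
    rw [show ((A + CB + 35 : ℕ) : ℝ) = (A : ℝ) + CB + 35 by push_cast; ring] at a1 a2
    linarith
  set t : ℕ := Nat.log 2 ⌊L ^ CS⌋₊ + 1 with ht
  have ht1 : ((t : ℝ) + 1) ≤ (2 * CS + 2) * l := by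
    have a1 := nat_log_le ⌊L ^ CS⌋₊
    have a0 : 1 ≤ L ^ CS := one_le_pow₀ hL1
    have a2 : Real.log (⌊L ^ CS⌋₊ : ℕ) ≤ Real.log (L ^ CS) := by
      apply Real.log_le_log _ (Nat.floor_le (by positivity))
      exact_mod_cast Nat.floor_pos.2 a0
    rw [Real.log_pow] at a2
    rw [ht]
    push_cast
    linarith
  have h2t : (2 : ℝ) ^ ((t + 1) ^ 2) ≤ Real.exp (A * l ^ 2) := by
    have a1 : (2 : ℝ) ≤ Real.exp 1 := by have := Real.add_one_le_exp (1 : ℝ); linarith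
    calc (2 : ℝ) ^ ((t + 1) ^ 2) ≤ (Real.exp 1) ^ ((t + 1) ^ 2) := by gcongr
      _ = Real.exp ((((t + 1) ^ 2 : ℕ) : ℝ) * 1) := by rw [Real.exp_nat_mul]
      _ ≤ _ := by
          apply Real.exp_le_exp.2
          rw [hA]
          push_cast
          rw [mul_one, ← mul_pow]
          gcongr
  set ε : ℝ := Real.exp (-(((CB : ℝ) + 31) * l ^ 2)) with hε
  set F : ℝ := ((β * 2 ^ ((t + 1) ^ 2) : ℕ) : ℝ) with hF
  have hF0 : 0 ≤ F := Nat.cast_nonneg _
  have hF1 : 2 * L * F ≤ ε * p := by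
    have a1 : F ≤ 2 * p * Real.exp (-(((A : ℝ) + CB + 35) * l ^ 2)) * Real.exp (A * l ^ 2) := by
      rw [hF]
      push_cast
      gcongr
    have a2 : 4 * L ≤ Real.exp (4 * l ^ 2) := by
      have b1 : L = Real.exp l := by rw [hl, Real.exp_log hL0]
      have b2 := Real.add_one_le_exp (3 : ℝ)
      calc 4 * L ≤ Real.exp 3 * Real.exp l := by rw [← b1]; gcongr; linarith
        _ = Real.exp (3 + l) := by rw [Real.exp_add]
        _ ≤ _ := by apply Real.exp_le_exp.2; linarith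
    calc 2 * L * F ≤ 2 * L * (2 * p * Real.exp (-(((A : ℝ) + CB + 35) * l ^ 2)) *
          Real.exp (A * l ^ 2)) := by gcongr
      _ = (4 * L) * (Real.exp (-(((A : ℝ) + CB + 35) * l ^ 2)) * Real.exp (A * l ^ 2)) * p := by
          ring
      _ ≤ Real.exp (4 * l ^ 2) *
          (Real.exp (-(((A : ℝ) + CB + 35) * l ^ 2)) * Real.exp (A * l ^ 2)) * p := by gcongr
      _ = ε * p := by
          rw [hε, ← Real.exp_add, ← Real.exp_add]
          congr 2
          ring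
  have hF2 : F ≤ ε * p := by nlinarith
  have hsm : ∀ r : ℕ, 1 ≤ r → r ≤ 2 ^ t → r < p → (bn p r : ℝ) ≤ F := fun r a b c => by
    rw [hF]
    exact_mod_cast st1 p β hβ1 hβ2 t r a b c
  have hbU : ∀ u ∈ U, (bn p u : ℝ) ≤ ε * p := by
    intro u hu
    obtain ⟨a1, a2, a3⟩ := hU u hu
    have a4 := bn_le_of_primes (p := p) F hF0 u a1 a2 fun r hr hd => by
      refine hsm r hr.pos ?_ (lt_of_le_of_lt (Nat.le_of_dvd a1 hd) a2)
      have b1 : r ≤ ⌊L ^ CS⌋₊ := Nat.le_floor (a3 r hr hd)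
      have b2 : ⌊L ^ CS⌋₊ < 2 ^ t := Nat.lt_pow_succ_log_self (by norm_num) _
      omega
    have a5 : ((Nat.log 2 u : ℕ) : ℝ) ≤ 2 * L := by
      have : Nat.log 2 u ≤ Nat.log 2 p := Nat.log_mono_right a2.le
      exact le_trans (by exact_mod_cast this) (nat_log_le p)
    calc (bn p u : ℝ) ≤ Nat.log 2 u * F := a4
      _ ≤ 2 * L * F := by gcongr
      _ ≤ _ := hF1
  have hb2 : (bn p 2 : ℝ) ≤ ε * p := by
    refine (hsm 2 (by norm_num) ?_ (by omega)).trans hF2
    calc 2 = 2 ^ 1 := rfl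
      _ ≤ 2 ^ t := Nat.pow_le_pow_right (by norm_num) (by omega)
  have hεp : (p : ℝ) ^ (-(1 / 100) : ℝ) ≤ ε := by
    rw [Real.rpow_def_of_pos hp0, hε]
    apply Real.exp_le_exp.2
    linarith
  have h30 : Real.exp (-(31 * l ^ 2)) ≤ 1 / L ^ 30 := by
    have b1 : L ^ 30 = Real.exp (30 * l) := by
      rw [show (30 : ℝ) * l = (30 : ℕ) * l by norm_num, Real.exp_nat_mul, hl, Real.exp_log hL0]
    rw [b1, one_div, ← Real.exp_neg]
    apply Real.exp_le_exp.2
    linarith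
  have hε30 : ε * p ≤ p / L ^ 30 := by
    have : ε ≤ Real.exp (-(31 * l ^ 2)) := by
      apply Real.exp_le_exp.2
      have : 0 ≤ (CB : ℝ) * l ^ 2 := by positivity
      linarith
    calc ε * p ≤ 1 / L ^ 30 * p := by gcongr; exact this.trans h30
      _ = _ := by ring
  have hβF : (β : ℝ) ≤ F := by
    rw [hF]
    exact_mod_cast Nat.le_mul_of_pos_right _ (by positivity)
  refine hLin U hne hU1 hEq (fun u hu => (hbU u hu).trans hε30) ?_ ?_ ?_
  · exact le_trans (by exact_mod_cast hβ1) (hβF.trans (hF2.trans hε30))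
  · exact le_trans (by exact_mod_cast hβ2) (hβF.trans (hF2.trans hε30))
  · intro Y hY
    refine (hBoot U hne hU1 hEq ε hεp hbU hb2 Y hY).trans ?_
    have e : ε * Real.exp (CB * l ^ 2) = Real.exp (-(31 * l ^ 2)) := by
      rw [hε, ← Real.exp_add]
      congr 1
      ring
    rw [e]
    calc Real.exp (-(31 * l ^ 2)) * p * Y ≤ 1 / L ^ 30 * p * Y := by gcongr
      _ = _ := by ring

end Pool.Agent.H753Z.SG
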